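import Pool.Agent.Lib.H21X.Defs

/-!
# Chunk A1: cutting the domain into cells

PROOF.  `z ↦ (z / B^m, z % B^m)` (integer division, `B^m > 0`) is a bijection of
`[-D B^(n+m), D B^(n+m))` onto `[-D B^n, D B^n) × [0, B^m)` with inverse `B^m z0 + y`
(`Int.emod_add_ediv`, `Int.ediv_lt_iff_lt_mul`, `Int.le_ediv_iff_mul_le`).  Use
`Finset.sum_product'` and `Finset.sum_nbij'`.  The cardinality is `Int.card_Ico`.
-/

namespace Pool.Agent.Lib.H21X

open Finset Filter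

private lemma A1_mem (B D n m : ℕ) (hB : 1 ≤ B) (z0 y : ℤ) (h0 : 0 ≤ y) (h1 : y < (B : ℤ) ^ m) :
    (B : ℤ) ^ m * z0 + y ∈ dom B D (n + m) ↔ z0 ∈ dom B D n := by
  have hBm : (0 : ℤ) < (B : ℤ) ^ m := by positivity
  unfold dom
  simp only [Finset.mem_Ico]
  have h2 : (D : ℤ) * (B : ℤ) ^ (n + m) = (B : ℤ) ^ m * ((D : ℤ) * (B : ℤ) ^ n) := by ring
  have h3 : -((D : ℤ) * (B : ℤ) ^ (n + m)) = (B : ℤ) ^ m * (-((D : ℤ) * (B : ℤ) ^ n)) := by ring
  generalize (D : ℤ) * (B : ℤ) ^ n = K at *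
  rw [h3, h2]
  constructor
  · rintro ⟨ha, hb⟩
    constructor
    · by_contra hlt
      push Not at hlt
      have : z0 + 1 ≤ -K := by linarith
      nlinarith
    · by_contra hlt
      push Not at hlt
      nlinarith
  · rintro ⟨ha, hb⟩
    constructor
    · nlinarith
    · have : z0 + 1 ≤ K := by linarith
      nlinarith

theorem sum_split (B D n m : ℕ) (hB : 1 ≤ B) (f : ℤ → ℝ) :
    ∑ z ∈ dom B D (n + m), f z =
      ∑ z0 ∈ dom B D n, ∑ y ∈ Finset.Ico (0 : ℤ) ((B : ℤ) ^ m), f ((B : ℤ) ^ m * z0 + y) := by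
  have hBm : (0 : ℤ) < (B : ℤ) ^ m := by positivity
  rw [← Finset.sum_product']
  refine Finset.sum_nbij' (fun z => (z / (B : ℤ) ^ m, z % (B : ℤ) ^ m)) (fun q => (B : ℤ) ^ m * q.1 + q.2)
    ?_ ?_ ?_ ?_ ?_
  · intro z hz
    simp only [Finset.mem_product, Finset.mem_Ico]
    have h0 := Int.emod_nonneg z hBm.ne'
    have h1 := Int.emod_lt_of_pos z hBm
    refine ⟨?_, h0, h1⟩
    rw [← A1_mem B D n m hB _ _ h0 h1, Int.mul_ediv_add_emod]
    exact hz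
  · intro q hq
    simp only [Finset.mem_product, Finset.mem_Ico] at hq
    exact (A1_mem B D n m hB _ _ hq.2.1 hq.2.2).mpr hq.1
  · intro z _
    exact Int.mul_ediv_add_emod z _
  · intro q hq
    simp only [Finset.mem_product, Finset.mem_Ico] at hq
    ext
    · show ((B : ℤ) ^ m * q.1 + q.2) / (B : ℤ) ^ m = q.1
      rw [Int.mul_add_ediv_left _ _ hBm.ne', Int.ediv_eq_zero_of_lt hq.2.1 hq.2.2, add_zero]
    · show ((B : ℤ) ^ m * q.1 + q.2) % (B : ℤ) ^ m = q.2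
      rw [Int.mul_add_emod_self_left]
      exact Int.emod_eq_of_lt hq.2.1 hq.2.2
  · intro z _
    show f z = f ((B : ℤ) ^ m * (z / (B : ℤ) ^ m) + z % (B : ℤ) ^ m)
    rw [Int.mul_ediv_add_emod]

theorem card_dom (B D n : ℕ) : ((dom B D n).card : ℝ) = 2 * D * (B : ℝ) ^ n := by
  unfold dom
  rw [Int.card_Ico]
  have h1 : (D : ℤ) * (B : ℤ) ^ n - -((D : ℤ) * (B : ℤ) ^ n) = ((2 * D * B ^ n : ℕ) : ℤ) := by
    push_cast
    ring
  rw [h1, Int.toNat_natCast]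
  push_cast
  ring

theorem mem_dom_mul (B D n m : ℕ) (hB : 1 ≤ B) (z0 y : ℤ) (h0 : 0 ≤ y) (h1 : y < (B : ℤ) ^ m) :
    (B : ℤ) ^ m * z0 + y ∈ dom B D (n + m) ↔ z0 ∈ dom B D n :=
  A1_mem B D n m hB z0 y h0 h1

end Pool.Agent.Lib.H21X
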