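import Pool.Agent.Lib.H21X.A1

/-!
# Chunk A2: the block inequality and submultiplicativity of the moments

PROOF of `conv_bound`.  By convexity of `x ^ q` (`inner_le_nnorm_mul_nnorm` is not needed:
`Real.pow_arith_mean_le_arith_mean_pow` or `Finset.inner_mul_le_norm_mul_norm`; weights `1 / k`)
`((1/k) ∑ s_i)^q ≤ (1/k) ∑ s_i^q`, and `(a + b)^q ≤ 2^(q-1) (a^q + b^q)` (`add_pow_le`), so the
left side is at most `(1/k) ∑_i 2^(q-1) (∑_y α m (u i + y)^q + ∑_y α m (u i + y + 1)^q)`; each of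
the two inner sums is at most `Z B D α q m`, because the points `u i + y` (`y ∈ [0, B^m)`) are
distinct and `α m` vanishes outside `dom B D m` (sum over the image, drop the points outside
`dom`: `Finset.sum_le_sum_of_subset_of_nonneg`).  Total `≤ 2^(q-1) * 2 * Z = 2^q Z`.
`block_bound`: take `k, u` from `hs.step`, raise the inequality to the power `q`, sum over `y`,
use `conv_bound`.  `Z_submul`: `sum_split` and `block_bound` for every `z0`.
-/

namespace Pool.Agent.Lib.H21X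

open Finset Filter

private theorem A2_shift {B D : ℕ} {α : ℕ → ℤ → ℝ} (hs : Sys B D α) {q : ℕ} (hq : 1 ≤ q) (m : ℕ)
    (v : ℤ) :
    ∑ y ∈ Finset.Ico (0 : ℤ) ((B : ℤ) ^ m), α m (v + y) ^ q ≤ Z B D α q m := by
  have h1 : ∑ y ∈ Finset.Ico (0 : ℤ) ((B : ℤ) ^ m), α m (v + y) ^ q =
      ∑ z ∈ (Finset.Ico (0 : ℤ) ((B : ℤ) ^ m)).image (fun y => v + y), α m z ^ q := by
    rw [Finset.sum_image]
    intro a _ b _ hab
    exact add_left_cancel hab
  have h2 : ∑ z ∈ (Finset.Ico (0 : ℤ) ((B : ℤ) ^ m)).image (fun y => v + y), α m z ^ q =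
      ∑ z ∈ ((Finset.Ico (0 : ℤ) ((B : ℤ) ^ m)).image (fun y => v + y)).filter
        (fun z => z ∈ dom B D m), α m z ^ q := by
    rw [Finset.sum_filter_of_ne]
    intro z _ hz
    by_contra hcon
    apply hz
    rw [hs.supp m z hcon, zero_pow (by omega)]
  rw [h1, h2]
  unfold Z
  apply Finset.sum_le_sum_of_subset_of_nonneg
  · intro z hz
    exact (Finset.mem_filter.1 hz).2
  · intro z _ _
    exact pow_nonneg (hs.nonneg m z) q

theorem conv_bound {B D : ℕ} {α : ℕ → ℤ → ℝ} (hs : Sys B D α) {q : ℕ} (hq : 1 ≤ q) (m : ℕ)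
    {k : ℕ} (hk : 0 < k) (u : Fin k → ℤ) :
    ∑ y ∈ Finset.Ico (0 : ℤ) ((B : ℤ) ^ m),
      ((1 / (k : ℝ)) * ∑ i, (α m (u i + y) + α m (u i + y + 1))) ^ q ≤ 2 ^ q * Z B D α q m := by
  have hkR : (0 : ℝ) < (k : ℝ) := by exact_mod_cast hk
  have hpt : ∀ y : ℤ, ((1 / (k : ℝ)) * ∑ i, (α m (u i + y) + α m (u i + y + 1))) ^ q ≤
      (1 / (k : ℝ)) * ∑ i, 2 ^ (q - 1) * (α m (u i + y) ^ q + α m (u i + y + 1) ^ q) := by
    intro y
    have h1 := Real.pow_arith_mean_le_arith_mean_pow (Finset.univ : Finset (Fin k))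
      (fun _ => 1 / (k : ℝ)) (fun i => α m (u i + y) + α m (u i + y + 1))
      (fun _ _ => by positivity) (by
        rw [Finset.sum_const, Finset.card_univ, Fintype.card_fin, nsmul_eq_mul]
        field_simp) (fun i _ => add_nonneg (hs.nonneg _ _) (hs.nonneg _ _)) q
    rw [← Finset.mul_sum, ← Finset.mul_sum] at h1
    refine h1.trans ?_
    apply mul_le_mul_of_nonneg_left _ (by positivity)
    exact Finset.sum_le_sum fun i _ => add_pow_le (hs.nonneg _ _) (hs.nonneg _ _) q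
  have hin : ∀ i : Fin k, ∑ y ∈ Finset.Ico (0 : ℤ) ((B : ℤ) ^ m),
      (2 : ℝ) ^ (q - 1) * (α m (u i + y) ^ q + α m (u i + y + 1) ^ q) ≤ 2 ^ q * Z B D α q m := by
    intro i
    rw [← Finset.mul_sum, Finset.sum_add_distrib]
    have h1 := A2_shift hs hq m (u i)
    have h2 := A2_shift hs hq m (u i + 1)
    have h3 : ∑ y ∈ Finset.Ico (0 : ℤ) ((B : ℤ) ^ m), α m (u i + 1 + y) ^ q =
        ∑ y ∈ Finset.Ico (0 : ℤ) ((B : ℤ) ^ m), α m (u i + y + 1) ^ q := by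
      refine Finset.sum_congr rfl fun y _ => ?_
      rw [add_right_comm]
    rw [h3] at h2
    have h4 : (2 : ℝ) ^ q = 2 ^ (q - 1) * 2 := by
      rw [← pow_succ]
      congr 1
      omega
    rw [h4, mul_assoc]
    apply mul_le_mul_of_nonneg_left _ (by positivity)
    linarith
  calc ∑ y ∈ Finset.Ico (0 : ℤ) ((B : ℤ) ^ m),
        ((1 / (k : ℝ)) * ∑ i, (α m (u i + y) + α m (u i + y + 1))) ^ q
      ≤ ∑ y ∈ Finset.Ico (0 : ℤ) ((B : ℤ) ^ m), (1 / (k : ℝ)) *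
          ∑ i, 2 ^ (q - 1) * (α m (u i + y) ^ q + α m (u i + y + 1) ^ q) :=
        Finset.sum_le_sum fun y _ => hpt y
    _ = (1 / (k : ℝ)) * ∑ i, ∑ y ∈ Finset.Ico (0 : ℤ) ((B : ℤ) ^ m),
          2 ^ (q - 1) * (α m (u i + y) ^ q + α m (u i + y + 1) ^ q) := by
        rw [← Finset.mul_sum, Finset.sum_comm]
    _ ≤ (1 / (k : ℝ)) * ∑ i : Fin k, 2 ^ q * Z B D α q m := by
        apply mul_le_mul_of_nonneg_left _ (by positivity)
        exact Finset.sum_le_sum fun i _ => hin i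
    _ = 2 ^ q * Z B D α q m := by
        rw [Finset.sum_const, Finset.card_univ, Fintype.card_fin, nsmul_eq_mul]
        field_simp

theorem block_bound {B D : ℕ} {α : ℕ → ℤ → ℝ} (hs : Sys B D α) {q : ℕ} (hq : 1 ≤ q) (n m : ℕ)
    (z0 : ℤ) :
    ∑ y ∈ Finset.Ico (0 : ℤ) ((B : ℤ) ^ m), α (n + m) ((B : ℤ) ^ m * z0 + y) ^ q ≤
      α n z0 ^ q * (2 ^ q * Z B D α q m) := by
  obtain ⟨k, hk, u, hu⟩ := hs.step n m z0
  calc ∑ y ∈ Finset.Ico (0 : ℤ) ((B : ℤ) ^ m), α (n + m) ((B : ℤ) ^ m * z0 + y) ^ q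
      ≤ ∑ y ∈ Finset.Ico (0 : ℤ) ((B : ℤ) ^ m), (α n z0 *
          ((1 / (k : ℝ)) * ∑ i, (α m (u i + y) + α m (u i + y + 1)))) ^ q :=
        Finset.sum_le_sum fun y hy => pow_le_pow_left₀ (hs.nonneg _ _) (hu y hy) q
    _ = α n z0 ^ q * ∑ y ∈ Finset.Ico (0 : ℤ) ((B : ℤ) ^ m),
          ((1 / (k : ℝ)) * ∑ i, (α m (u i + y) + α m (u i + y + 1))) ^ q := by
        rw [Finset.mul_sum]
        exact Finset.sum_congr rfl fun y _ => mul_pow _ _ _
    _ ≤ α n z0 ^ q * (2 ^ q * Z B D α q m) :=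
        mul_le_mul_of_nonneg_left (conv_bound hs hq m hk u) (pow_nonneg (hs.nonneg _ _) q)

theorem Z_submul {B D : ℕ} {α : ℕ → ℤ → ℝ} (hs : Sys B D α) {q : ℕ} (hq : 1 ≤ q) (n m : ℕ) :
    Z B D α q (n + m) ≤ 2 ^ q * Z B D α q n * Z B D α q m := by
  have h1 : Z B D α q (n + m) = ∑ z0 ∈ dom B D n, ∑ y ∈ Finset.Ico (0 : ℤ) ((B : ℤ) ^ m),
      α (n + m) ((B : ℤ) ^ m * z0 + y) ^ q :=
    sum_split B D n m (by have := hs.two_le; omega) fun z => α (n + m) z ^ q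
  rw [h1]
  calc ∑ z0 ∈ dom B D n, ∑ y ∈ Finset.Ico (0 : ℤ) ((B : ℤ) ^ m),
        α (n + m) ((B : ℤ) ^ m * z0 + y) ^ q
      ≤ ∑ z0 ∈ dom B D n, α n z0 ^ q * (2 ^ q * Z B D α q m) :=
        Finset.sum_le_sum fun z0 _ => block_bound hs hq n m z0
    _ = Z B D α q n * (2 ^ q * Z B D α q m) := by
        rw [← Finset.sum_mul]
        rfl
    _ = 2 ^ q * Z B D α q n * Z B D α q m := by ring

end Pool.Agent.Lib.H21X
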