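import Pool.Agent.Lib.H21X.A1

/-!
# Chunk A3: the maximum

PROOF.  `α n` is nonnegative, not identically zero and vanishes outside the finite set
`dom B D n`; so its range is finite up to `0`, the supremum is a maximum, attained at some
`z ∈ dom B D n` (`Finset.exists_max_image` on `dom`, `ciSup_le`, `le_ciSup`).  `M_submul`: write
the maximal cell `z` of scale `n + m` as `B^m z0 + y` with `z0 = z / B^m`, `y = z % B^m`, use
`hs.step`: `α (n+m) z ≤ α n z0 * ((1/k) * (k * (2 M m))) ≤ 2 M n M m`.  `Z_le`: every summand is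
at most `M^q`, `card_dom`.
-/

namespace Pool.Agent.Lib.H21X

open Finset Filter

private lemma A3_max {B D : ℕ} {α : ℕ → ℤ → ℝ} (hs : Sys B D α) (n : ℕ) :
    ∃ z ∈ dom B D n, 0 < α n z ∧ ∀ w, α n w ≤ α n z := by
  obtain ⟨w, hw⟩ := hs.exists_pos n
  have hwd : w ∈ dom B D n := by
    by_contra h
    rw [hs.supp n w h] at hw
    exact lt_irrefl _ hw
  obtain ⟨z, hz, hmax⟩ := (dom B D n).exists_max_image (fun z => α n z) ⟨w, hwd⟩
  have hz0 : 0 < α n z := lt_of_lt_of_le hw (hmax w hwd)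
  refine ⟨z, hz, hz0, fun v => ?_⟩
  by_cases hv : v ∈ dom B D n
  · exact hmax v hv
  · rw [hs.supp n v hv]
    exact hz0.le

private lemma A3_eq {α : ℕ → ℤ → ℝ} (n : ℕ) {z : ℤ}
    (hz : ∀ w, α n w ≤ α n z) : M α n = α n z := by
  unfold M
  refine le_antisymm (ciSup_le hz) ?_
  exact le_ciSup (f := fun z => α n z) ⟨α n z, by rintro _ ⟨w, rfl⟩; exact hz w⟩ z

theorem le_M {B D : ℕ} {α : ℕ → ℤ → ℝ} (hs : Sys B D α) (n : ℕ) (z : ℤ) : α n z ≤ M α n := by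
  obtain ⟨w, -, -, hmax⟩ := A3_max hs n
  rw [A3_eq n hmax]
  exact hmax z

theorem exists_eq_M {B D : ℕ} {α : ℕ → ℤ → ℝ} (hs : Sys B D α) (n : ℕ) :
    ∃ z ∈ dom B D n, α n z = M α n := by
  obtain ⟨w, hw, -, hmax⟩ := A3_max hs n
  exact ⟨w, hw, (A3_eq n hmax).symm⟩

theorem M_pos {B D : ℕ} {α : ℕ → ℤ → ℝ} (hs : Sys B D α) (n : ℕ) : 0 < M α n := by
  obtain ⟨w, -, h0, hmax⟩ := A3_max hs n
  rw [A3_eq n hmax]
  exact h0

theorem M_submul {B D : ℕ} {α : ℕ → ℤ → ℝ} (hs : Sys B D α) (n m : ℕ) :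
    M α (n + m) ≤ 2 * M α n * M α m := by
  have hB : 1 ≤ B := le_trans (by norm_num) hs.two_le
  have hBm : (0 : ℤ) < (B : ℤ) ^ m := by positivity
  obtain ⟨z, -, hz⟩ := exists_eq_M hs (n + m)
  obtain ⟨k, hk, u, hu⟩ := hs.step n m (z / (B : ℤ) ^ m)
  have h1 := hu (z % (B : ℤ) ^ m) (Finset.mem_Ico.2 ⟨Int.emod_nonneg z hBm.ne',
    Int.emod_lt_of_pos z hBm⟩)
  rw [Int.mul_ediv_add_emod, hz] at h1
  have hk' : (0 : ℝ) < k := by exact_mod_cast hk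
  have h2 : (1 / (k : ℝ)) * ∑ i, (α m (u i + z % (B : ℤ) ^ m) + α m (u i + z % (B : ℤ) ^ m + 1)) ≤
      2 * M α m := by
    have h3 : ∑ i, (α m (u i + z % (B : ℤ) ^ m) + α m (u i + z % (B : ℤ) ^ m + 1)) ≤
        ∑ _i : Fin k, (2 * M α m) := by
      refine Finset.sum_le_sum fun i _ => ?_
      have h4 := le_M hs m (u i + z % (B : ℤ) ^ m)
      have h5 := le_M hs m (u i + z % (B : ℤ) ^ m + 1)
      linarith
    rw [Finset.sum_const, Finset.card_univ, Fintype.card_fin, nsmul_eq_mul] at h3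
    rw [one_div, inv_mul_le_iff₀ hk']
    exact h3
  have h6 := hs.nonneg n (z / (B : ℤ) ^ m)
  have h7 := le_M hs n (z / (B : ℤ) ^ m)
  have h8 := (M_pos hs m).le
  calc M α (n + m) ≤ α n (z / (B : ℤ) ^ m) * ((1 / (k : ℝ)) * ∑ i, (α m (u i + z % (B : ℤ) ^ m) +
        α m (u i + z % (B : ℤ) ^ m + 1))) := h1
    _ ≤ α n (z / (B : ℤ) ^ m) * (2 * M α m) := mul_le_mul_of_nonneg_left h2 h6
    _ ≤ M α n * (2 * M α m) := mul_le_mul_of_nonneg_right h7 (by linarith)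
    _ = 2 * M α n * M α m := by ring

theorem M_pow_le_Z {B D : ℕ} {α : ℕ → ℤ → ℝ} (hs : Sys B D α) (q n : ℕ) :
    M α n ^ q ≤ Z B D α q n := by
  obtain ⟨z, hz, hM⟩ := exists_eq_M hs n
  unfold Z
  rw [← hM]
  exact Finset.single_le_sum (f := fun z => α n z ^ q) (fun w _ => pow_nonneg (hs.nonneg n w) q) hz

theorem Z_le {B D : ℕ} {α : ℕ → ℤ → ℝ} (hs : Sys B D α) (q n : ℕ) :
    Z B D α q n ≤ 2 * D * (B : ℝ) ^ n * M α n ^ q := by
  unfold Z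
  calc ∑ z ∈ dom B D n, α n z ^ q ≤ ∑ _z ∈ dom B D n, M α n ^ q :=
        Finset.sum_le_sum fun z _ => pow_le_pow_left₀ (hs.nonneg n z) (le_M hs n z) q
    _ = 2 * D * (B : ℝ) ^ n * M α n ^ q := by
        rw [Finset.sum_const, nsmul_eq_mul, card_dom]

theorem Z_pos {B D : ℕ} {α : ℕ → ℤ → ℝ} (hs : Sys B D α) (q n : ℕ) : 0 < Z B D α q n :=
  lt_of_lt_of_le (pow_pos (M_pos hs n) q) (M_pow_le_Z hs q n)

end Pool.Agent.Lib.H21X
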