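import Pool.Agent.Lib.H21X.Defs

/-!
# Chunk A4: Fekete's lemma in the form which is used

PROOF.  Mathlib: `Subadditive f`, `Subadditive.lim`, `Subadditive.tendsto_lim` (needs
`BddBelow (range fun n => f n / n)`, which is the hypothesis `hC`), `Subadditive.lim_le_div`
(for `n ≠ 0`).  For `n = 0`: `f 0 ≤ f 0 + f 0` gives `0 ≤ f 0`, so `φ * 0 ≤ f 0`.
-/

namespace Pool.Agent.Lib.H21X

open Finset Filter

theorem fekete (f : ℕ → ℝ) (hf : ∀ n m, f (n + m) ≤ f n + f m) (C : ℝ)
    (hC : ∀ n : ℕ, -(C * n) ≤ f n) :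
    ∃ φ : ℝ, (∀ n : ℕ, φ * n ≤ f n) ∧ ∀ δ > 0, ∃ n0 : ℕ, ∀ n : ℕ, n0 ≤ n → f n ≤ (φ + δ) * n := by
  have hsub : Subadditive f := hf
  have hbdd : BddBelow (Set.range fun n : ℕ => f n / n) := by
    refine ⟨-|C|, ?_⟩
    rintro _ ⟨n, rfl⟩
    rcases Nat.eq_zero_or_pos n with h | h
    · subst h
      simp
    · have hn : (0 : ℝ) < n := by exact_mod_cast h
      show -|C| ≤ f n / n
      rw [le_div_iff₀ hn]
      have h1 := hC n
      have h2 : C * n ≤ |C| * n := mul_le_mul_of_nonneg_right (le_abs_self C) hn.le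
      linarith
  refine ⟨hsub.lim, fun n => ?_, fun δ hδ => ?_⟩
  · rcases Nat.eq_zero_or_pos n with h | h
    · subst h
      have h1 := hf 0 0
      simp only [add_zero] at h1
      simp only [Nat.cast_zero, mul_zero]
      linarith
    · have hn : (0 : ℝ) < n := by exact_mod_cast h
      have h1 := hsub.lim_le_div hbdd h.ne'
      rwa [le_div_iff₀ hn] at h1
  · have h1 := hsub.tendsto_lim hbdd
    have h2 : ∀ᶠ n : ℕ in atTop, f n / n < hsub.lim + δ :=
      h1.eventually_lt_const (by linarith)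
    obtain ⟨n0, hn0⟩ := eventually_atTop.1 h2
    refine ⟨max n0 1, fun n hn => ?_⟩
    have hn1 : 1 ≤ n := (le_max_right _ _).trans hn
    have hn' : (0 : ℝ) < n := by exact_mod_cast hn1
    have h3 := hn0 n ((le_max_left _ _).trans hn)
    rw [div_lt_iff₀ hn'] at h3
    exact h3.le

end Pool.Agent.Lib.H21X
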