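import Pool.Agent.Lib.H21X.A2
import Pool.Agent.Lib.H21X.A3

/-!
# Chunk B1: a large cell with near equality

PROOF.  Suppose that every cell `z0` of scale `n` with `exp (w n) ≤ α n z0` satisfies
`∑_y α (n+m) (B^m z0 + y)^q < K α n z0^q Z q m`.  By `sum_split`, `Z q (n+m)` is the sum over
`z0 ∈ dom B D n` of `∑_y α (n+m) (B^m z0 + y)^q`.  The small `z0` (`α n z0 < exp (w n)`)
contribute, by `block_bound`, at most
`∑ α n z0^q 2^q Z q m ≤ 2 D B^n exp (w n)^q 2^q Z q m ≤ K Z q n Z q m` (`card_dom`, `h2`).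
The large `z0` contribute at most `K Z q n Z q m`, and strictly less if there is at least one
large `z0` (in `dom`; outside `dom` everything is `0` and `exp > 0`, so a large `z0` is in `dom`).
So in both cases `Z q (n+m) < 2 K Z q n Z q m` (if there is no large cell use
`K Z q n Z q m > 0`), which contradicts `h1`.
-/

namespace Pool.Agent.Lib.H21X

open Finset Filter

theorem large_cell {B D : ℕ} {α : ℕ → ℤ → ℝ} (hs : Sys B D α) {q : ℕ} (hq : 1 ≤ q) (n m : ℕ)
    (w K : ℝ) (hK : 0 < K)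
    (h1 : 2 * K * Z B D α q n * Z B D α q m ≤ Z B D α q (n + m))
    (h2 : 2 * D * (B : ℝ) ^ n * Real.exp (w * n) ^ q * 2 ^ q ≤ K * Z B D α q n) :
    ∃ z0 : ℤ, Real.exp (w * n) ≤ α n z0 ∧
      K * α n z0 ^ q * Z B D α q m ≤
        ∑ y ∈ Finset.Ico (0 : ℤ) ((B : ℤ) ^ m), α (n + m) ((B : ℤ) ^ m * z0 + y) ^ q := by
  by_contra hcon
  push Not at hcon
  have hZm : 0 < Z B D α q m := Z_pos hs q m
  have hB : 1 ≤ B := le_trans (by norm_num) hs.two_le
  have hexp : 0 < Real.exp (w * n) := Real.exp_pos _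
  have hpt : ∀ z0 ∈ dom B D n,
      ∑ y ∈ Finset.Ico (0 : ℤ) ((B : ℤ) ^ m), α (n + m) ((B : ℤ) ^ m * z0 + y) ^ q <
        K * Z B D α q m * α n z0 ^ q + Real.exp (w * n) ^ q * 2 ^ q * Z B D α q m := by
    intro z0 _
    have h0 : 0 ≤ K * Z B D α q m * α n z0 ^ q :=
      mul_nonneg (mul_nonneg hK.le hZm.le) (pow_nonneg (hs.nonneg n z0) q)
    have h3 : 0 < Real.exp (w * n) ^ q * 2 ^ q * Z B D α q m := by positivity
    rcases le_or_gt (Real.exp (w * n)) (α n z0) with hl | hl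
    · have h4 := hcon z0 hl
      have h5 : K * α n z0 ^ q * Z B D α q m = K * Z B D α q m * α n z0 ^ q := by ring
      linarith
    · have h4 := block_bound hs hq n m z0
      have h5 : α n z0 ^ q < Real.exp (w * n) ^ q :=
        pow_lt_pow_left₀ hl (hs.nonneg n z0) (by omega)
      have h6 : α n z0 ^ q * (2 ^ q * Z B D α q m) <
          Real.exp (w * n) ^ q * (2 ^ q * Z B D α q m) :=
        mul_lt_mul_of_pos_right h5 (by positivity)
      have h7 : Real.exp (w * n) ^ q * (2 ^ q * Z B D α q m) =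
          Real.exp (w * n) ^ q * 2 ^ q * Z B D α q m := by ring
      linarith
  obtain ⟨z1, hz1⟩ := hs.exists_pos n
  have hne : (dom B D n).Nonempty := by
    refine ⟨z1, ?_⟩
    by_contra hmem
    exact absurd (hs.supp n z1 hmem) hz1.ne'
  have hsum := Finset.sum_lt_sum_of_nonempty hne hpt
  rw [Finset.sum_add_distrib, ← Finset.mul_sum, Finset.sum_const, nsmul_eq_mul, card_dom] at hsum
  have hZ : Z B D α q (n + m) = ∑ z0 ∈ dom B D n,
      ∑ y ∈ Finset.Ico (0 : ℤ) ((B : ℤ) ^ m), α (n + m) ((B : ℤ) ^ m * z0 + y) ^ q :=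
    sum_split B D n m hB (fun z => α (n + m) z ^ q)
  have hZn : Z B D α q n = ∑ z ∈ dom B D n, α n z ^ q := rfl
  rw [← hZ, ← hZn] at hsum
  have h8 : (2 * D * (B : ℝ) ^ n * Real.exp (w * n) ^ q * 2 ^ q) * Z B D α q m ≤
      (K * Z B D α q n) * Z B D α q m := mul_le_mul_of_nonneg_right h2 hZm.le
  have h9 : 2 * (D : ℝ) * (B : ℝ) ^ n * (Real.exp (w * n) ^ q * 2 ^ q * Z B D α q m) =
      (2 * D * (B : ℝ) ^ n * Real.exp (w * n) ^ q * 2 ^ q) * Z B D α q m := by ring
  rw [h9] at hsum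
  have h10 : K * Z B D α q m * Z B D α q n = (K * Z B D α q n) * Z B D α q m := by ring
  rw [h10] at hsum
  have h11 : 2 * K * Z B D α q n * Z B D α q m = (K * Z B D α q n) * Z B D α q m +
      (K * Z B D α q n) * Z B D α q m := by ring
  linarith

end Pool.Agent.Lib.H21X
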