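import Pool.Agent.Lib.H21X.A2
import Pool.Agent.Lib.H21X.A3

/-!
# Chunk B2: localisation to one unit interval

`cutF α B m k x` is `α m (k B^m + x)` for `0 ≤ x < B^m` and `0` otherwise.

PROOF of `localise`.  Put `L = B^m` and `U_k = {u ∈ U : k L ≤ u < (k+1) L}`.  For `0 ≤ y < L`,
`e ∈ {0, 1}` and `u ∈ U` the point `u + y + e` lies in `dom B D m = [-D L, D L)` only if
`-(D+2) L ≤ u < D L`; so `α m (u + y + e) = ∑_{k1 ∈ [-D, D)} cutF α B m k1 (u + y + e - k1 L)` and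
only the `U_{k2}` with `k2 ∈ [-(D+2), D)` matter.  Hence `S(y)` (the sum over `u ∈ U` in `hU`) is
at most the sum over the `T0 = 2 * (2D) * (2D+2)` triples `(k1, k2, e)` of
`∑_{u ∈ U_{k2}} cutF α B m k1 (u + y + e - k1 L)`, and by convexity
`S(y)^q ≤ T0^(q-1) ∑_{triples} (...)^q`.  So one triple has
`K #U^q Z ≤ T0^q ∑_{y ∈ [0,L)} (∑_{u ∈ U_{k2}} cutF α B m k1 (u + y + e - k1 L))^q` and
`T0 ≤ T = 16 (D+1)^2`.  Put `U' = {u - k2 L : u ∈ U_{k2}}` (as natural numbers, in `[0, L)`),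
`Y = y + e + (k2 - k1) L`; then the inner sum is `∑_{u' ∈ U'} cutF α B m k1 (u' + Y)`, the map
`y ↦ Y` is injective, and terms with `Y ∉ (-L, L)` are zero because `0 ≤ u' < L` and `cutF` lives
on `[0, L)`.  `#U' ≤ #U` is clear.
-/

namespace Pool.Agent.Lib.H21X

open Finset Filter

/-- The restriction of `α m` to one unit interval, moved to `[0, B^m)`. -/
noncomputable def cutF (α : ℕ → ℤ → ℝ) (B m : ℕ) (k x : ℤ) : ℝ :=
  if 0 ≤ x ∧ x < (B : ℤ) ^ m then α m (k * (B : ℤ) ^ m + x) else 0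

private theorem B2_L {B D : ℕ} {α : ℕ → ℤ → ℝ} (hs : Sys B D α) (m : ℕ) : 0 < (B : ℤ) ^ m := by
  have h := hs.two_le
  have h1 : (0 : ℤ) < B := by exact_mod_cast (by omega : 0 < B)
  positivity

private theorem B2_zero (α : ℕ → ℤ → ℝ) (B m : ℕ) (k x : ℤ)
    (h : ¬ (0 ≤ x ∧ x < (B : ℤ) ^ m)) : cutF α B m k x = 0 := if_neg h

private theorem B2_nonneg {B D : ℕ} {α : ℕ → ℤ → ℝ} (hs : Sys B D α) (m : ℕ) (k x : ℤ) :
    0 ≤ cutF α B m k x := by
  unfold cutF
  split_ifs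
  · exact hs.nonneg _ _
  · exact le_rfl

/-- a sum over a finite set is at most the sum over the support -/
private theorem B2_sum_le (T D : Finset ℤ) (g : ℤ → ℝ) (h0 : ∀ z, 0 ≤ g z)
    (h1 : ∀ z ∈ T, z ∉ D → g z = 0) : ∑ z ∈ T, g z ≤ ∑ z ∈ D, g z := by
  classical
  calc ∑ z ∈ T, g z = ∑ z ∈ T.filter (fun z => z ∈ D), g z := by
        symm
        refine Finset.sum_subset (Finset.filter_subset _ _) fun z hz hz2 => ?_
        refine h1 z hz fun h => hz2 ?_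
        rw [Finset.mem_filter]
        exact ⟨hz, h⟩
    _ ≤ ∑ z ∈ D, g z := by
        refine Finset.sum_le_sum_of_subset_of_nonneg (fun z hz => ?_) fun z _ _ => h0 z
        exact (Finset.mem_filter.1 hz).2

/-- the decomposition of `α m` -/
private theorem B2_dec {B D : ℕ} {α : ℕ → ℤ → ℝ} (hs : Sys B D α) (m : ℕ) (x : ℤ) :
    α m x = ∑ k ∈ Finset.Ico (-(D : ℤ)) (D : ℤ), cutF α B m k (x - k * (B : ℤ) ^ m) := by
  have hL := B2_L hs m
  set L : ℤ := (B : ℤ) ^ m with hLdef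
  by_cases hx : x ∈ dom B D m
  · unfold dom at hx
    rw [Finset.mem_Ico] at hx
    have hd1 := Int.mul_ediv_add_emod x L
    have hd2 := Int.emod_nonneg x hL.ne'
    have hd3 := Int.emod_lt_of_pos x hL
    have hk1 : -(D : ℤ) ≤ x / L := by
      rw [Int.le_ediv_iff_mul_le hL]
      linarith [hx.1]
    have hk2 : x / L < (D : ℤ) := by
      rw [Int.ediv_lt_iff_lt_mul hL]
      exact hx.2
    rw [Finset.sum_eq_single (x / L)]
    · unfold cutF
      rw [← hLdef, if_pos]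
      · congr 1
        ring
      · have e : x - x / L * L = x % L := by linarith [mul_comm L (x / L)]
        rw [e]
        exact ⟨hd2, hd3⟩
    · intro k _ hk
      refine B2_zero _ _ _ _ _ ?_
      rw [← hLdef]
      rintro ⟨h1, h2⟩
      apply hk
      have h3 : k ≤ x / L := by
        rw [Int.le_ediv_iff_mul_le hL]
        linarith
      have h4 : x / L < k + 1 := by
        rw [Int.ediv_lt_iff_lt_mul hL]
        linarith
      omega
    · intro h
      exact absurd (Finset.mem_Ico.2 ⟨hk1, hk2⟩) h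
  · rw [hs.supp m x hx]
    symm
    refine Finset.sum_eq_zero fun k _ => ?_
    unfold cutF
    split_ifs
    · rw [← hLdef]
      have e : k * L + (x - k * L) = x := by ring
      rw [e]
      exact hs.supp m x hx
    · rfl

/-- the sum over `U` in pieces -/
private theorem B2_split {B D : ℕ} {α : ℕ → ℤ → ℝ} (hs : Sys B D α) (m : ℕ) (U : Finset ℤ)
    (y e : ℤ) (hy0 : 0 ≤ y + e) (hy1 : y + e ≤ (B : ℤ) ^ m) :
    ∑ u ∈ U, α m (u + y + e) =
      ∑ k2 ∈ Finset.Ico (-((D : ℤ) + 1)) (D : ℤ), ∑ k1 ∈ Finset.Ico (-(D : ℤ)) (D : ℤ),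
        ∑ u ∈ U.filter (fun u => u / (B : ℤ) ^ m = k2),
          cutF α B m k1 (u + y + e - k1 * (B : ℤ) ^ m) := by
  have hL := B2_L hs m
  set L : ℤ := (B : ℤ) ^ m with hLdef
  have h1 : ∑ u ∈ U, α m (u + y + e) =
      ∑ u ∈ U.filter (fun u => u / L ∈ Finset.Ico (-((D : ℤ) + 1)) (D : ℤ)), α m (u + y + e) := by
    symm
    refine Finset.sum_subset (Finset.filter_subset _ _) fun u hu hu2 => ?_
    refine hs.supp m _ fun h => hu2 ?_
    rw [Finset.mem_filter, Finset.mem_Ico]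
    unfold dom at h
    rw [Finset.mem_Ico, ← hLdef] at h
    refine ⟨hu, ?_, ?_⟩
    · rw [Int.le_ediv_iff_mul_le hL]
      nlinarith [h.1]
    · rw [Int.ediv_lt_iff_lt_mul hL]
      linarith [h.2]
  rw [h1, ← Finset.sum_fiberwise_of_maps_to (t := Finset.Ico (-((D : ℤ) + 1)) (D : ℤ))
    (g := fun u : ℤ => u / L) (fun u hu => (Finset.mem_filter.1 hu).2)]
  refine Finset.sum_congr rfl fun k2 hk2 => ?_
  have h2 : (U.filter (fun u => u / L ∈ Finset.Ico (-((D : ℤ) + 1)) (D : ℤ))).filter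
      (fun u => u / L = k2) = U.filter (fun u => u / L = k2) := by
    ext u
    rw [Finset.mem_filter, Finset.mem_filter, Finset.mem_filter]
    refine ⟨fun h => ⟨h.1.1, h.2⟩, fun h => ⟨⟨h.1, ?_⟩, h.2⟩⟩
    rw [h.2]
    exact hk2
  rw [h2, Finset.sum_comm]
  exact Finset.sum_congr rfl fun u _ => B2_dec hs m (u + y + e)

/-- one piece -/
private theorem B2_piece {B D : ℕ} {α : ℕ → ℤ → ℝ} (hs : Sys B D α) {q : ℕ} (hq : 1 ≤ q) (m : ℕ)
    (U : Finset ℤ) (e k1 k2 : ℤ) :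
    ∃ U' ⊆ range (B ^ m), U'.card ≤ U.card ∧
      ∑ y ∈ Finset.Ico (0 : ℤ) ((B : ℤ) ^ m),
        (∑ u ∈ U.filter (fun u => u / (B : ℤ) ^ m = k2),
          cutF α B m k1 (u + y + e - k1 * (B : ℤ) ^ m)) ^ q ≤
        ∑ y ∈ Finset.Ioo (-((B : ℤ) ^ m)) ((B : ℤ) ^ m),
          (∑ u ∈ U', cutF α B m k1 ((u : ℤ) + y)) ^ q := by
  classical
  have hL := B2_L hs m
  set L : ℤ := (B : ℤ) ^ m with hLdef
  set V : Finset ℤ := U.filter (fun u => u / L = k2) with hV
  have hVm : ∀ u ∈ V, 0 ≤ u - k2 * L ∧ u - k2 * L < L := by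
    intro u hu
    rw [hV, Finset.mem_filter] at hu
    have hd1 := Int.mul_ediv_add_emod u L
    have hd2 := Int.emod_nonneg u hL.ne'
    have hd3 := Int.emod_lt_of_pos u hL
    rw [hu.2] at hd1
    constructor <;> linarith [mul_comm L k2]
  have hinj : Set.InjOn (fun u : ℤ => (u - k2 * L).toNat) V := by
    intro u hu v hv huv
    have h1 := (hVm u hu).1
    have h2 := (hVm v hv).1
    have h3 : (u - k2 * L).toNat = (v - k2 * L).toNat := huv
    have h4 : u - k2 * L = v - k2 * L := by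
      rw [← Int.toNat_of_nonneg h1, ← Int.toNat_of_nonneg h2, h3]
    linarith
  refine ⟨V.image (fun u => (u - k2 * L).toNat), ?_, ?_, ?_⟩
  · intro a ha
    rw [Finset.mem_image] at ha
    obtain ⟨u, hu, rfl⟩ := ha
    rw [Finset.mem_range]
    obtain ⟨h1, h2⟩ := hVm u hu
    have h3 : (((u - k2 * L).toNat : ℕ) : ℤ) < ((B ^ m : ℕ) : ℤ) := by
      rw [Int.toNat_of_nonneg h1]
      push_cast
      exact h2
    exact_mod_cast h3
  · exact Finset.card_image_le.trans (Finset.card_le_card (Finset.filter_subset _ _))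
  · set G : ℤ → ℝ := fun Y => (∑ u ∈ V.image (fun u => (u - k2 * L).toNat),
      cutF α B m k1 ((u : ℤ) + Y)) ^ q with hG
    have hGn : ∀ Y, 0 ≤ G Y := fun Y =>
      pow_nonneg (Finset.sum_nonneg fun u _ => B2_nonneg hs m k1 _) q
    have h1 : ∀ y : ℤ, (∑ u ∈ V, cutF α B m k1 (u + y + e - k1 * L)) ^ q =
        G (y + (e + (k2 - k1) * L)) := by
      intro y
      rw [hG]
      simp only
      rw [Finset.sum_image hinj]
      congr 1
      refine Finset.sum_congr rfl fun u hu => ?_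
      rw [Int.toNat_of_nonneg (hVm u hu).1]
      congr 1
      ring
    have h2 : ∑ y ∈ Finset.Ico (0 : ℤ) L, (∑ u ∈ V, cutF α B m k1 (u + y + e - k1 * L)) ^ q =
        ∑ Y ∈ (Finset.Ico (0 : ℤ) L).image (fun y => y + (e + (k2 - k1) * L)), G Y := by
      rw [Finset.sum_image (fun a _ b _ h => by
        have h' : a + (e + (k2 - k1) * L) = b + (e + (k2 - k1) * L) := h
        linarith)]
      exact Finset.sum_congr rfl fun y _ => h1 y
    rw [h2]
    refine B2_sum_le _ _ G hGn fun Y _ hY => ?_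
    rw [hG]
    simp only
    rw [Finset.sum_eq_zero, zero_pow (by omega)]
    intro a ha
    rw [Finset.mem_image] at ha
    obtain ⟨u, hu, rfl⟩ := ha
    obtain ⟨h3, h4⟩ := hVm u hu
    rw [Int.toNat_of_nonneg h3]
    refine B2_zero _ _ _ _ _ ?_
    rw [← hLdef]
    rintro ⟨h5, h6⟩
    apply hY
    rw [Finset.mem_Ioo]
    constructor <;> linarith

theorem localise {B D : ℕ} {α : ℕ → ℤ → ℝ} (hs : Sys B D α) {q : ℕ} (hq : 1 ≤ q) (m : ℕ)
    (K : ℝ) (U : Finset ℤ)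
    (hU : K * (U.card : ℝ) ^ q * Z B D α q m ≤
      ∑ y ∈ Finset.Ico (0 : ℤ) ((B : ℤ) ^ m), (∑ u ∈ U, (α m (u + y) + α m (u + y + 1))) ^ q) :
    ∃ k : ℤ, ∃ U' ⊆ range (B ^ m), U'.card ≤ U.card ∧
      K * (U.card : ℝ) ^ q * Z B D α q m ≤ (16 * ((D : ℝ) + 1) ^ 2) ^ q *
        ∑ y ∈ Finset.Ioo (-((B : ℤ) ^ m)) ((B : ℤ) ^ m),
          (∑ u ∈ U', cutF α B m k ((u : ℤ) + y)) ^ q := by
  classical
  have hL := B2_L hs m
  set L : ℤ := (B : ℤ) ^ m with hLdef
  have hD := hs.one_le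
  set TT : Finset (ℤ × ℤ × ℤ) := (Finset.Ico (0 : ℤ) 2) ×ˢ
    ((Finset.Ico (-((D : ℤ) + 1)) (D : ℤ)) ×ˢ (Finset.Ico (-(D : ℤ)) (D : ℤ))) with hTT
  set a : ℤ × ℤ × ℤ → ℤ → ℝ := fun t y => ∑ u ∈ U.filter (fun u => u / L = t.2.1),
    cutF α B m t.2.2 (u + y + t.1 - t.2.2 * L) with ha
  have ha0 : ∀ t y, 0 ≤ a t y := fun t y => Finset.sum_nonneg fun u _ => B2_nonneg hs m _ _
  have hcard : (TT.card : ℝ) = 4 * D * (2 * D + 1) := by
    rw [hTT, Finset.card_product, Finset.card_product, Int.card_Ico, Int.card_Ico, Int.card_Ico]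
    have e1 : ((2 : ℤ) - 0).toNat = 2 := rfl
    have e2 : ((D : ℤ) - -((D : ℤ) + 1)).toNat = 2 * D + 1 := by omega
    have e3 : ((D : ℤ) - -(D : ℤ)).toNat = 2 * D := by omega
    rw [e1, e2, e3]
    push_cast
    ring
  have hS : ∀ y ∈ Finset.Ico (0 : ℤ) L, ∑ u ∈ U, (α m (u + y) + α m (u + y + 1)) =
      ∑ t ∈ TT, a t y := by
    intro y hy
    rw [Finset.mem_Ico] at hy
    rw [Finset.sum_add_distrib, hTT, Finset.sum_product]
    have e1 : Finset.Ico (0 : ℤ) 2 = {0, 1} := by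
      ext x
      rw [Finset.mem_Ico, Finset.mem_insert, Finset.mem_singleton]
      omega
    rw [e1, Finset.sum_pair (by norm_num)]
    have h0 := B2_split hs m U y 0 (by linarith [hy.1]) (by linarith [hy.2])
    have h1 := B2_split hs m U y 1 (by linarith [hy.1]) (by
      rw [← hLdef]
      linarith [hy.2])
    congr 1
    · rw [Finset.sum_product]
      have h2 : ∑ u ∈ U, α m (u + y) = ∑ u ∈ U, α m (u + y + 0) :=
        Finset.sum_congr rfl fun u _ => by rw [add_zero]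
      rw [h2, h0]
    · rw [Finset.sum_product, h1]
  -- convexity
  have hconv : ∀ y ∈ Finset.Ico (0 : ℤ) L,
      (∑ u ∈ U, (α m (u + y) + α m (u + y + 1))) ^ q ≤
        (TT.card : ℝ) ^ (q - 1) * ∑ t ∈ TT, a t y ^ q := by
    intro y hy
    rw [hS y hy]
    obtain ⟨p, rfl⟩ : ∃ p, q = p + 1 := ⟨q - 1, by omega⟩
    have h := _root_.pow_sum_div_card_le_sum_pow (s := TT) (f := fun t => a t y)
      (fun t _ => ha0 t y) p
    have hc : 0 < (TT.card : ℝ) ^ p := by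
      refine pow_pos ?_ p
      rw [hcard]
      have : (1 : ℝ) ≤ D := by exact_mod_cast hD
      positivity
    rw [div_le_iff₀ hc] at h
    rw [Nat.add_sub_cancel, mul_comm]
    exact h
  have hne : TT.Nonempty := by
    refine ⟨(0, 0, 0), ?_⟩
    rw [hTT, Finset.mem_product, Finset.mem_product, Finset.mem_Ico, Finset.mem_Ico,
      Finset.mem_Ico]
    refine ⟨⟨by norm_num, by norm_num⟩, ⟨?_, ?_⟩, ?_, ?_⟩ <;> simp only <;> omega
  obtain ⟨t, ht, hmax⟩ := Finset.exists_max_image TT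
    (fun t => ∑ y ∈ Finset.Ico (0 : ℤ) L, a t y ^ q) hne
  obtain ⟨U', hU', hc', hle⟩ := B2_piece hs hq m U t.1 t.2.2 t.2.1
  refine ⟨t.2.2, U', hU', hc', hU.trans ?_⟩
  have hV0 : 0 ≤ ∑ y ∈ Finset.Ico (0 : ℤ) L, a t y ^ q :=
    Finset.sum_nonneg fun y _ => pow_nonneg (ha0 t y) q
  calc ∑ y ∈ Finset.Ico (0 : ℤ) L, (∑ u ∈ U, (α m (u + y) + α m (u + y + 1))) ^ q
      ≤ ∑ y ∈ Finset.Ico (0 : ℤ) L, (TT.card : ℝ) ^ (q - 1) * ∑ t ∈ TT, a t y ^ q :=
        Finset.sum_le_sum hconv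
    _ = (TT.card : ℝ) ^ (q - 1) * ∑ t ∈ TT, ∑ y ∈ Finset.Ico (0 : ℤ) L, a t y ^ q := by
        rw [← Finset.mul_sum, Finset.sum_comm]
    _ ≤ (TT.card : ℝ) ^ (q - 1) * (TT.card * ∑ y ∈ Finset.Ico (0 : ℤ) L, a t y ^ q) := by
        refine mul_le_mul_of_nonneg_left ?_ (by positivity)
        have h := Finset.sum_le_card_nsmul TT (fun t => ∑ y ∈ Finset.Ico (0 : ℤ) L, a t y ^ q) _
          hmax
        rwa [nsmul_eq_mul] at h
    _ = (TT.card : ℝ) ^ q * ∑ y ∈ Finset.Ico (0 : ℤ) L, a t y ^ q := by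
        rw [← mul_assoc, ← pow_succ]
        congr 2
        omega
    _ ≤ (16 * ((D : ℝ) + 1) ^ 2) ^ q * ∑ y ∈ Finset.Ico (0 : ℤ) L, a t y ^ q := by
        refine mul_le_mul_of_nonneg_right ?_ hV0
        refine pow_le_pow_left₀ (Nat.cast_nonneg _) ?_ q
        rw [hcard]
        have : (0 : ℝ) ≤ D := Nat.cast_nonneg D
        nlinarith
    _ ≤ _ := mul_le_mul_of_nonneg_left hle (by positivity)

theorem cutF_le {B D : ℕ} {α : ℕ → ℤ → ℝ} (hs : Sys B D α) (m : ℕ) (k x : ℤ) :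
    0 ≤ cutF α B m k x ∧ cutF α B m k x ≤ M α m := by
  refine ⟨B2_nonneg hs m k x, ?_⟩
  unfold cutF
  split_ifs
  · exact le_M hs m _
  · exact (M_pos hs m).le

/-- The `q`-th powers of one unit interval are part of `Z`.  PROOF.  The points `k B^m + a` are
distinct; outside `dom` the function is `0`. -/
theorem sum_cutF_le {B D : ℕ} {α : ℕ → ℤ → ℝ} (hs : Sys B D α) {q : ℕ} (hq : 1 ≤ q) (m : ℕ)
    (k : ℤ) (A : Finset ℕ) (hA : A ⊆ range (B ^ m)) :
    ∑ a ∈ A, cutF α B m k (a : ℤ) ^ q ≤ Z B D α q m := by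
  classical
  have h1 : ∑ a ∈ A, cutF α B m k (a : ℤ) ^ q =
      ∑ z ∈ A.image (fun a : ℕ => k * (B : ℤ) ^ m + (a : ℤ)), α m z ^ q := by
    rw [Finset.sum_image (fun a _ b _ h => by
      have h' : k * (B : ℤ) ^ m + (a : ℤ) = k * (B : ℤ) ^ m + (b : ℤ) := h
      have h2 : (a : ℤ) = (b : ℤ) := by linarith
      exact_mod_cast h2)]
    refine Finset.sum_congr rfl fun a ha => ?_
    have h2 := Finset.mem_range.1 (hA ha)
    unfold cutF
    rw [if_pos]
    refine ⟨Int.natCast_nonneg a, ?_⟩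
    exact_mod_cast h2
  rw [h1]
  unfold Z
  refine B2_sum_le _ _ (fun z => α m z ^ q) (fun z => pow_nonneg (hs.nonneg m z) q)
    fun z _ hz => ?_
  show α m z ^ q = 0
  rw [hs.supp m z hz, zero_pow (by omega)]

end Pool.Agent.Lib.H21X
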