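import Pool.Agent.Lib.H21X.Defs

/-!
# Chunk B3: dyadic level sets

Pure finite combinatorics (no systems).  `F : ℤ → ℝ` is supported on `[0, L)`, `0 ≤ F ≤ X`,
`U ⊆ [0, L)` and `N` is the sum over `y ∈ (-L, L)` of the `q`-th powers of
`∑_{u ∈ U} F (u + y)`.

PROOF.  For `j < J` put `c_j = X 2^(-j)` and `A_j = {a < L : c_j / 2 < F a ≤ c_j}`.  For every
integer `x`: `F x ≤ ∑_{j < J} c_j 1[x ∈ A_j] + X 2^(-J)` (if `F x > X 2^(-J)` take the `j` with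
`c_j/2 < F x ≤ c_j`; outside `[0, L)` `F x = 0`).  With `r_j(y) = #{u ∈ U : u + y ∈ A_j}`:
`∑_u F (u + y) ≤ ∑_j c_j r_j(y) + #U X 2^(-J)`.  Now `(a + b)^q ≤ 2^(q-1) (a^q + b^q)`
(`add_pow_le`) and there are at most `2 L` values of `y`, so the second term contributes at most
`2^(q-1) 2 L (#U X 2^(-J))^q ≤ N/2` by `hJ`; hence
`N / 2 ≤ 2^(q-1) ∑_y (∑_{j<J} c_j r_j(y))^q ≤ 2^(q-1) J^(q-1) ∑_j c_j^q ∑_y r_j(y)^q`
(`inner` convexity: `Finset.pow_sum_le` / `Real.pow_sum_div_card_le_sum_pow`), so some `j` has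
`N ≤ 2^q J^q c_j^q ∑_y r_j(y)^q`.  Take `lam = c_j`, `A = A_j`.
-/

namespace Pool.Agent.Lib.H21X

open Finset Filter

private noncomputable def lvA (F : ℤ → ℝ) (L : ℕ) (X : ℝ) (j : ℕ) : Finset ℕ :=
  (range L).filter (fun a => X / 2 ^ j / 2 < F (a : ℤ) ∧ F (a : ℤ) ≤ X / 2 ^ j)

private noncomputable def lvI (F : ℤ → ℝ) (L : ℕ) (X : ℝ) (j : ℕ) (x : ℤ) : ℝ :=
  if ∃ a ∈ lvA F L X j, x = (a : ℤ) then 1 else 0

private lemma lvI_nonneg (F : ℤ → ℝ) (L : ℕ) (X : ℝ) (j : ℕ) (x : ℤ) : 0 ≤ lvI F L X j x := by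
  rw [lvI]
  split_ifs
  · exact zero_le_one
  · exact le_rfl

private lemma lv_point (F : ℤ → ℝ) (L : ℕ) (X : ℝ) (hX : 0 < X) (hF1 : ∀ x, F x ≤ X)
    (hF2 : ∀ x, ¬ (0 ≤ x ∧ x < (L : ℤ)) → F x = 0) (J : ℕ) (x : ℤ) :
    F x ≤ ∑ j ∈ range J, X / 2 ^ j * lvI F L X j x + X / 2 ^ J := by
  have hpos : ∀ k : ℕ, 0 < X / 2 ^ k := fun k => by positivity
  have hsum : 0 ≤ ∑ j ∈ range J, X / 2 ^ j * lvI F L X j x :=
    sum_nonneg fun j _ => mul_nonneg (hpos j).le (lvI_nonneg F L X j x)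
  rcases le_or_gt (F x) (X / 2 ^ J) with h | h
  · linarith
  · have hex : ∃ k : ℕ, X / 2 ^ k < F x := ⟨J, h⟩
    classical
    have hk := Nat.find_spec hex
    have hkJ : Nat.find hex ≤ J := Nat.find_min' hex h
    have hmin := fun (m : ℕ) (hm : m < Nat.find hex) => Nat.find_min hex hm
    set k := Nat.find hex with hkdef
    have hk0 : k ≠ 0 := by
      intro h0
      rw [h0] at hk
      have h1 := hF1 x
      rw [pow_zero, div_one] at hk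
      linarith
    obtain ⟨j, hj⟩ := Nat.exists_eq_succ_of_ne_zero hk0
    have hjJ : j < J := by omega
    have hle : F x ≤ X / 2 ^ j := by
      have := hmin j (by omega)
      push Not at this
      exact this
    have hlt : X / 2 ^ j / 2 < F x := by
      rw [hj, Nat.succ_eq_add_one, pow_succ] at hk
      rw [div_div]
      exact hk
    have hx : 0 ≤ x ∧ x < (L : ℤ) := by
      by_contra hx
      have h1 := hF2 x hx
      have h2 := hpos J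
      linarith
    have hI : lvI F L X j x = 1 := by
      rw [lvI, if_pos]
      refine ⟨x.toNat, ?_, ?_⟩
      · rw [lvA, mem_filter, mem_range]
        have hxx : ((x.toNat : ℕ) : ℤ) = x := Int.toNat_of_nonneg hx.1
        rw [hxx]
        refine ⟨?_, hlt, hle⟩
        omega
      · exact (Int.toNat_of_nonneg hx.1).symm
    have hterm : X / 2 ^ j * lvI F L X j x ≤ ∑ j ∈ range J, X / 2 ^ j * lvI F L X j x :=
      single_le_sum (f := fun j => X / 2 ^ j * lvI F L X j x)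
        (fun i _ => mul_nonneg (hpos i).le (lvI_nonneg F L X i x)) (mem_range.mpr hjJ)
    rw [hI, mul_one] at hterm
    have h2 := hpos J
    linarith

private lemma lv_sumI (F : ℤ → ℝ) (L : ℕ) (X : ℝ) (U : Finset ℕ) (j : ℕ) (y : ℤ) :
    ∑ u ∈ U, lvI F L X j ((u : ℤ) + y) = (rr U (lvA F L X j) y : ℝ) := by
  classical
  rw [rr, card_filter, Nat.cast_sum]
  refine sum_congr rfl fun u _ => ?_
  rw [lvI]
  split_ifs <;> simp

private lemma inner_pow_helper (J q' : ℕ) (f : ℕ → ℝ) (hf : ∀ j, 0 ≤ f j) :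
    (∑ j ∈ range J, f j) ^ (q' + 1) ≤ (J : ℝ) ^ q' * ∑ j ∈ range J, f j ^ (q' + 1) := by
  rcases Nat.eq_zero_or_pos J with rfl | hJ
  · simp
  · have h := pow_sum_div_card_le_sum_pow (s := range J) (f := f) (fun j _ => hf j) q'
    rw [card_range, div_le_iff₀ (by positivity)] at h
    rw [mul_comm]
    exact h

theorem levels (F : ℤ → ℝ) (L : ℕ) (X : ℝ) (hX : 0 < X) (hF0 : ∀ x, 0 ≤ F x)
    (hF1 : ∀ x, F x ≤ X) (hF2 : ∀ x, ¬ (0 ≤ x ∧ x < (L : ℤ)) → F x = 0)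
    (U : Finset ℕ) (q J : ℕ) (hq : 1 ≤ q) (hJ1 : 1 ≤ J)
    (hJ : 2 ^ q * (2 * L) * ((U.card : ℝ) * X / 2 ^ J) ^ q ≤
      ∑ y ∈ Finset.Ioo (-(L : ℤ)) (L : ℤ), (∑ u ∈ U, F ((u : ℤ) + y)) ^ q) :
    ∃ lam > 0, ∃ A ⊆ range L, (∀ a ∈ A, lam / 2 < F (a : ℤ) ∧ F (a : ℤ) ≤ lam) ∧
      ∑ y ∈ Finset.Ioo (-(L : ℤ)) (L : ℤ), (∑ u ∈ U, F ((u : ℤ) + y)) ^ q ≤
        (2 * (J : ℝ)) ^ q * lam ^ q * ∑ y ∈ Finset.Ioo (-(L : ℤ)) (L : ℤ),
          (rr U A y : ℝ) ^ q := by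
  classical
  have hpos : ∀ k : ℕ, 0 < X / 2 ^ k := fun k => by positivity
  set I : Finset ℤ := Finset.Ioo (-(L : ℤ)) (L : ℤ) with hI
  set N : ℝ := ∑ y ∈ I, (∑ u ∈ U, F ((u : ℤ) + y)) ^ q with hN
  set r : ℕ → ℤ → ℝ := fun j y => (rr U (lvA F L X j) y : ℝ) with hr
  have hr0 : ∀ j y, 0 ≤ r j y := fun j y => Nat.cast_nonneg _
  -- pointwise inequality for the sum
  have h1 : ∀ y : ℤ, ∑ u ∈ U, F ((u : ℤ) + y) ≤
      ∑ j ∈ range J, X / 2 ^ j * r j y + (U.card : ℝ) * X / 2 ^ J := by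
    intro y
    calc ∑ u ∈ U, F ((u : ℤ) + y)
        ≤ ∑ u ∈ U, (∑ j ∈ range J, X / 2 ^ j * lvI F L X j ((u : ℤ) + y) + X / 2 ^ J) :=
          sum_le_sum fun u _ => lv_point F L X hX hF1 hF2 J _
      _ = ∑ j ∈ range J, X / 2 ^ j * r j y + (U.card : ℝ) * X / 2 ^ J := by
          rw [sum_add_distrib, sum_const, nsmul_eq_mul, sum_comm]
          congr 1
          · refine sum_congr rfl fun j _ => ?_
            rw [← mul_sum, lv_sumI]
          · ring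
  have h1' : ∀ y : ℤ, (∑ u ∈ U, F ((u : ℤ) + y)) ^ q ≤
      2 ^ (q - 1) * ((∑ j ∈ range J, X / 2 ^ j * r j y) ^ q +
        ((U.card : ℝ) * X / 2 ^ J) ^ q) := by
    intro y
    have ha : 0 ≤ ∑ j ∈ range J, X / 2 ^ j * r j y :=
      sum_nonneg fun j _ => mul_nonneg (hpos j).le (hr0 j y)
    have hb : 0 ≤ (U.card : ℝ) * X / 2 ^ J := by positivity
    refine (pow_le_pow_left₀ (sum_nonneg fun u _ => hF0 _) (h1 y) q).trans ?_
    exact add_pow_le ha hb q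
  -- convexity
  have h2 : ∀ y : ℤ, (∑ j ∈ range J, X / 2 ^ j * r j y) ^ q ≤
      (J : ℝ) ^ (q - 1) * ∑ j ∈ range J, (X / 2 ^ j * r j y) ^ q := by
    intro y
    obtain ⟨q', rfl⟩ : ∃ q', q = q' + 1 := ⟨q - 1, by omega⟩
    have hJ0 : (0 : ℝ) < (J : ℝ) := by exact_mod_cast hJ1
    have h3 := inner_pow_helper J q' (fun j => X / 2 ^ j * r j y)
      (fun j => mul_nonneg (hpos j).le (hr0 j y))
    rw [Nat.add_sub_cancel]
    exact h3
  have hcard : ((I.card : ℕ) : ℝ) ≤ 2 * L := by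
    have : I.card ≤ 2 * L := by
      rw [hI, Int.card_Ioo]
      omega
    exact_mod_cast this
  set Sg : ℕ → ℝ := fun j => (X / 2 ^ j) ^ q * ∑ y ∈ I, r j y ^ q with hSg
  have h2q : (2 : ℝ) ^ q = 2 * 2 ^ (q - 1) := by
    obtain ⟨q', rfl⟩ : ∃ q', q = q' + 1 := ⟨q - 1, by omega⟩
    rw [Nat.add_sub_cancel, pow_succ]; ring
  have hJq : (J : ℝ) ^ q = J * (J : ℝ) ^ (q - 1) := by
    obtain ⟨q', rfl⟩ : ∃ q', q = q' + 1 := ⟨q - 1, by omega⟩
    rw [Nat.add_sub_cancel, pow_succ]; ring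
  have h4 : N ≤ 2 ^ q * ((J : ℝ) ^ (q - 1) * ∑ j ∈ range J, Sg j) := by
    have h5 : N ≤ 2 ^ (q - 1) * ∑ y ∈ I, (∑ j ∈ range J, X / 2 ^ j * r j y) ^ q +
        2 ^ (q - 1) * ((I.card : ℝ) * ((U.card : ℝ) * X / 2 ^ J) ^ q) := by
      calc N ≤ ∑ y ∈ I, 2 ^ (q - 1) * ((∑ j ∈ range J, X / 2 ^ j * r j y) ^ q +
            ((U.card : ℝ) * X / 2 ^ J) ^ q) := sum_le_sum fun y _ => h1' y
        _ = _ := by
            rw [← mul_sum, sum_add_distrib, sum_const, nsmul_eq_mul, mul_add]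
    have h6 : (I.card : ℝ) * ((U.card : ℝ) * X / 2 ^ J) ^ q ≤
        2 * L * ((U.card : ℝ) * X / 2 ^ J) ^ q :=
      mul_le_mul_of_nonneg_right hcard (by positivity)
    have h7 : 2 ^ (q - 1) * ((I.card : ℝ) * ((U.card : ℝ) * X / 2 ^ J) ^ q) ≤
        2 ^ (q - 1) * (2 * L * ((U.card : ℝ) * X / 2 ^ J) ^ q) :=
      mul_le_mul_of_nonneg_left h6 (by positivity)
    have h8 : ∑ y ∈ I, (∑ j ∈ range J, X / 2 ^ j * r j y) ^ q ≤
        (J : ℝ) ^ (q - 1) * ∑ j ∈ range J, Sg j := by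
      calc ∑ y ∈ I, (∑ j ∈ range J, X / 2 ^ j * r j y) ^ q
          ≤ ∑ y ∈ I, (J : ℝ) ^ (q - 1) * ∑ j ∈ range J, (X / 2 ^ j * r j y) ^ q :=
            sum_le_sum fun y _ => h2 y
        _ = (J : ℝ) ^ (q - 1) * ∑ j ∈ range J, Sg j := by
            rw [← mul_sum, sum_comm]
            congr 1
            refine sum_congr rfl fun j _ => ?_
            rw [hSg]
            simp only [mul_pow]
            rw [mul_sum]
    have h9 : 2 ^ (q - 1) * ∑ y ∈ I, (∑ j ∈ range J, X / 2 ^ j * r j y) ^ q ≤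
        2 ^ (q - 1) * ((J : ℝ) ^ (q - 1) * ∑ j ∈ range J, Sg j) :=
      mul_le_mul_of_nonneg_left h8 (by positivity)
    have h10 : 2 ^ q * (2 * (L : ℝ)) * ((U.card : ℝ) * X / 2 ^ J) ^ q =
        2 * (2 ^ (q - 1) * (2 * L * ((U.card : ℝ) * X / 2 ^ J) ^ q)) := by
      rw [h2q]; ring
    rw [h10] at hJ
    rw [h2q]
    nlinarith
  have h11 : ∃ j ∈ range J, N ≤ (2 * (J : ℝ)) ^ q * Sg j := by
    by_contra hcon
    push Not at hcon
    have hne : (range J).Nonempty := ⟨0, mem_range.mpr (by omega)⟩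
    have h12 : ∑ j ∈ range J, (2 * (J : ℝ)) ^ q * Sg j < ∑ j ∈ range J, N :=
      sum_lt_sum_of_nonempty hne hcon
    rw [← mul_sum, sum_const, card_range, nsmul_eq_mul, mul_pow, hJq] at h12
    have hJ0 : (0 : ℝ) < (J : ℝ) := by exact_mod_cast hJ1
    have h13 : (2 : ℝ) ^ q * (J * (J : ℝ) ^ (q - 1)) * ∑ j ∈ range J, Sg j =
        J * (2 ^ q * ((J : ℝ) ^ (q - 1) * ∑ j ∈ range J, Sg j)) := by ring
    rw [h13] at h12
    have h14 := lt_of_mul_lt_mul_left h12 hJ0.le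
    linarith
  obtain ⟨j, _, hj⟩ := h11
  refine ⟨X / 2 ^ j, hpos j, lvA F L X j, filter_subset _ _, ?_, ?_⟩
  · intro a ha
    rw [lvA, mem_filter] at ha
    exact ha.2
  · rw [mul_assoc]
    exact hj

end Pool.Agent.Lib.H21X
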