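import Pool.Agent.Lib.H21X.Defs

/-!
# Chunk B4: from the `q`-th powers to the additive energy

`r(y) = #{u ∈ U : u + y ∈ A}` for finite sets `U, A` of natural numbers.

PROOF.  `r(y) ≤ #U`, so `∑ r^q ≤ #U^(q-2) ∑ r^2` and `∑ r^q ≤ #U^(q-1) ∑ r`.  `∑_y r(y) ≤ #U #A`
(pairs `(u, a)`, `y = a - u`).  `∑_y r(y)^2` counts the triples `(y, u1, u2)` with
`u1 + y = a1 ∈ A`, `u2 + y = a2 ∈ A`; then `u1 + a2 = u2 + a1`, and `(u1, u2, a2, a1)` is a
quadruple counted by `Finset.addEnergy U A = #{((x1, x2), (y1, y2)) : x1 + y1 = x2 + y2}`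
(`x1 = u1, x2 = u2, y1 = a2, y2 = a1`); the map is injective since `y = a1 - u1`.
-/

namespace Pool.Agent.Lib.H21X

open Finset Filter

private theorem b4_rr_le (U A : Finset ℕ) (y : ℤ) : rr U A y ≤ U.card := by
  unfold rr
  exact Finset.card_filter_le _ _

private theorem b4_sq (U A : Finset ℕ) (Y : Finset ℤ) :
    ∑ y ∈ Y, rr U A y ^ 2 ≤ Finset.addEnergy U A := by
  classical
  have h1 : ∑ y ∈ Y, rr U A y ^ 2 =
      (Y.sigma (fun y => (U.filter (fun u : ℕ => ∃ a ∈ A, (u : ℤ) + y = (a : ℤ))) ×ˢ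
        (U.filter (fun u : ℕ => ∃ a ∈ A, (u : ℤ) + y = (a : ℤ))))).card := by
    rw [Finset.card_sigma]
    refine Finset.sum_congr rfl fun y _ => ?_
    rw [Finset.card_product, pow_two]
    rfl
  rw [h1]
  unfold Finset.addEnergy
  refine Finset.card_le_card_of_injOn
    (fun x => ((x.2.1, x.2.2), (((x.2.2 : ℤ) + x.1).toNat, ((x.2.1 : ℤ) + x.1).toNat))) ?_ ?_
  · rintro ⟨y, u1, u2⟩ hx
    have hx' := Finset.mem_coe.mp hx
    rw [Finset.mem_sigma, Finset.mem_product, Finset.mem_filter, Finset.mem_filter] at hx'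
    obtain ⟨_, ⟨hu1, a1, ha1, e1⟩, hu2, a2, ha2, e2⟩ := hx'
    dsimp only at e1 e2 hu1 hu2
    rw [Finset.mem_coe, Finset.mem_filter, Finset.mem_product, Finset.mem_product,
      Finset.mem_product]
    dsimp only
    rw [e1, e2, Int.toNat_natCast, Int.toNat_natCast]
    refine ⟨⟨⟨hu1, hu2⟩, ha2, ha1⟩, ?_⟩
    omega
  · rintro ⟨y, u1, u2⟩ hx ⟨y', u1', u2'⟩ hx' he
    have h2 := Finset.mem_coe.mp hx
    have h3 := Finset.mem_coe.mp hx'
    rw [Finset.mem_sigma, Finset.mem_product, Finset.mem_filter, Finset.mem_filter] at h2 h3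
    obtain ⟨_, ⟨_, a1, _, e1⟩, _, a2, _, e2⟩ := h2
    obtain ⟨_, ⟨_, b1, _, f1⟩, _, b2, _, f2⟩ := h3
    dsimp only at e1 e2 f1 f2 he
    rw [e1, e2, f1, f2, Int.toNat_natCast, Int.toNat_natCast, Int.toNat_natCast,
      Int.toNat_natCast, Prod.mk.injEq, Prod.mk.injEq, Prod.mk.injEq] at he
    obtain ⟨⟨g1, g2⟩, g3, g4⟩ := he
    subst g1 g2 g3 g4
    have : y = y' := by omega
    subst this
    rfl

private theorem b4_one (U A : Finset ℕ) (Y : Finset ℤ) :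
    ∑ y ∈ Y, rr U A y ≤ U.card * A.card := by
  classical
  have h1 : ∑ y ∈ Y, rr U A y =
      (Y.sigma (fun y => U.filter (fun u : ℕ => ∃ a ∈ A, (u : ℤ) + y = (a : ℤ)))).card := by
    rw [Finset.card_sigma]
    rfl
  rw [h1, ← Finset.card_product]
  refine Finset.card_le_card_of_injOn (fun x => (x.2, ((x.2 : ℤ) + x.1).toNat)) ?_ ?_
  · rintro ⟨y, u⟩ hx
    have hx' := Finset.mem_coe.mp hx
    rw [Finset.mem_sigma, Finset.mem_filter] at hx'
    obtain ⟨_, hu, a, ha, e⟩ := hx'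
    dsimp only at e hu
    rw [Finset.mem_coe, Finset.mem_product]
    dsimp only
    rw [e, Int.toNat_natCast]
    exact ⟨hu, ha⟩
  · rintro ⟨y, u⟩ hx ⟨y', u'⟩ hx' he
    have h2 := Finset.mem_coe.mp hx
    have h3 := Finset.mem_coe.mp hx'
    rw [Finset.mem_sigma, Finset.mem_filter] at h2 h3
    obtain ⟨_, _, a, _, e⟩ := h2
    obtain ⟨_, _, b, _, f⟩ := h3
    dsimp only at e f he
    rw [e, f, Int.toNat_natCast, Int.toNat_natCast, Prod.mk.injEq] at he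
    obtain ⟨g1, g2⟩ := he
    subst g1 g2
    have : y = y' := by omega
    subst this
    rfl

theorem sum_pow_le_energy (U A : Finset ℕ) (q : ℕ) (hq : 2 ≤ q) (Y : Finset ℤ) :
    ∑ y ∈ Y, (rr U A y : ℝ) ^ q ≤
      (U.card : ℝ) ^ (q - 2) * (Finset.addEnergy U A : ℝ) := by
  have h1 : ∀ y ∈ Y, (rr U A y : ℝ) ^ q ≤ (U.card : ℝ) ^ (q - 2) * (rr U A y : ℝ) ^ 2 := by
    intro y _
    have h2 : (rr U A y : ℝ) ≤ U.card := by exact_mod_cast b4_rr_le U A y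
    have h3 : (rr U A y : ℝ) ^ q = (rr U A y : ℝ) ^ (q - 2) * (rr U A y : ℝ) ^ 2 := by
      rw [← pow_add]
      congr 1
      omega
    rw [h3]
    exact mul_le_mul_of_nonneg_right (pow_le_pow_left₀ (Nat.cast_nonneg _) h2 _) (sq_nonneg _)
  refine (Finset.sum_le_sum h1).trans ?_
  rw [← Finset.mul_sum]
  refine mul_le_mul_of_nonneg_left ?_ (pow_nonneg (Nat.cast_nonneg _) _)
  have h4 := b4_sq U A Y
  exact_mod_cast h4

theorem sum_pow_le_card (U A : Finset ℕ) (q : ℕ) (hq : 1 ≤ q) (Y : Finset ℤ) :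
    ∑ y ∈ Y, (rr U A y : ℝ) ^ q ≤
      (U.card : ℝ) ^ q * A.card := by
  have h1 : ∀ y ∈ Y, (rr U A y : ℝ) ^ q ≤ (U.card : ℝ) ^ (q - 1) * (rr U A y : ℝ) := by
    intro y _
    have h2 : (rr U A y : ℝ) ≤ U.card := by exact_mod_cast b4_rr_le U A y
    have h3 : (rr U A y : ℝ) ^ q = (rr U A y : ℝ) ^ (q - 1) * (rr U A y : ℝ) := by
      rw [← pow_succ]
      congr 1
      omega
    rw [h3]
    exact mul_le_mul_of_nonneg_right (pow_le_pow_left₀ (Nat.cast_nonneg _) h2 _)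
      (Nat.cast_nonneg _)
  refine (Finset.sum_le_sum h1).trans ?_
  rw [← Finset.mul_sum]
  have h4 : (∑ y ∈ Y, (rr U A y : ℝ)) ≤ (U.card : ℝ) * A.card := by
    have := b4_one U A Y
    exact_mod_cast this
  have h5 : (U.card : ℝ) ^ q = (U.card : ℝ) ^ (q - 1) * U.card := by
    rw [← pow_succ]
    congr 1
    omega
  rw [h5, mul_assoc]
  exact mul_le_mul_of_nonneg_left h4 (pow_nonneg (Nat.cast_nonneg _) _)

/-- Young's inequality for a set and a function.  PROOF.  By convexity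
`(∑_{u ∈ U} F (u + y))^q ≤ #U^(q-1) ∑_{u ∈ U} F (u + y)^q`; sum over `y ∈ (-L, L)`: for each `u`
the points `u + y` are distinct and `F` vanishes outside `[0, L)`, so
`∑_y F (u + y)^q ≤ ∑_{a < L} F a^q`. -/
theorem young (F : ℤ → ℝ) (L : ℕ) (hF0 : ∀ x, 0 ≤ F x)
    (hF2 : ∀ x, ¬ (0 ≤ x ∧ x < (L : ℤ)) → F x = 0) (U : Finset ℕ) (q : ℕ) (hq : 1 ≤ q) :
    ∑ y ∈ Finset.Ioo (-(L : ℤ)) (L : ℤ), (∑ u ∈ U, F ((u : ℤ) + y)) ^ q ≤
      (U.card : ℝ) ^ q * ∑ a ∈ range L, F (a : ℤ) ^ q := by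
  classical
  obtain ⟨n, rfl⟩ : ∃ n, q = n + 1 := ⟨q - 1, by omega⟩
  have h1 : ∀ y ∈ Finset.Ioo (-(L : ℤ)) (L : ℤ), (∑ u ∈ U, F ((u : ℤ) + y)) ^ (n + 1) ≤
      (U.card : ℝ) ^ n * ∑ u ∈ U, F ((u : ℤ) + y) ^ (n + 1) := by
    intro y _
    exact pow_sum_le_card_mul_sum_pow (fun u _ => hF0 _) n
  refine (Finset.sum_le_sum h1).trans ?_
  rw [← Finset.mul_sum, Finset.sum_comm]
  have h2 : ∀ u ∈ U, ∑ y ∈ Finset.Ioo (-(L : ℤ)) (L : ℤ), F ((u : ℤ) + y) ^ (n + 1) ≤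
      ∑ a ∈ range L, F (a : ℤ) ^ (n + 1) := by
    intro u _
    have h3 : ∑ y ∈ Finset.Ioo (-(L : ℤ)) (L : ℤ), F ((u : ℤ) + y) ^ (n + 1) =
        ∑ y ∈ (Finset.Ioo (-(L : ℤ)) (L : ℤ)).filter
          (fun y => 0 ≤ (u : ℤ) + y ∧ (u : ℤ) + y < L), F ((u : ℤ) + y) ^ (n + 1) := by
      rw [Finset.sum_filter]
      refine Finset.sum_congr rfl fun y _ => ?_
      split_ifs with h
      · rfl
      · rw [hF2 _ h, zero_pow (by omega)]
    rw [h3]
    have h4 : ∑ y ∈ (Finset.Ioo (-(L : ℤ)) (L : ℤ)).filter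
          (fun y => 0 ≤ (u : ℤ) + y ∧ (u : ℤ) + y < L), F ((u : ℤ) + y) ^ (n + 1) =
        ∑ a ∈ ((Finset.Ioo (-(L : ℤ)) (L : ℤ)).filter
          (fun y => 0 ≤ (u : ℤ) + y ∧ (u : ℤ) + y < L)).image (fun y => ((u : ℤ) + y).toNat),
          F (a : ℤ) ^ (n + 1) := by
      rw [Finset.sum_image]
      · refine Finset.sum_congr rfl fun y hy => ?_
        rw [Finset.mem_filter] at hy
        rw [Int.toNat_of_nonneg hy.2.1]
      · intro y hy y' hy' he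
        have k1 := (Finset.mem_filter.mp (Finset.mem_coe.mp hy)).2.1
        have k2 := (Finset.mem_filter.mp (Finset.mem_coe.mp hy')).2.1
        dsimp only at he
        omega
    rw [h4]
    refine Finset.sum_le_sum_of_subset_of_nonneg ?_ (fun a _ _ => pow_nonneg (hF0 _) _)
    intro a ha
    rw [Finset.mem_image] at ha
    obtain ⟨y, hy, rfl⟩ := ha
    rw [Finset.mem_filter] at hy
    rw [Finset.mem_range]
    omega
  have h5 := Finset.sum_le_sum h2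
  rw [Finset.sum_const, nsmul_eq_mul] at h5
  rw [pow_succ, mul_assoc]
  exact mul_le_mul_of_nonneg_left h5 (pow_nonneg (Nat.cast_nonneg _) _)

end Pool.Agent.Lib.H21X
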