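import Pool.Agent.Lib.H21X.B2
import Pool.Agent.Lib.H21X.B3
import Pool.Agent.Lib.H21X.B4

/-!
# Chunk B5: extraction of the pair `(U', A)`

PROOF.  Put `T = 16 (D+1)^2 ≥ 1`, `L = B^m`, `X = M α m > 0`, `Zm = Z B D α q m`, and let `k`,
`U'` be from `localise`; `F = cutF α B m k`; `N = ∑_{y ∈ (-L, L)} (∑_{u ∈ U'} F (u + y))^q`, so
`K #U^q Zm ≤ T^q N` (1).  `levels` applies with this `J`: by `M_pow_le_Z`, `Zm ≥ X^q`, and
`2^q (2 L) (#U' X / 2^J)^q ≤ 2^q 2 L #U^q X^q / 2^(J q) ≤ K #U^q X^q / T^q ≤ N` by `hJ`.  It gives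
`lam`, `A` with `N ≤ (2J)^q lam^q ∑_y rr^q` (2).
(a) `N ≤ #U'^q ∑_{a<L} F^q ≤ #U'^q Zm` (`young`, `sum_cutF_le`), so with (1)
`K #U^q ≤ T^q #U'^q`; since `K ≤ 1`, `K^q ≤ K`, so `K #U ≤ T #U'`; `θ ≤ K / T`.
(b) `sum_pow_le_card`: `K #U^q Zm ≤ T^q (2J)^q lam^q #U'^q #A ≤ (2JT)^q lam^q #U^q #A`, so
`K Zm ≤ (2JT)^q lam^q #A` (`#U > 0`), and `θ = K / (4JT)^q ≤ K / (2JT)^q`.
(c) `sum_pow_le_energy`: `K #U^q Zm ≤ (2JT)^q lam^q #U'^(q-2) E`; with `#U ≥ #U'` and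
`#U' > 0` (from (a)) `K #U'^2 Zm ≤ (2JT)^q lam^q E`; and `Zm ≥ ∑_{a ∈ A} F a^q ≥ (lam/2)^q #A`
(`sum_cutF_le`), so `K #U'^2 #A ≤ (4JT)^q E`.
(d) On `A`: `lam / 2 < F a = α m (k B^m + a) ≤ lam` (since `a < L`).
-/

namespace Pool.Agent.Lib.H21X

open Finset Filter

theorem extract {B D : ℕ} {α : ℕ → ℤ → ℝ} (hs : Sys B D α) {q : ℕ} (hq : 2 ≤ q) (m J : ℕ)
    (K : ℝ) (hK0 : 0 < K) (hK1 : K ≤ 1) (hJ1 : 1 ≤ J)
    (hJ : 2 ^ (q + 1) * (B : ℝ) ^ m * (16 * ((D : ℝ) + 1) ^ 2) ^ q ≤ K * ((2 : ℝ) ^ J) ^ q)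
    (U : Finset ℤ) (hne : U.Nonempty)
    (hU : K * (U.card : ℝ) ^ q * Z B D α q m ≤
      ∑ y ∈ Finset.Ico (0 : ℤ) ((B : ℤ) ^ m), (∑ u ∈ U, (α m (u + y) + α m (u + y + 1))) ^ q) :
    ∃ k : ℤ, ∃ U' ⊆ range (B ^ m), ∃ A ⊆ range (B ^ m), ∃ lam > 0, A.Nonempty ∧
      (∀ a ∈ A, lam / 2 < α m (k * (B : ℤ) ^ m + (a : ℤ)) ∧
        α m (k * (B : ℤ) ^ m + (a : ℤ)) ≤ lam) ∧
      K / (4 * J * (16 * ((D : ℝ) + 1) ^ 2)) ^ q * U.card ≤ U'.card ∧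
      K / (4 * J * (16 * ((D : ℝ) + 1) ^ 2)) ^ q * Z B D α q m ≤ lam ^ q * A.card ∧
      K / (4 * J * (16 * ((D : ℝ) + 1) ^ 2)) ^ q * ((U'.card : ℝ) ^ 2 * A.card) ≤
        (Finset.addEnergy U' A : ℝ) := by
  have hq1 : 1 ≤ q := by omega
  have hq0 : q ≠ 0 := by omega
  obtain ⟨k, U', hU'r, hU'c, hloc⟩ := localise hs hq1 m K U hU
  have hD0 : (0 : ℝ) ≤ (D : ℝ) := Nat.cast_nonneg D
  obtain ⟨T, hT⟩ : ∃ T : ℝ, T = 16 * ((D : ℝ) + 1) ^ 2 := ⟨_, rfl⟩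
  have hT1 : 1 ≤ T := by
    rw [hT]
    nlinarith [sq_nonneg (D : ℝ)]
  have hT0 : 0 < T := by linarith
  rw [← hT] at hloc hJ ⊢
  obtain ⟨Zm, hZm⟩ : ∃ Zm : ℝ, Zm = Z B D α q m := ⟨_, rfl⟩
  have hZ0 : 0 < Zm := by
    rw [hZm]
    exact Z_pos hs q m
  have hcast : (((B ^ m : ℕ) : ℕ) : ℤ) = (B : ℤ) ^ m := Nat.cast_pow B m
  have hcastR : (((B ^ m : ℕ) : ℕ) : ℝ) = (B : ℝ) ^ m := Nat.cast_pow B m
  have hF0 : ∀ x, 0 ≤ cutF α B m k x := fun x => (cutF_le hs m k x).1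
  have hF1 : ∀ x, cutF α B m k x ≤ M α m := fun x => (cutF_le hs m k x).2
  have hF2 : ∀ x, ¬ (0 ≤ x ∧ x < ((B ^ m : ℕ) : ℤ)) → cutF α B m k x = 0 := by
    intro x hx
    rw [hcast] at hx
    unfold cutF
    exact if_neg hx
  have hX : 0 < M α m := M_pos hs m
  have hXZ : M α m ^ q ≤ Zm := by
    rw [hZm]
    exact M_pow_le_Z hs q m
  rw [← hcast, ← hZm] at hloc
  rw [← hZm]
  obtain ⟨N, hN⟩ : ∃ N : ℝ, N = ∑ y ∈ Finset.Ioo (-((B ^ m : ℕ) : ℤ)) ((B ^ m : ℕ) : ℤ),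
      (∑ u ∈ U', cutF α B m k ((u : ℤ) + y)) ^ q := ⟨_, rfl⟩
  rw [← hN] at hloc
  have hUc : 0 < (U.card : ℝ) := by exact_mod_cast hne.card_pos
  have hU'le : (U'.card : ℝ) ≤ U.card := by exact_mod_cast hU'c
  have hTq : 0 < T ^ q := pow_pos hT0 q
  have hP : (0 : ℝ) < ((2 : ℝ) ^ J) ^ q := by positivity
  have hlev : 2 ^ q * (2 * ((B ^ m : ℕ) : ℝ)) * ((U'.card : ℝ) * M α m / 2 ^ J) ^ q ≤ N := by
    have e1 : 2 ^ q * (2 * ((B ^ m : ℕ) : ℝ)) * ((U'.card : ℝ) * M α m / 2 ^ J) ^ q =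
        (2 ^ (q + 1) * (B : ℝ) ^ m * T ^ q) * ((U'.card : ℝ) ^ q * M α m ^ q) / (((2 : ℝ) ^ J) ^ q * T ^ q) := by
      rw [div_pow, mul_pow, hcastR, pow_succ]
      field_simp
    rw [e1, div_le_iff₀ (by positivity)]
    have hw : (U'.card : ℝ) ^ q * M α m ^ q ≤ (U.card : ℝ) ^ q * Zm :=
      mul_le_mul (pow_le_pow_left₀ (Nat.cast_nonneg _) hU'le q) hXZ (by positivity) (by positivity)
    calc (2 ^ (q + 1) * (B : ℝ) ^ m * T ^ q) * ((U'.card : ℝ) ^ q * M α m ^ q)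
        ≤ (K * ((2 : ℝ) ^ J) ^ q) * ((U'.card : ℝ) ^ q * M α m ^ q) :=
          mul_le_mul_of_nonneg_right hJ (by positivity)
      _ ≤ (K * ((2 : ℝ) ^ J) ^ q) * ((U.card : ℝ) ^ q * Zm) :=
          mul_le_mul_of_nonneg_left hw (by positivity)
      _ = (K * (U.card : ℝ) ^ q * Zm) * ((2 : ℝ) ^ J) ^ q := by ring
      _ ≤ (T ^ q * N) * ((2 : ℝ) ^ J) ^ q := mul_le_mul_of_nonneg_right hloc hP.le
      _ = N * (((2 : ℝ) ^ J) ^ q * T ^ q) := by ring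
  rw [hN] at hlev
  obtain ⟨lam, hlam, A, hAr, hA, hNle⟩ := levels (cutF α B m k) (B ^ m) (M α m) hX hF0 hF1 hF2 U' q J hq1 hJ1 hlev
  rw [← hN] at hNle
  obtain ⟨Y, hY⟩ : ∃ Y : Finset ℤ, Y = Finset.Ioo (-((B ^ m : ℕ) : ℤ)) ((B ^ m : ℕ) : ℤ) := ⟨_, rfl⟩
  rw [← hY] at hNle
  have hJ0 : (0 : ℝ) < (J : ℝ) := by exact_mod_cast hJ1
  have hJ1' : (1 : ℝ) ≤ (J : ℝ) := by exact_mod_cast hJ1
  have h4 : 0 < 4 * (J : ℝ) * T := by positivity
  have h4q : 0 < (4 * (J : ℝ) * T) ^ q := pow_pos h4 q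
  have hlq : 0 < lam ^ q := pow_pos hlam q
  -- (b)
  have hb0 : K * Zm ≤ (2 * (J : ℝ) * T) ^ q * (lam ^ q * A.card) := by
    have e1 := sum_pow_le_card U' A q hq1 Y
    have e2 : K * (U.card : ℝ) ^ q * Zm ≤ T ^ q * ((2 * (J : ℝ)) ^ q * lam ^ q * ((U.card : ℝ) ^ q * A.card)) := by
      refine hloc.trans (mul_le_mul_of_nonneg_left ?_ hTq.le)
      refine hNle.trans (mul_le_mul_of_nonneg_left ?_ (by positivity))
      refine e1.trans (mul_le_mul_of_nonneg_right ?_ (Nat.cast_nonneg _))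
      exact pow_le_pow_left₀ (Nat.cast_nonneg _) hU'le q
    have e3 : (U.card : ℝ) ^ q * (K * Zm) ≤ (U.card : ℝ) ^ q * ((2 * (J : ℝ) * T) ^ q * (lam ^ q * A.card)) := by
      calc (U.card : ℝ) ^ q * (K * Zm) = K * (U.card : ℝ) ^ q * Zm := by ring
        _ ≤ T ^ q * ((2 * (J : ℝ)) ^ q * lam ^ q * ((U.card : ℝ) ^ q * A.card)) := e2
        _ = (U.card : ℝ) ^ q * ((2 * (J : ℝ) * T) ^ q * (lam ^ q * A.card)) := by
            rw [mul_pow (2 * (J : ℝ)) T q]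
            ring
    exact le_of_mul_le_mul_left e3 (pow_pos hUc q)
  have h24 : (2 * (J : ℝ) * T) ^ q ≤ (4 * (J : ℝ) * T) ^ q :=
    pow_le_pow_left₀ (by positivity) (by nlinarith [mul_pos hJ0 hT0]) q
  have hb : K / (4 * (J : ℝ) * T) ^ q * Zm ≤ lam ^ q * A.card := by
    rw [div_mul_eq_mul_div, div_le_iff₀ h4q]
    refine hb0.trans ?_
    rw [mul_comm (lam ^ q * (A.card : ℝ))]
    exact mul_le_mul_of_nonneg_right h24 (by positivity)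
  have hAne : A.Nonempty := by
    rw [Finset.nonempty_iff_ne_empty]
    intro h0
    rw [h0, Finset.card_empty, Nat.cast_zero, mul_zero] at hb
    have : 0 < K / (4 * (J : ℝ) * T) ^ q * Zm := by positivity
    linarith
  -- (a)
  have ha1 : K * (U.card : ℝ) ^ q ≤ T ^ q * (U'.card : ℝ) ^ q := by
    have e1 := young (cutF α B m k) (B ^ m) hF0 hF2 U' q hq1
    rw [← hN] at e1
    have e2 := sum_cutF_le hs hq1 m k (range (B ^ m)) (Finset.Subset.refl _)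
    rw [← hZm] at e2
    have e3 : K * (U.card : ℝ) ^ q * Zm ≤ T ^ q * (U'.card : ℝ) ^ q * Zm := by
      calc K * (U.card : ℝ) ^ q * Zm ≤ T ^ q * N := hloc
        _ ≤ T ^ q * ((U'.card : ℝ) ^ q * Zm) :=
            mul_le_mul_of_nonneg_left (e1.trans (mul_le_mul_of_nonneg_left e2 (by positivity))) hTq.le
        _ = T ^ q * (U'.card : ℝ) ^ q * Zm := by ring
    exact le_of_mul_le_mul_right e3 hZ0
  have ha2 : K * (U.card : ℝ) ≤ T * U'.card := by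
    have e1 : K ^ q ≤ K := pow_le_of_le_one hK0.le hK1 hq0
    have e2 : (K * (U.card : ℝ)) ^ q ≤ (T * U'.card) ^ q := by
      rw [mul_pow, mul_pow]
      exact (mul_le_mul_of_nonneg_right e1 (by positivity)).trans ha1
    exact (pow_le_pow_iff_left₀ (by positivity) (by positivity) hq0).1 e2
  have hU'0 : 0 < (U'.card : ℝ) := by
    have : 0 < T * (U'.card : ℝ) := lt_of_lt_of_le (mul_pos hK0 hUc) ha2
    exact pos_of_mul_pos_right this hT0.le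
  have h4T : T ≤ (4 * (J : ℝ) * T) ^ q := by
    have e1 : T ≤ 4 * (J : ℝ) * T := by nlinarith
    exact e1.trans (le_self_pow₀ (hT1.trans e1) hq0)
  refine ⟨k, U', hU'r, A, hAr, lam, hlam, hAne, ?_, ?_, hb, ?_⟩
  · intro a haA
    have h1 := hA a haA
    have h2 : a < B ^ m := Finset.mem_range.1 (hAr haA)
    have h3 : cutF α B m k (a : ℤ) = α m (k * (B : ℤ) ^ m + (a : ℤ)) := by
      unfold cutF
      refine if_pos ⟨Int.natCast_nonneg a, ?_⟩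
      rw [← hcast]
      exact_mod_cast h2
    rw [h3] at h1
    exact h1
  · rw [div_mul_eq_mul_div, div_le_iff₀ h4q]
    refine ha2.trans ?_
    rw [mul_comm]
    exact mul_le_mul_of_nonneg_left h4T hU'0.le
  · rw [div_mul_eq_mul_div, div_le_iff₀ h4q]
    have e1 := sum_pow_le_energy U' A q hq Y
    have e0 : 0 ≤ (Finset.addEnergy U' A : ℝ) := Nat.cast_nonneg _
    have e2 : K * (U'.card : ℝ) ^ q * Zm ≤
        T ^ q * ((2 * (J : ℝ)) ^ q * lam ^ q * ((U'.card : ℝ) ^ (q - 2) * (Finset.addEnergy U' A : ℝ))) := by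
      calc K * (U'.card : ℝ) ^ q * Zm ≤ K * (U.card : ℝ) ^ q * Zm := by
            refine mul_le_mul_of_nonneg_right (mul_le_mul_of_nonneg_left ?_ hK0.le) hZ0.le
            exact pow_le_pow_left₀ (Nat.cast_nonneg _) hU'le q
        _ ≤ T ^ q * N := hloc
        _ ≤ _ := mul_le_mul_of_nonneg_left (hNle.trans (mul_le_mul_of_nonneg_left e1 (by positivity))) hTq.le
    have e3 : (U'.card : ℝ) ^ q = (U'.card : ℝ) ^ (q - 2) * (U'.card : ℝ) ^ 2 := by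
      rw [← pow_add]
      congr 1
      omega
    have e4 : K * (U'.card : ℝ) ^ 2 * Zm ≤ (2 * (J : ℝ) * T) ^ q * lam ^ q * (Finset.addEnergy U' A : ℝ) := by
      have e5 : (U'.card : ℝ) ^ (q - 2) * (K * (U'.card : ℝ) ^ 2 * Zm) ≤
          (U'.card : ℝ) ^ (q - 2) * ((2 * (J : ℝ) * T) ^ q * lam ^ q * (Finset.addEnergy U' A : ℝ)) := by
        calc (U'.card : ℝ) ^ (q - 2) * (K * (U'.card : ℝ) ^ 2 * Zm) = K * (U'.card : ℝ) ^ q * Zm := by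
              rw [e3]
              ring
          _ ≤ _ := e2
          _ = (U'.card : ℝ) ^ (q - 2) * ((2 * (J : ℝ) * T) ^ q * lam ^ q * (Finset.addEnergy U' A : ℝ)) := by
              rw [mul_pow (2 * (J : ℝ)) T q]
              ring
      exact le_of_mul_le_mul_left e5 (pow_pos hU'0 _)
    have e6 : (lam / 2) ^ q * A.card ≤ Zm := by
      have e7 := sum_cutF_le hs hq1 m k A hAr
      rw [← hZm] at e7
      refine le_trans ?_ e7
      calc (lam / 2) ^ q * A.card = ∑ a ∈ A, (lam / 2) ^ q := by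
            rw [Finset.sum_const, nsmul_eq_mul, mul_comm]
        _ ≤ ∑ a ∈ A, cutF α B m k (a : ℤ) ^ q := by
            refine Finset.sum_le_sum fun a ha => ?_
            exact pow_le_pow_left₀ (by positivity) (hA a ha).1.le q
    have e8 : lam ^ q * (K * ((U'.card : ℝ) ^ 2 * A.card)) ≤
        lam ^ q * ((Finset.addEnergy U' A : ℝ) * (4 * (J : ℝ) * T) ^ q) := by
      have h2q : (0 : ℝ) < 2 ^ q := by positivity
      calc lam ^ q * (K * ((U'.card : ℝ) ^ 2 * A.card))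
          = 2 ^ q * (K * (U'.card : ℝ) ^ 2 * ((lam / 2) ^ q * A.card)) := by
            rw [div_pow]
            field_simp
        _ ≤ 2 ^ q * (K * (U'.card : ℝ) ^ 2 * Zm) :=
            mul_le_mul_of_nonneg_left (mul_le_mul_of_nonneg_left e6 (by positivity)) h2q.le
        _ ≤ 2 ^ q * ((2 * (J : ℝ) * T) ^ q * lam ^ q * (Finset.addEnergy U' A : ℝ)) :=
            mul_le_mul_of_nonneg_left e4 h2q.le
        _ = lam ^ q * ((Finset.addEnergy U' A : ℝ) * (4 * (J : ℝ) * T) ^ q) := by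
            have : (4 * (J : ℝ) * T) ^ q = 2 ^ q * (2 * (J : ℝ) * T) ^ q := by
              rw [← mul_pow]
              congr 1
              ring
            rw [this]
            ring
    exact le_of_mul_le_mul_left e8 hlq

end Pool.Agent.Lib.H21X
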