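import Pool.Agent.Lib.H21X.Defs

/-!
# Chunk E2: separation for irrational slopes

PROOF.  Suppose that for all `n ≥ n0` there are integers `(a_n, c_n)`, `0 < |a_n| < B^n`,
`|c_n + t a_n| < B^(-(n+2))`.  Then for `n ≥ n0`
`|a_n c_(n+1) - a_(n+1) c_n| = |a_n (c_(n+1) + t a_(n+1)) - a_(n+1) (c_n + t a_n)|
 < B^n B^(-(n+3)) + B^(n+1) B^(-(n+2)) = B^(-3) + B^(-1) < 1` (`B ≥ 2`: `1/8 + 1/2`), so this
integer is `0` and `c_n / a_n = c_(n+1) / a_(n+1)` for all `n ≥ n0`; let `s` be the common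
rational value.  Then `|s + t| = |c_n + t a_n| / |a_n| < B^(-(n+2))` for all `n ≥ n0`, so
`t = - s` is rational, a contradiction.  Hence for infinitely many `n` all `(a, c)` with
`0 < |a| < B^n` satisfy `|c + t a| ≥ B^(-(n+2))`.  For `a = 0`, `c ≠ 0`: `|c| ≥ 1`.
-/

namespace Pool.Agent.Lib.H21X

open Finset Filter

theorem irr_sep (B : ℕ) (hB : 2 ≤ B) (t : ℝ) (ht : Irrational t) :
    ∃ᶠ n : ℕ in atTop, ∀ a c : ℤ, |a| < (B : ℤ) ^ n → (a ≠ 0 ∨ c ≠ 0) →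
      ((B : ℝ) ^ (n + 2))⁻¹ ≤ |(c : ℝ) + t * a| := by
  by_contra hcon
  rw [Filter.not_frequently] at hcon
  obtain ⟨n0, hn0⟩ := Filter.eventually_atTop.1 hcon
  have hB2 : (2 : ℝ) ≤ B := by exact_mod_cast hB
  have hB0 : (0 : ℝ) < B := by linarith
  have key : ∀ n, ∃ a c : ℤ, n0 ≤ n → (|a| < (B : ℤ) ^ n ∧ a ≠ 0 ∧
      |(c : ℝ) + t * a| < ((B : ℝ) ^ (n + 2))⁻¹) := by
    intro n
    by_cases hn : n0 ≤ n
    · have h := hn0 n hn
      push Not at h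
      obtain ⟨a, c, h1, h2, h3⟩ := h
      refine ⟨a, c, fun _ => ⟨h1, ?_, h3⟩⟩
      intro ha
      rcases h2 with h2 | h2
      · exact h2 ha
      · rw [ha, Int.cast_zero, mul_zero, add_zero] at h3
        have h4 : (1 : ℝ) ≤ |(c : ℝ)| := by
          have : (1 : ℤ) ≤ |c| := Int.one_le_abs h2
          exact_mod_cast this
        have h5 : ((B : ℝ) ^ (n + 2))⁻¹ ≤ 1 := by
          apply inv_le_one_of_one_le₀
          exact one_le_pow₀ (by linarith)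
        linarith
    · exact ⟨0, 0, fun h => absurd h hn⟩
  choose a c hac using key
  have hcross : ∀ n, n0 ≤ n → a n * c (n + 1) = a (n + 1) * c n := by
    intro n hn
    obtain ⟨h1, h2, h3⟩ := hac n hn
    obtain ⟨h4, h5, h6⟩ := hac (n + 1) (by omega)
    have e : ((a n * c (n + 1) - a (n + 1) * c n : ℤ) : ℝ) =
        a n * ((c (n + 1) : ℝ) + t * a (n + 1)) - a (n + 1) * ((c n : ℝ) + t * a n) := by
      push_cast; ring
    have h1' : |(a n : ℝ)| < (B : ℝ) ^ n := by exact_mod_cast h1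
    have h4' : |(a (n + 1) : ℝ)| < (B : ℝ) ^ (n + 1) := by exact_mod_cast h4
    have hb1 : |(a n : ℝ)| * |(c (n + 1) : ℝ) + t * a (n + 1)| ≤
        (B : ℝ) ^ n * ((B : ℝ) ^ (n + 1 + 2))⁻¹ :=
      mul_le_mul h1'.le h6.le (abs_nonneg _) (by positivity)
    have hb2 : |(a (n + 1) : ℝ)| * |(c n : ℝ) + t * a n| ≤
        (B : ℝ) ^ (n + 1) * ((B : ℝ) ^ (n + 2))⁻¹ :=
      mul_le_mul h4'.le h3.le (abs_nonneg _) (by positivity)
    have hc1 : (B : ℝ) ^ n * ((B : ℝ) ^ (n + 1 + 2))⁻¹ = ((B : ℝ) ^ 3)⁻¹ := by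
      have : (B : ℝ) ^ (n + 1 + 2) = (B : ℝ) ^ n * (B : ℝ) ^ 3 := by ring
      rw [this]
      field_simp
    have hc2 : (B : ℝ) ^ (n + 1) * ((B : ℝ) ^ (n + 2))⁻¹ = (B : ℝ)⁻¹ := by
      have : (B : ℝ) ^ (n + 2) = (B : ℝ) ^ (n + 1) * (B : ℝ) := by ring
      rw [this]
      field_simp
    have hd1 : ((B : ℝ) ^ 3)⁻¹ ≤ 1 / 8 := by
      rw [inv_eq_one_div]
      apply one_div_le_one_div_of_le (by norm_num)
      calc (8 : ℝ) = 2 ^ 3 := by norm_num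
        _ ≤ (B : ℝ) ^ 3 := pow_le_pow_left₀ (by norm_num) hB2 3
    have hd2 : (B : ℝ)⁻¹ ≤ 1 / 2 := by
      rw [inv_eq_one_div]
      exact one_div_le_one_div_of_le (by norm_num) hB2
    have hlt : |((a n * c (n + 1) - a (n + 1) * c n : ℤ) : ℝ)| < 1 := by
      rw [e]
      calc |(a n : ℝ) * ((c (n + 1) : ℝ) + t * a (n + 1)) - a (n + 1) * ((c n : ℝ) + t * a n)|
          ≤ |(a n : ℝ) * ((c (n + 1) : ℝ) + t * a (n + 1))| +
            |(a (n + 1) : ℝ) * ((c n : ℝ) + t * a n)| := abs_sub _ _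
        _ = |(a n : ℝ)| * |(c (n + 1) : ℝ) + t * a (n + 1)| +
            |(a (n + 1) : ℝ)| * |(c n : ℝ) + t * a n| := by rw [abs_mul, abs_mul]
        _ < 1 := by linarith
    have hz : |a n * c (n + 1) - a (n + 1) * c n| < 1 := by exact_mod_cast hlt
    have := Int.abs_lt_one_iff.1 hz
    linarith
  have ha0 : a n0 ≠ 0 := (hac n0 le_rfl).2.1
  have hall : ∀ k : ℕ, a n0 * c (n0 + k) = a (n0 + k) * c n0 := by
    intro k
    induction k with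
    | zero => rfl
    | succ k ih =>
      have h1 := hcross (n0 + k) (by omega)
      have h2 : a (n0 + k) ≠ 0 := (hac (n0 + k) (by omega)).2.1
      apply mul_left_cancel₀ h2
      have e : n0 + (k + 1) = n0 + k + 1 := by ring
      rw [e]
      calc a (n0 + k) * (a n0 * c (n0 + k + 1)) = a n0 * (a (n0 + k) * c (n0 + k + 1)) := by ring
        _ = a n0 * (a (n0 + k + 1) * c (n0 + k)) := by rw [h1]
        _ = a (n0 + k + 1) * (a n0 * c (n0 + k)) := by ring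
        _ = a (n0 + k + 1) * (a (n0 + k) * c n0) := by rw [ih]
        _ = a (n0 + k) * (a (n0 + k + 1) * c n0) := by ring
  set s : ℝ := (c n0 : ℝ) / a n0 with hs
  have ha0' : (a n0 : ℝ) ≠ 0 := by exact_mod_cast ha0
  have hsmall : ∀ k : ℕ, |s + t| ≤ ((B : ℝ) ^ (n0 + k + 2))⁻¹ := by
    intro k
    obtain ⟨h1, h2, h3⟩ := hac (n0 + k) (by omega)
    have e1 : (a n0 : ℝ) * c (n0 + k) = a (n0 + k) * c n0 := by exact_mod_cast hall k
    have e2 : (c (n0 + k) : ℝ) = s * a (n0 + k) := by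
      rw [hs]
      field_simp
      linarith
    have e3 : (c (n0 + k) : ℝ) + t * a (n0 + k) = (s + t) * a (n0 + k) := by rw [e2]; ring
    rw [e3, abs_mul] at h3
    have h4 : (1 : ℝ) ≤ |(a (n0 + k) : ℝ)| := by
      have : (1 : ℤ) ≤ |a (n0 + k)| := Int.one_le_abs h2
      exact_mod_cast this
    calc |s + t| = |s + t| * 1 := (mul_one _).symm
      _ ≤ |s + t| * |(a (n0 + k) : ℝ)| := mul_le_mul_of_nonneg_left h4 (abs_nonneg _)
      _ ≤ _ := h3.le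
  have hst : s + t = 0 := by
    by_contra hne
    have hpos : 0 < |s + t| := abs_pos.2 hne
    obtain ⟨k, hk⟩ := exists_pow_lt_of_lt_one hpos (show (1 / 2 : ℝ) < 1 by norm_num)
    have h1 := hsmall k
    have h2 : ((B : ℝ) ^ (n0 + k + 2))⁻¹ ≤ (1 / 2 : ℝ) ^ k := by
      rw [one_div, inv_pow]
      apply inv_anti₀ (by positivity)
      calc (2 : ℝ) ^ k ≤ (B : ℝ) ^ k := pow_le_pow_left₀ (by norm_num) hB2 k
        _ ≤ (B : ℝ) ^ (n0 + k + 2) := pow_le_pow_right₀ (by linarith) (by omega)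
    linarith
  apply ht
  refine ⟨-((c n0 : ℚ) / (a n0 : ℚ)), ?_⟩
  push_cast
  rw [← hs]
  linarith

/-- Distinct pairs of words have positions `κ (j + t i)` at distance `≥ κ B^(-(n+2))`, so the
floors of `B^m (z0 - κ (j + t i))` are distinct as soon as `κ B^(m-n-2) ≥ 1`.  PROOF.  `irr_sep`
with `a = i - i'`, `c = j - j'`, `|i - i'| < B^n`; two reals at distance `≥ 1` have different
floors. -/
theorem floor_inj (B : ℕ) (hB : 2 ≤ B) (t : ℝ) (n m R : ℕ) (κ : ℝ)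
    (hκ : (B : ℝ) ^ 2 ≤ κ * (B : ℝ) ^ R) (hm : n + R ≤ m)
    (hn : ∀ a c : ℤ, |a| < (B : ℤ) ^ n → (a ≠ 0 ∨ c ≠ 0) →
      ((B : ℝ) ^ (n + 2))⁻¹ ≤ |(c : ℝ) + t * a|)
    (z0 : ℝ) (p p' : ℕ × ℕ) (h1 : p.1 < B ^ n) (h1' : p'.1 < B ^ n)
    (hpp : p ≠ p') :
    ⌊(B : ℝ) ^ m * (z0 - κ * (p.2 + t * p.1))⌋ ≠ ⌊(B : ℝ) ^ m * (z0 - κ * (p'.2 + t * p'.1))⌋ := by
  intro hfl
  have hB2 : (2 : ℝ) ≤ B := by exact_mod_cast hB
  have hB0 : (0 : ℝ) < B := by linarith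
  have hκ0 : 0 < κ := by
    by_contra hneg
    push Not at hneg
    have h1 : κ * (B : ℝ) ^ R ≤ 0 := mul_nonpos_of_nonpos_of_nonneg hneg (by positivity)
    have h2 : 0 < (B : ℝ) ^ 2 := by positivity
    linarith
  have hsep := hn ((p'.1 : ℤ) - p.1) ((p'.2 : ℤ) - p.2) (by
    rw [abs_lt]
    have e1 : (p.1 : ℤ) < (B : ℤ) ^ n := by exact_mod_cast h1
    have e2 : (p'.1 : ℤ) < (B : ℤ) ^ n := by exact_mod_cast h1'
    constructor <;> omega) (by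
    by_contra hneg
    push Not at hneg
    apply hpp
    refine Prod.ext ?_ ?_ <;> omega)
  have h3 : |(B : ℝ) ^ m * (z0 - κ * (p.2 + t * p.1)) -
      (B : ℝ) ^ m * (z0 - κ * (p'.2 + t * p'.1))| < 1 := Int.abs_sub_lt_one_of_floor_eq_floor hfl
  have h4 : (B : ℝ) ^ m * (z0 - κ * (p.2 + t * p.1)) -
      (B : ℝ) ^ m * (z0 - κ * (p'.2 + t * p'.1)) =
      (B : ℝ) ^ m * κ * ((((p'.2 : ℤ) - p.2 : ℤ) : ℝ) + t * (((p'.1 : ℤ) - p.1 : ℤ) : ℝ)) := by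
    push_cast; ring
  rw [h4, abs_mul, abs_of_pos (by positivity : (0 : ℝ) < (B : ℝ) ^ m * κ)] at h3
  have h5 : (1 : ℝ) ≤ (B : ℝ) ^ m * κ * ((B : ℝ) ^ (n + 2))⁻¹ := by
    rw [← div_eq_mul_inv, le_div_iff₀ (by positivity), one_mul]
    calc (B : ℝ) ^ (n + 2) = (B : ℝ) ^ n * (B : ℝ) ^ 2 := by ring
      _ ≤ (B : ℝ) ^ n * (κ * (B : ℝ) ^ R) := mul_le_mul_of_nonneg_left hκ (by positivity)
      _ = (B : ℝ) ^ (n + R) * κ := by ring
      _ ≤ (B : ℝ) ^ m * κ :=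
        mul_le_mul_of_nonneg_right (pow_le_pow_right₀ (by linarith) hm) hκ0.le
  have h6 : (B : ℝ) ^ m * κ * ((B : ℝ) ^ (n + 2))⁻¹ ≤ (B : ℝ) ^ m * κ *
      |(((p'.2 : ℤ) - p.2 : ℤ) : ℝ) + t * (((p'.1 : ℤ) - p.1 : ℤ) : ℝ)| :=
    mul_le_mul_of_nonneg_left hsep (by positivity)
  linarith

end Pool.Agent.Lib.H21X
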