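import Pool.Agent.Lib.H21X.F2
import Pool.Agent.Lib.H21X.E2

/-!
# Chunk F3: mode - is a scale system, separation

PROOF.  `sysM`: `supp`: `z / B^n ∈ nb S ⊆ [-D, D)` gives `-D B^n ≤ z < D B^n`.  `exists_pos`:
`nb S` is nonempty, `k ∈ nb S`, `z = k B^n`, `mn_pos`.  `step`: if `z0 / B^n ∉ nb S` then
`(B^m z0 + y) / B^(n+m) = z0 / B^n ∉ nb S`, all values are `0` (take `k = 1`, `u = 0`).  Otherwise
take `P` from `stepH`, `k = #P = mn n z0 ≥ 1` (`mn_pos`), so `am n z0 = 1/k`, enumerate `P`; with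
`s_p = am m (u_p+y) + am m (u_p+y+1) > 0`: `am (n+m) z = 1 / mn (n+m) z ≤ 1 / ∑ (1/s_p)
≤ (1/k^2) ∑ s_p` by Cauchy-Schwarz (`k^2 ≤ (∑ s_p)(∑ 1/s_p)`).
`sepM`: choose `c = (log lam)/2`, `R` with `B^2 ≤ (1/r) B^R`; for `n` from `irr_sep` and so
large that `exp (c n) ≤ c0 lam^n`: if `exp (w n) ≤ am n z0` then `am n z0 > 0`, so
`z0 / B^n ∈ nb S`; `U` = set of the floors `u_p`, `p ∈ P`; they are distinct by `floor_inj`
(`κ = 1/r`, `Cd_lt`), so `#U = #P = mn n z0 = cntG n b1 ≥ c0 lam^n ≥ exp (c n)`.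
`lowM`: for `z = k B^n`, `k ∈ nb S`: `am n z = 1 / mn n z ≥ #A^(-2n)` (`cntG_le`, `mn_mem`).
-/

namespace Pool.Agent.Lib.H21X

open Finset Filter

private theorem f3_div (B : ℕ) (hB : 2 ≤ B) (n m : ℕ) (z0 y : ℤ)
    (hy : y ∈ Finset.Ico (0 : ℤ) ((B : ℤ) ^ m)) :
    ((B : ℤ) ^ m * z0 + y) / (B : ℤ) ^ (n + m) = z0 / (B : ℤ) ^ n := by
  rw [Finset.mem_Ico] at hy
  have hBm : (0 : ℤ) < (B : ℤ) ^ m := by
    have : (0 : ℤ) < B := by exact_mod_cast (by omega : 0 < B)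
    positivity
  rw [Nat.add_comm n m, pow_add, ← Int.ediv_ediv_of_nonneg hBm.le]
  congr 1
  rw [add_comm, Int.add_mul_ediv_left _ _ hBm.ne', Int.ediv_eq_zero_of_lt hy.1 hy.2, zero_add]

/-- The main inequality for one finite set of words. -/
private theorem f3_main (B : ℕ) (hB : 2 ≤ B) (A : Finset ℕ) (hA : A ⊆ range B) (u r : ℝ)
    (hr : 0 < r) (S : Finset ℤ)
    (hpos : ∀ (n : ℕ) (b : ℝ), ⌊b / r⌋ ∈ nb S → 1 ≤ cntG B A u r S n b)
    (n m : ℕ) (z0 : ℤ) (hz0 : z0 / (B : ℤ) ^ n ∈ nb S) :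
    ∃ P ⊆ Cd B A n ×ˢ Cd B A n, P.card = mn B A u r S n z0 ∧
      ∀ y ∈ Finset.Ico (0 : ℤ) ((B : ℤ) ^ m),
        am B A u r S (n + m) ((B : ℤ) ^ m * z0 + y) ≤ am B A u r S n z0 *
          ((1 / (P.card : ℝ)) * ∑ p ∈ P,
            (am B A u r S m (⌊(B : ℝ) ^ m * (z0 - 1 / r * (p.2 + u * p.1))⌋ + y) +
            am B A u r S m (⌊(B : ℝ) ^ m * (z0 - 1 / r * (p.2 + u * p.1))⌋ + y + 1))) := by
  obtain ⟨P, hPsub, hPcard, hP⟩ := stepH B hB A hA u r hr S hpos n m z0 hz0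
  refine ⟨P, hPsub, hPcard, fun y hy => ?_⟩
  obtain ⟨h1, h2⟩ := hP y hy
  set s : ℕ × ℕ → ℝ := fun p =>
    am B A u r S m (⌊(B : ℝ) ^ m * (z0 - 1 / r * (p.2 + u * p.1))⌋ + y) +
      am B A u r S m (⌊(B : ℝ) ^ m * (z0 - 1 / r * (p.2 + u * p.1))⌋ + y + 1) with hs
  have hspos : ∀ p ∈ P, 0 < s p := h1
  have h2' : ∑ p ∈ P, 1 / s p ≤ (mn B A u r S (n + m) ((B : ℤ) ^ m * z0 + y) : ℝ) := h2
  have hmn := mn_pos B (by omega) A u r hr S hpos n z0 hz0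
  have hKpos : 0 < P.card := by omega
  have hPne : P.Nonempty := Finset.card_pos.mp hKpos
  have hK : (0 : ℝ) < (P.card : ℝ) := by exact_mod_cast hKpos
  have hinv : 0 < ∑ p ∈ P, 1 / s p :=
    Finset.sum_pos (fun p hp => one_div_pos.mpr (hspos p hp)) hPne
  have hsum : 0 < ∑ p ∈ P, s p := Finset.sum_pos hspos hPne
  have hz : ((B : ℤ) ^ m * z0 + y) / (B : ℤ) ^ (n + m) ∈ nb S := by
    rw [f3_div B hB n m z0 y hy]
    exact hz0
  have e1 : am B A u r S (n + m) ((B : ℤ) ^ m * z0 + y) =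
      1 / (mn B A u r S (n + m) ((B : ℤ) ^ m * z0 + y) : ℝ) := by
    unfold am
    rw [if_pos hz]
  have e2 : am B A u r S n z0 = 1 / (P.card : ℝ) := by
    unfold am
    rw [if_pos hz0, hPcard]
  have hCS : (P.card : ℝ) ^ 2 ≤ (∑ p ∈ P, s p) * ∑ p ∈ P, 1 / s p := by
    have h3 := Finset.sum_sq_le_sum_mul_sum_of_sq_le_mul P (r := fun _ => (1 : ℝ)) (f := s)
      (g := fun p => 1 / s p) (fun p hp => (hspos p hp).le)
      (fun p hp => (one_div_pos.mpr (hspos p hp)).le)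
      (fun p hp => by
        have h := (hspos p hp).ne'
        show (1 : ℝ) ^ 2 ≤ s p * (1 / s p)
        rw [mul_one_div_cancel h, one_pow])
    simpa using h3
  rw [e1, e2]
  calc 1 / (mn B A u r S (n + m) ((B : ℤ) ^ m * z0 + y) : ℝ)
      ≤ 1 / ∑ p ∈ P, 1 / s p := one_div_le_one_div_of_le hinv h2'
    _ ≤ 1 / (P.card : ℝ) * (1 / (P.card : ℝ) * ∑ p ∈ P, s p) := by
        rw [div_le_iff₀ hinv]
        have e3 : 1 / (P.card : ℝ) * (1 / (P.card : ℝ) * ∑ p ∈ P, s p) * ∑ p ∈ P, 1 / s p =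
            ((∑ p ∈ P, s p) * ∑ p ∈ P, 1 / s p) / (P.card : ℝ) ^ 2 := by
          field_simp
        rw [e3, le_div_iff₀ (by positivity), one_mul]
        exact hCS

theorem sysM (B : ℕ) (hB : 2 ≤ B) (A : Finset ℕ) (hA : A ⊆ range B) (u r : ℝ) (hr : 0 < r)
    (S : Finset ℤ) (hS : S.Nonempty)
    (hpos : ∀ (n : ℕ) (b : ℝ), ⌊b / r⌋ ∈ nb S → 1 ≤ cntG B A u r S n b)
    (D : ℕ) (hD1 : 1 ≤ D) (hD : ∀ k ∈ nb S, -(D : ℤ) ≤ k ∧ k < D) : Sys B D (am B A u r S) := by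
  have hBpos : (0 : ℤ) < B := by exact_mod_cast (by omega : 0 < B)
  have hnbne : (nb S).Nonempty := by
    obtain ⟨k, hk⟩ := hS
    exact ⟨k, by unfold nb; simp [hk]⟩
  refine ⟨hB, hD1, fun n z => am_nonneg B A u r S n z, ?_, ?_, ?_⟩
  · intro n z hz
    unfold am
    refine if_neg fun h => hz ?_
    obtain ⟨h1, h2⟩ := hD _ h
    have hBn : (0 : ℤ) < (B : ℤ) ^ n := by positivity
    unfold dom
    rw [Finset.mem_Ico]
    constructor
    · have h3 := (Int.le_ediv_iff_mul_le hBn).mp h1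
      linarith
    · exact (Int.ediv_lt_iff_lt_mul hBn).mp h2
  · intro n
    obtain ⟨k, hk⟩ := hnbne
    have hBn : (0 : ℤ) < (B : ℤ) ^ n := by positivity
    have hd : k * (B : ℤ) ^ n / (B : ℤ) ^ n = k := Int.mul_ediv_cancel k hBn.ne'
    have hmem : k * (B : ℤ) ^ n / (B : ℤ) ^ n ∈ nb S := by rw [hd]; exact hk
    refine ⟨k * (B : ℤ) ^ n, ?_⟩
    have h1 := mn_pos B (by omega) A u r hr S hpos n _ hmem
    unfold am
    rw [if_pos hmem]
    have h2 : (0 : ℝ) < (mn B A u r S n (k * (B : ℤ) ^ n) : ℝ) := by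
      exact_mod_cast (by omega : 0 < mn B A u r S n (k * (B : ℤ) ^ n))
    exact one_div_pos.mpr h2
  · intro n m z0
    by_cases hz0 : z0 / (B : ℤ) ^ n ∈ nb S
    · obtain ⟨P, hPsub, hPcard, hP⟩ := f3_main B hB A hA u r hr S hpos n m z0 hz0
      have hmn := mn_pos B (by omega) A u r hr S hpos n z0 hz0
      refine ⟨P.card, by omega, fun i => ⌊(B : ℝ) ^ m *
        (z0 - 1 / r * (((P.equivFin.symm i : P) : ℕ × ℕ).2 +
          u * ((P.equivFin.symm i : P) : ℕ × ℕ).1))⌋, fun y hy => ?_⟩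
      have h1 := hP y hy
      rw [← Finset.sum_coe_sort P, ← Equiv.sum_comp P.equivFin.symm] at h1
      exact h1
    · refine ⟨1, one_pos, fun _ => 0, fun y hy => ?_⟩
      have h1 : am B A u r S n z0 = 0 := by
        unfold am
        exact if_neg hz0
      have h2 : am B A u r S (n + m) ((B : ℤ) ^ m * z0 + y) = 0 := by
        unfold am
        refine if_neg ?_
        rw [f3_div B hB n m z0 y hy]
        exact hz0
      rw [h1, h2, zero_mul]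

theorem sepM (B : ℕ) (hB : 2 ≤ B) (A : Finset ℕ) (hA : A ⊆ range B) (u r : ℝ) (hr : 0 < r)
    (hu : Irrational u) (S : Finset ℤ)
    (hpos : ∀ (n : ℕ) (b : ℝ), ⌊b / r⌋ ∈ nb S → 1 ≤ cntG B A u r S n b)
    (lam c0 : ℝ) (hlam : 1 < lam) (hc0 : 0 < c0)
    (hgrow : ∀ (n : ℕ) (b : ℝ), 1 ≤ n → ⌊b / r⌋ ∈ nb S → c0 * lam ^ n ≤ cntG B A u r S n b) :
    ∃ c > 0, ∃ R : ℕ, ∀ w : ℝ, Sep B (am B A u r S) w c R := by
  have hlog : 0 < Real.log lam := Real.log_pos hlam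
  have hB1 : (1 : ℝ) < (B : ℝ) := by exact_mod_cast (by omega : 1 < B)
  obtain ⟨R, hR⟩ := pow_unbounded_of_one_lt (r * (B : ℝ) ^ 2) hB1
  have hR' : (B : ℝ) ^ 2 ≤ 1 / r * (B : ℝ) ^ R := by
    rw [one_div, ← div_eq_inv_mul, le_div_iff₀ hr]
    linarith
  refine ⟨Real.log lam / 2, by positivity, R, fun w => ?_⟩
  have hev : ∀ᶠ n : ℕ in atTop, Real.exp (-(Real.log lam / 2 * n)) ≤ c0 := by
    have h1 : Tendsto (fun n : ℕ => Real.exp (-(Real.log lam / 2 * n))) atTop (nhds 0) := by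
      refine Real.tendsto_exp_neg_atTop_nhds_zero.comp ?_
      exact Tendsto.const_mul_atTop (by positivity) tendsto_natCast_atTop_atTop
    exact (h1.eventually (gt_mem_nhds hc0)).mono fun n hn => hn.le
  refine ((irr_sep B hB u hu).and_eventually (hev.and (eventually_ge_atTop 1))).mono ?_
  rintro n ⟨hsep, hn, hn1⟩ m hm z0 hz
  have hgrow' : Real.exp (Real.log lam / 2 * n) ≤ c0 * lam ^ n := by
    have h1 : lam ^ n = Real.exp (Real.log lam / 2 * n) * Real.exp (Real.log lam / 2 * n) := by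
      rw [← Real.exp_add, show Real.log lam / 2 * n + Real.log lam / 2 * n = n * Real.log lam by ring,
        Real.exp_nat_mul, Real.exp_log (by linarith)]
    have h2 : 1 ≤ c0 * Real.exp (Real.log lam / 2 * n) := by
      have h3 := mul_le_mul_of_nonneg_right hn (Real.exp_pos (Real.log lam / 2 * n)).le
      rw [← Real.exp_add, neg_add_cancel, Real.exp_zero] at h3
      exact h3
    rw [h1, ← mul_assoc]
    exact le_mul_of_one_le_left (Real.exp_pos _).le h2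
  have hz0 : z0 / (B : ℤ) ^ n ∈ nb S := by
    by_contra h
    have h1 : am B A u r S n z0 = 0 := by
      unfold am
      exact if_neg h
    rw [h1] at hz
    exact absurd (Real.exp_pos _) (not_lt.mpr hz)
  obtain ⟨P, hPsub, hPcard, hP⟩ := f3_main B hB A hA u r hr S hpos n m z0 hz0
  have hinj : Set.InjOn (fun p : ℕ × ℕ => ⌊(B : ℝ) ^ m * ((z0 : ℝ) - 1 / r * (p.2 + u * p.1))⌋)
      (P : Set (ℕ × ℕ)) := by
    intro p hp q hq hpq
    by_contra hne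
    have hp1 := Finset.mem_product.mp (hPsub hp)
    have hq1 := Finset.mem_product.mp (hPsub hq)
    exact floor_inj B hB u n m R (1 / r) hR' hm hsep z0 p q (Cd_lt B A hA n _ hp1.1)
      (Cd_lt B A hA n _ hq1.1) hne hpq
  refine ⟨P.image (fun p : ℕ × ℕ => ⌊(B : ℝ) ^ m * ((z0 : ℝ) - 1 / r * (p.2 + u * p.1))⌋), ?_, ?_⟩
  · rw [Finset.card_image_of_injOn hinj, hPcard]
    obtain ⟨b, hb1, hb2⟩ := mn_mem B (by omega) A u r hr S n z0
    rw [hb2]
    refine le_trans hgrow' (hgrow n b hn1 ?_)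
    rw [← cell_nb B (by omega) r n z0 b hb1]
    exact hz0
  · intro y hy
    rw [Finset.card_image_of_injOn hinj, Finset.sum_image hinj]
    exact hP y hy

theorem lowM (B : ℕ) (hB : 2 ≤ B) (A : Finset ℕ) (hA : A ⊆ range B) (hne : A.Nonempty) (u r : ℝ)
    (hr : 0 < r) (S : Finset ℤ) (hS : S.Nonempty)
    (hpos : ∀ (n : ℕ) (b : ℝ), ⌊b / r⌋ ∈ nb S → 1 ≤ cntG B A u r S n b) (n : ℕ) :
    ∃ z, Real.exp (-(2 * Real.log A.card) * n) ≤ 2 * am B A u r S n z := by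
  have hBpos : (0 : ℤ) < B := by exact_mod_cast (by omega : 0 < B)
  obtain ⟨k, hk⟩ := hS
  have hk' : k ∈ nb S := by unfold nb; simp [hk]
  have hBn : (0 : ℤ) < (B : ℤ) ^ n := by positivity
  have hd : k * (B : ℤ) ^ n / (B : ℤ) ^ n = k := Int.mul_ediv_cancel k hBn.ne'
  have hmem : k * (B : ℤ) ^ n / (B : ℤ) ^ n ∈ nb S := by rw [hd]; exact hk'
  refine ⟨k * (B : ℤ) ^ n, ?_⟩
  have h1 := mn_pos B (by omega) A u r hr S hpos n _ hmem
  have h2 : (0 : ℝ) < (mn B A u r S n (k * (B : ℤ) ^ n) : ℝ) := by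
    exact_mod_cast (by omega : 0 < mn B A u r S n (k * (B : ℤ) ^ n))
  obtain ⟨b, _, hb2⟩ := mn_mem B (by omega) A u r hr S n (k * (B : ℤ) ^ n)
  have h3 : mn B A u r S n (k * (B : ℤ) ^ n) ≤ A.card ^ (2 * n) := by
    rw [hb2]
    exact cntG_le B A hA u r S n b
  have h3' : (mn B A u r S n (k * (B : ℤ) ^ n) : ℝ) ≤ (A.card : ℝ) ^ (2 * n) := by
    exact_mod_cast h3
  have hA0 : (0 : ℝ) < A.card := by exact_mod_cast hne.card_pos
  have h4 : Real.exp (-(2 * Real.log A.card) * n) = 1 / (A.card : ℝ) ^ (2 * n) := by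
    rw [show -(2 * Real.log (A.card : ℝ)) * (n : ℝ) = -(((2 * n : ℕ) : ℝ) * Real.log A.card) by
      push_cast; ring, Real.exp_neg, Real.exp_nat_mul, Real.exp_log hA0, one_div]
  unfold am
  rw [if_pos hmem, h4]
  have h5 : 1 / (A.card : ℝ) ^ (2 * n) ≤ 1 / (mn B A u r S n (k * (B : ℤ) ^ n) : ℝ) :=
    one_div_le_one_div_of_le h2 h3'
  have h6 : 0 < 1 / (mn B A u r S n (k * (B : ℤ) ^ n) : ℝ) := one_div_pos.mpr h2
  linarith

end Pool.Agent.Lib.H21X
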