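import Pool.Agent.Lib.H21X.F2
import Pool.Agent.Lib.H21X.A1

/-!
# Chunk F4: mode -, small moments

PROOF of `Zr_submul`.  Cut with `sum_split`.  Let `z0 ∈ dom B D n`.  If `z0 / B^n ∉ nb S` all
`am (n+m) (B^m z0 + y)` and `am n z0` are `0`, and `0^p = 0`.  Otherwise take `P` from `stepH`,
`k = #P = mn n z0 ≥ 1`, `am n z0 = 1/k`, `s_p = am m (u_p+y) + am m (u_p+y+1) > 0`; then
`am (n+m) z ≤ 1 / ∑ (1/s_p) = (1/k) * HM`, and `HM^p ≤ (1/k) ∑ s_p^p`: by the inequality of the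
arithmetic and geometric means twice (`Real.inner_le_nnorm_mul_nnorm` is not needed;
`Real.geom_mean_le_arith_mean_weighted` with weights `1/k`): `∏ (1/s_p)^(1/k) ≤ (1/k) ∑ 1/s_p`,
so `((1/k) ∑ 1/s_p)^(-p) ≤ ∏ (s_p^p)^(1/k) ≤ (1/k) ∑ s_p^p`; and
`s_p^p ≤ am m (u_p+y)^p + am m (u_p+y+1)^p` (`Real.rpow_add_le_add_rpow` or
`NNReal.rpow_add_le_add_rpow`, `p ≤ 1`).  Sum over `y`: for each `p ∈ P` the points are distinct
and `am m` vanishes outside `dom B D m` (`hD`, `0^p = 0`), so the sum over `y` of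
`am (n+m) (B^m z0 + y)^p` is at most `am n z0^p * 2 * Zr p m`.
`Zr_mul`: induction on `j`.  `Z_le_Zr`: `a = a^(1-p) a^p ≤ X^(1-p) a^p` for `0 ≤ a ≤ X`.
-/

namespace Pool.Agent.Lib.H21X

open Finset Filter

/-- Harmonic mean against the power mean. -/
private lemma F4_hm {ι : Type*} (P : Finset ι) (hP : P.Nonempty) (s : ι → ℝ) (hs : ∀ i ∈ P, 0 < s i)
    (p : ℝ) (hp0 : 0 < p) :
    (1 / ∑ i ∈ P, 1 / s i) ^ p ≤ (1 / (P.card : ℝ)) ^ p * (1 / (P.card : ℝ) * ∑ i ∈ P, s i ^ p) := by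
  have hk : (0 : ℝ) < (P.card : ℝ) := by exact_mod_cast hP.card_pos
  set w : ℝ := 1 / (P.card : ℝ) with hw
  have hw0 : 0 < w := by positivity
  have hw1 : ∑ i ∈ P, w = 1 := by
    rw [sum_const, nsmul_eq_mul, hw]
    field_simp
  set T : ℝ := ∑ i ∈ P, 1 / s i with hT
  have hT0 : 0 < T := sum_pos (fun i hi => by have := hs i hi; positivity) hP
  have h1 := Real.geom_mean_le_arith_mean_weighted P (fun _ => w) (fun i => 1 / s i)
    (fun i _ => hw0.le) hw1 (fun i hi => by have := hs i hi; positivity)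
  have h2 := Real.geom_mean_le_arith_mean_weighted P (fun _ => w) (fun i => s i ^ p)
    (fun i _ => hw0.le) hw1 (fun i hi => by have := hs i hi; positivity)
  rw [← mul_sum] at h1 h2
  set Gm : ℝ := ∏ i ∈ P, (1 / s i) ^ w with hGm
  have hGm0 : 0 < Gm := prod_pos fun i hi => by have := hs i hi; positivity
  have h3 : ∏ i ∈ P, (s i ^ p) ^ w = Gm ^ (-p) := by
    rw [hGm, ← Real.finsetProd_rpow _ _ (fun i hi => by have := hs i hi; positivity)]
    refine prod_congr rfl fun i hi => ?_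
    have hsi := hs i hi
    rw [one_div, Real.inv_rpow hsi.le, ← Real.rpow_neg hsi.le, ← Real.rpow_mul hsi.le,
      ← Real.rpow_mul hsi.le]
    congr 1
    ring
  rw [h3] at h2
  have h4 : (w * T) ^ (-p) ≤ Gm ^ (-p) :=
    Real.rpow_le_rpow_of_nonpos hGm0 h1 (by linarith)
  have h5 : (1 / T) ^ p = w ^ p * (w * T) ^ (-p) := by
    rw [Real.mul_rpow hw0.le hT0.le, ← mul_assoc, ← Real.rpow_add hw0, add_neg_cancel,
      Real.rpow_zero, one_mul, one_div, Real.inv_rpow hT0.le, Real.rpow_neg hT0.le]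
  rw [h5]
  exact mul_le_mul_of_nonneg_left (h4.trans h2) (by positivity)

/-- The sum over a window is at most the sum over the domain. -/
private lemma F4_window (B D : ℕ) (hB : 1 ≤ B) (A : Finset ℕ) (u r : ℝ) (S : Finset ℤ)
    (hD : ∀ k ∈ nb S, -(D : ℤ) ≤ k ∧ k < D) (p : ℝ) (hp0 : 0 < p) (m : ℕ) (v : ℤ) :
    ∑ y ∈ Finset.Ico (0 : ℤ) ((B : ℤ) ^ m), am B A u r S m (v + y) ^ p ≤
      Zr B D (am B A u r S) p m := by
  classical
  have hnn : ∀ z, 0 ≤ am B A u r S m z ^ p := fun z => Real.rpow_nonneg (am_nonneg B A u r S m z) p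
  have hBm : (0 : ℤ) < (B : ℤ) ^ m := by
    have : (0 : ℤ) < B := by exact_mod_cast hB
    positivity
  rw [← sum_image (f := fun z => am B A u r S m z ^ p) (g := fun y => v + y)
    (fun a _ b _ h => by simpa using h), ← sum_filter_ne_zero]
  unfold Zr
  refine sum_le_sum_of_subset_of_nonneg ?_ fun z _ _ => hnn z
  intro z hz
  rw [mem_filter] at hz
  have h1 : z / (B : ℤ) ^ m ∈ nb S := by
    by_contra hcon
    apply hz.2
    rw [am, if_neg hcon, Real.zero_rpow hp0.ne']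
  obtain ⟨h2, h3⟩ := hD _ h1
  unfold dom
  rw [mem_Ico]
  constructor
  · have := (Int.le_ediv_iff_mul_le hBm).mp h2
    linarith
  · exact (Int.ediv_lt_iff_lt_mul hBm).mp h3

private lemma F4_zr_nonneg (B D : ℕ) (A : Finset ℕ) (u r : ℝ) (S : Finset ℤ) (p : ℝ) (m : ℕ) :
    0 ≤ Zr B D (am B A u r S) p m :=
  sum_nonneg fun z _ => Real.rpow_nonneg (am_nonneg B A u r S m z) p

theorem Zr_submul (B : ℕ) (hB : 2 ≤ B) (A : Finset ℕ) (hA : A ⊆ range B) (u r : ℝ) (hr : 0 < r)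
    (S : Finset ℤ) (hpos : ∀ (n : ℕ) (b : ℝ), ⌊b / r⌋ ∈ nb S → 1 ≤ cntG B A u r S n b)
    (D : ℕ) (hD1 : 1 ≤ D) (hD : ∀ k ∈ nb S, -(D : ℤ) ≤ k ∧ k < D) (p : ℝ) (hp0 : 0 < p)
    (hp1 : p ≤ 1) (n m : ℕ) :
    Zr B D (am B A u r S) p (n + m) ≤ 2 * Zr B D (am B A u r S) p n * Zr B D (am B A u r S) p m := by
  classical
  have hBn : ∀ n : ℕ, (0 : ℤ) < (B : ℤ) ^ n := fun n => by
    have : (0 : ℤ) < B := by exact_mod_cast (by omega : 0 < B)
    positivity
  have hdiv : ∀ z0 y : ℤ, y ∈ Finset.Ico (0 : ℤ) ((B : ℤ) ^ m) →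
      ((B : ℤ) ^ m * z0 + y) / (B : ℤ) ^ (n + m) = z0 / (B : ℤ) ^ n := by
    intro z0 y hy
    rw [mem_Ico] at hy
    rw [pow_add, mul_comm ((B : ℤ) ^ n), ← Int.ediv_ediv_of_nonneg (hBn m).le,
      Int.mul_add_ediv_left _ _ (hBn m).ne', Int.ediv_eq_zero_of_lt hy.1 hy.2, add_zero]
  have hmain : ∀ z0 : ℤ, ∑ y ∈ Finset.Ico (0 : ℤ) ((B : ℤ) ^ m),
      am B A u r S (n + m) ((B : ℤ) ^ m * z0 + y) ^ p ≤
        am B A u r S n z0 ^ p * (2 * Zr B D (am B A u r S) p m) := by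
    intro z0
    by_cases hz0 : z0 / (B : ℤ) ^ n ∈ nb S
    · obtain ⟨P, -, hPc, hP⟩ := stepH B hB A hA u r hr S hpos n m z0 hz0
      have hk1 := mn_pos B (by omega) A u r hr S hpos n z0 hz0
      have hPne : P.Nonempty := by
        rw [← card_pos, hPc]
        omega
      have hk : (0 : ℝ) < (P.card : ℝ) := by exact_mod_cast hPne.card_pos
      have ham : am B A u r S n z0 = 1 / (P.card : ℝ) := by
        rw [am, if_pos hz0, hPc]
      have hy1 : ∀ y ∈ Finset.Ico (0 : ℤ) ((B : ℤ) ^ m),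
          am B A u r S (n + m) ((B : ℤ) ^ m * z0 + y) ^ p ≤
            (1 / (P.card : ℝ)) ^ p * (1 / (P.card : ℝ) * ∑ q ∈ P,
              (am B A u r S m (⌊(B : ℝ) ^ m * (z0 - 1 / r * (q.2 + u * q.1))⌋ + y) ^ p +
                am B A u r S m (⌊(B : ℝ) ^ m * (z0 - 1 / r * (q.2 + u * q.1))⌋ + 1 + y) ^ p)) := by
        intro y hy
        obtain ⟨hs, hsum⟩ := hP y hy
        have hT0 : 0 < ∑ p ∈ P, 1 / (am B A u r S m
            (⌊(B : ℝ) ^ m * (z0 - 1 / r * (p.2 + u * p.1))⌋ + y) +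
          am B A u r S m (⌊(B : ℝ) ^ m * (z0 - 1 / r * (p.2 + u * p.1))⌋ + y + 1)) :=
          sum_pos (fun q hq => by have := hs q hq; positivity) hPne
        have h1 : am B A u r S (n + m) ((B : ℤ) ^ m * z0 + y) ≤ 1 / ∑ p ∈ P, 1 / (am B A u r S m
            (⌊(B : ℝ) ^ m * (z0 - 1 / r * (p.2 + u * p.1))⌋ + y) +
          am B A u r S m (⌊(B : ℝ) ^ m * (z0 - 1 / r * (p.2 + u * p.1))⌋ + y + 1)) := by
          rw [am, if_pos (by rw [hdiv z0 y hy]; exact hz0)]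
          exact one_div_le_one_div_of_le hT0 hsum
        have h2 := Real.rpow_le_rpow (am_nonneg B A u r S _ _) h1 hp0.le
        refine h2.trans ((F4_hm P hPne _ hs p hp0).trans ?_)
        refine mul_le_mul_of_nonneg_left (mul_le_mul_of_nonneg_left ?_ (by positivity))
          (by positivity)
        refine sum_le_sum fun q hq => ?_
        have h3 := Real.rpow_add_le_add_rpow (am_nonneg B A u r S m
          (⌊(B : ℝ) ^ m * (z0 - 1 / r * (q.2 + u * q.1))⌋ + y)) (am_nonneg B A u r S m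
          (⌊(B : ℝ) ^ m * (z0 - 1 / r * (q.2 + u * q.1))⌋ + y + 1)) hp0.le hp1
        have e : ∀ v : ℤ, v + 1 + y = v + y + 1 := fun v => by ring
        rw [e]
        exact h3
      refine (sum_le_sum hy1).trans ?_
      rw [← mul_sum, ← mul_sum, sum_comm, ham]
      refine mul_le_mul_of_nonneg_left ?_ (by positivity)
      have h4 : ∑ q ∈ P, ∑ y ∈ Finset.Ico (0 : ℤ) ((B : ℤ) ^ m),
          (am B A u r S m (⌊(B : ℝ) ^ m * (z0 - 1 / r * (q.2 + u * q.1))⌋ + y) ^ p +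
            am B A u r S m (⌊(B : ℝ) ^ m * (z0 - 1 / r * (q.2 + u * q.1))⌋ + 1 + y) ^ p) ≤
          ∑ q ∈ P, 2 * Zr B D (am B A u r S) p m := by
        refine sum_le_sum fun q _ => ?_
        rw [sum_add_distrib, two_mul]
        exact add_le_add (F4_window B D (by omega) A u r S hD p hp0 m _)
          (F4_window B D (by omega) A u r S hD p hp0 m _)
      rw [sum_const, nsmul_eq_mul] at h4
      calc 1 / (P.card : ℝ) * _ ≤ 1 / (P.card : ℝ) *
            ((P.card : ℝ) * (2 * Zr B D (am B A u r S) p m)) :=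
            mul_le_mul_of_nonneg_left h4 (by positivity)
        _ = 2 * Zr B D (am B A u r S) p m := by field_simp
    · have h1 : ∑ y ∈ Finset.Ico (0 : ℤ) ((B : ℤ) ^ m),
          am B A u r S (n + m) ((B : ℤ) ^ m * z0 + y) ^ p = 0 := by
        refine sum_eq_zero fun y hy => ?_
        rw [am, if_neg (by rw [hdiv z0 y hy]; exact hz0), Real.zero_rpow hp0.ne']
      rw [h1]
      exact mul_nonneg (Real.rpow_nonneg (am_nonneg B A u r S n z0) p)
        (mul_nonneg two_pos.le (F4_zr_nonneg B D A u r S p m))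
  calc Zr B D (am B A u r S) p (n + m)
      = ∑ z0 ∈ dom B D n, ∑ y ∈ Finset.Ico (0 : ℤ) ((B : ℤ) ^ m),
          am B A u r S (n + m) ((B : ℤ) ^ m * z0 + y) ^ p :=
        sum_split B D n m (by omega) fun z => am B A u r S (n + m) z ^ p
    _ ≤ ∑ z0 ∈ dom B D n, am B A u r S n z0 ^ p * (2 * Zr B D (am B A u r S) p m) :=
        sum_le_sum fun z0 _ => hmain z0
    _ = 2 * Zr B D (am B A u r S) p n * Zr B D (am B A u r S) p m := by
        rw [← sum_mul]
        show Zr B D (am B A u r S) p n * _ = _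
        ring

theorem Zr_mul (B : ℕ) (hB : 2 ≤ B) (A : Finset ℕ) (hA : A ⊆ range B) (u r : ℝ) (hr : 0 < r)
    (S : Finset ℤ) (hpos : ∀ (n : ℕ) (b : ℝ), ⌊b / r⌋ ∈ nb S → 1 ≤ cntG B A u r S n b)
    (D : ℕ) (hD1 : 1 ≤ D) (hD : ∀ k ∈ nb S, -(D : ℤ) ≤ k ∧ k < D) (p : ℝ) (hp0 : 0 < p)
    (hp1 : p ≤ 1) (n j : ℕ) (hj : 1 ≤ j) :
    Zr B D (am B A u r S) p (j * n) ≤ (2 * Zr B D (am B A u r S) p n) ^ j := by
  have h0 := F4_zr_nonneg B D A u r S p n
  induction j, hj using Nat.le_induction with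
  | base =>
    rw [one_mul, pow_one]
    linarith
  | succ j hj ih =>
    rw [Nat.succ_mul]
    refine (Zr_submul B hB A hA u r hr S hpos D hD1 hD p hp0 hp1 (j * n) n).trans ?_
    rw [pow_succ]
    calc 2 * Zr B D (am B A u r S) p (j * n) * Zr B D (am B A u r S) p n
        = Zr B D (am B A u r S) p (j * n) * (2 * Zr B D (am B A u r S) p n) := by ring
      _ ≤ _ := mul_le_mul_of_nonneg_right ih (by linarith)

theorem Z_le_Zr (B D : ℕ) (α : ℕ → ℤ → ℝ) (h0 : ∀ n z, 0 ≤ α n z) (p : ℝ) (hp0 : 0 < p)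
    (hp1 : p ≤ 1) (n : ℕ) (X : ℝ) (hX : ∀ z, α n z ≤ X) :
    Z B D α 1 n ≤ X ^ (1 - p) * Zr B D α p n := by
  unfold Z Zr
  rw [mul_sum]
  refine sum_le_sum fun z _ => ?_
  rw [pow_one]
  rcases (h0 n z).eq_or_lt with h | h
  · rw [← h, Real.zero_rpow hp0.ne', mul_zero]
  · calc α n z = α n z ^ (1 - p) * α n z ^ p := by
          rw [← Real.rpow_add h, sub_add_cancel, Real.rpow_one]
      _ ≤ X ^ (1 - p) * α n z ^ p :=
          mul_le_mul_of_nonneg_right (Real.rpow_le_rpow h.le (hX z) (by linarith)) (by positivity)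

end Pool.Agent.Lib.H21X
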