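import Pool.Agent.Lib.H21X.F2
import Pool.Agent.Lib.H21X.A1

/-!
# Chunk F5: mode -, typical growth bounds the small moments

PROOF.  `step1`: let `b, b'` be in the same cell of scale `n` (`⌊B^n b/r⌋ = ⌊B^n b'/r⌋`),
`⌊b / r⌋ ∈ nb S`.  Then `cntG n b' ≤ cntG (n+m) b`: let `P` be the set counted by `cntG n b'`;
for `p ∈ P` the point `B^n b - (p.2 + u p.1)` has floor (after division by `r`) in `nb S`
(`near_nb`), so `cntG m` of it is `≥ 1`; `cntG_add`.  (For `n = 0`: `cntG 0 b' = 1 ≤ cntG m b`.)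
`typZr`: let `z ∈ dom B D (n+1)`.  If `z / B^(n+1) ∉ nb S` the summand is `0`.  Otherwise
`mn (n+1) z ≥ 1`, the summand is `≤ 1`, and it is `≤ Y^(-p)` if `mn (n+1) z ≥ Y`.  Let `z` be bad:
`mn (n+1) z < Y`; let `b` be in the cell `z` of scale `n+1` with `mn (n+1) z = cntG (n+1) b`; for
every `b'` in the cell `z1 = z / B` of scale `n` (that is `⌊B^n b'/r⌋ = z1 = ⌊B^n b/r⌋`)
`cntG n b' ≤ cntG (n+1) b < Y` (`step1`, `m = 1`) and `⌊b'/r⌋ = z1 / B^n ∈ nb S`; so the whole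
interval `{b' | ⌊B^n b'/r⌋ = z1} = [r z1 / B^n, r (z1+1)/B^n)` (length `r / B^n`) lies in the
bad set of volume `≤ η`.  These intervals are disjoint for different `z1`, so their number is
`≤ η B^n / r`, and each `z1` has `B` values `z`; the number of bad `z` is `≤ B η B^n / r`.
With `card_dom`: total `≤ 2 D B^(n+1) Y^(-p) + B^(n+1) η / r`.
-/

namespace Pool.Agent.Lib.H21X

open Finset Filter MeasureTheory

theorem step1 (B : ℕ) (hB : 2 ≤ B) (A : Finset ℕ) (hA : A ⊆ range B) (u r : ℝ) (hr : 0 < r)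
    (S : Finset ℤ) (hpos : ∀ (n : ℕ) (b : ℝ), ⌊b / r⌋ ∈ nb S → 1 ≤ cntG B A u r S n b)
    (n m : ℕ) (hm : 1 ≤ m) (b b' : ℝ) (hb : ⌊b / r⌋ ∈ nb S)
    (hbb : ⌊(B : ℝ) ^ n * b / r⌋ = ⌊(B : ℝ) ^ n * b' / r⌋) :
    cntG B A u r S n b' ≤ cntG B A u r S (n + m) b := by
  classical
  by_cases hn : n = 0
  · subst hn
    have h0 : cntG B A u r S 0 b' = 1 := by simp [cntG]
    rw [h0]
    exact hpos _ b hb
  set P : Finset (ℕ × ℕ) := (Cd B A n ×ˢ Cd B A n).filter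
    (fun p => ⌊((B : ℝ) ^ n * b' - (p.2 + u * p.1)) / r⌋ ∈ S) with hP
  have h1 := cntG_add B A hA u r S n m hm b P (Finset.filter_subset _ _)
  refine le_trans ?_ h1
  have h2 : cntG B A u r S n b' = ∑ _p ∈ P, 1 := by
    rw [Finset.sum_const, smul_eq_mul, mul_one]
    unfold cntG
    rw [if_neg hn]
  rw [h2]
  refine Finset.sum_le_sum fun p hp => ?_
  have hp' := (Finset.mem_filter.mp hp).2
  exact hpos m _ (near_nb r hr S ((B : ℝ) ^ n * b') ((B : ℝ) ^ n * b) _ hbb.symm hp')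

private lemma F5_cell (B : ℕ) (hB : 2 ≤ B) (r : ℝ) (hr : 0 < r) (n : ℕ) (z : ℤ) :
    {b : ℝ | ⌊(B : ℝ) ^ n * b / r⌋ = z} =
      Set.Ico (r * z / (B : ℝ) ^ n) (r * (z + 1) / (B : ℝ) ^ n) := by
  have hBn : (0 : ℝ) < (B : ℝ) ^ n := by
    have : (0 : ℝ) < B := by
      have : (2 : ℝ) ≤ B := by exact_mod_cast hB
      linarith
    positivity
  ext b
  rw [Set.mem_setOf_eq, Int.floor_eq_iff, Set.mem_Ico, le_div_iff₀ hr, div_lt_iff₀ hr, div_le_iff₀ hBn,
    lt_div_iff₀ hBn]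
  constructor
  · rintro ⟨h1, h2⟩
    constructor <;> linarith
  · rintro ⟨h1, h2⟩
    constructor <;> linarith

private lemma F5_bad (B : ℕ) (hB : 2 ≤ B) (A : Finset ℕ) (hA : A ⊆ range B) (u r : ℝ) (hr : 0 < r)
    (S : Finset ℤ) (hpos : ∀ (n : ℕ) (b : ℝ), ⌊b / r⌋ ∈ nb S → 1 ≤ cntG B A u r S n b)
    (n : ℕ) (Y η : ℝ) (hη : 0 < η)
    (htyp : volume {b : ℝ | ⌊b / r⌋ ∈ nb S ∧ (cntG B A u r S n b : ℝ) < Y} ≤ ENNReal.ofReal η)
    (Z : Finset ℤ) (hZ : ∀ z ∈ Z, z / (B : ℤ) ^ (n + 1) ∈ nb S ∧ (mn B A u r S (n + 1) z : ℝ) < Y) :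
    (Z.card : ℝ) ≤ (B : ℝ) ^ (n + 1) * (η / r) := by
  classical
  have hB0 : (0 : ℝ) < B := by
    have : (2 : ℝ) ≤ B := by exact_mod_cast hB
    linarith
  have hBn : (0 : ℝ) < (B : ℝ) ^ n := by positivity
  have hBz : (0 : ℤ) < (B : ℤ) := by
    have : 0 < B := by omega
    exact_mod_cast this
  set W : Finset ℤ := Z.image (fun z => z / (B : ℤ)) with hW
  -- the fibres
  have hfib : Z.card ≤ B * W.card := by
    refine Finset.card_le_mul_card_image Z B fun w _ => ?_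
    have h1 : (Z.filter fun z => z / (B : ℤ) = w) ⊆ Finset.Ico ((B : ℤ) * w) ((B : ℤ) * w + B) := by
      intro z hz
      have h2 := (Finset.mem_filter.mp hz).2
      have h3 := Int.mul_ediv_add_emod z (B : ℤ)
      have h4 := Int.emod_nonneg z hBz.ne'
      have h5 := Int.emod_lt_of_pos z hBz
      rw [Finset.mem_Ico]
      rw [h2] at h3
      constructor <;> linarith
    refine (Finset.card_le_card h1).trans ?_
    rw [Int.card_Ico]
    simp
  -- the intervals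
  have hsub : ∀ w ∈ W, {b : ℝ | ⌊(B : ℝ) ^ n * b / r⌋ = w} ⊆
      {b : ℝ | ⌊b / r⌋ ∈ nb S ∧ (cntG B A u r S n b : ℝ) < Y} := by
    intro w hw b' hb'
    rw [Set.mem_setOf_eq] at hb'
    obtain ⟨z, hz, hzw⟩ := Finset.mem_image.mp hw
    obtain ⟨hz1, hz2⟩ := hZ z hz
    obtain ⟨b, hb, hmn⟩ := mn_mem B (by omega) A u r hr S (n + 1) z
    have hcell : ⌊(B : ℝ) ^ n * b / r⌋ = w := by
      have h1 := cell_nb B (by omega) r 1 z ((B : ℝ) ^ n * b) (by
        rw [← hb]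
        congr 2
        ring)
      rw [pow_one] at h1
      rw [← h1, ← hzw]
    refine ⟨?_, ?_⟩
    · have h1 := cell_nb B (by omega) r n w b' hb'
      rw [← h1, ← hzw]
      have h2 : z / (B : ℤ) / (B : ℤ) ^ n = z / (B : ℤ) ^ (n + 1) := by
        rw [Int.ediv_ediv_of_nonneg hBz.le, pow_succ, mul_comm]
      show z / (B : ℤ) / (B : ℤ) ^ n ∈ nb S
      rw [h2]
      exact hz1
    · have hb0 : ⌊b / r⌋ ∈ nb S := by
        rw [← cell_nb B (by omega) r (n + 1) z b hb]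
        exact hz1
      have h1 := step1 B hB A hA u r hr S hpos n 1 le_rfl b b' hb0 (by rw [hcell, hb'])
      rw [← hmn] at h1
      have h2 : (cntG B A u r S n b' : ℝ) ≤ (mn B A u r S (n + 1) z : ℝ) := by exact_mod_cast h1
      exact lt_of_le_of_lt h2 hz2
  have hvol : ∀ w : ℤ, volume {b : ℝ | ⌊(B : ℝ) ^ n * b / r⌋ = w} = ENNReal.ofReal (r / (B : ℝ) ^ n) := by
    intro w
    rw [F5_cell B hB r hr n w, Real.volume_Ico]
    congr 1
    field_simp
    ring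
  have hmeas : ∀ w ∈ W, MeasurableSet {b : ℝ | ⌊(B : ℝ) ^ n * b / r⌋ = w} := by
    intro w _
    rw [F5_cell B hB r hr n w]
    exact measurableSet_Ico
  have hdis : (W : Set ℤ).PairwiseDisjoint fun w => {b : ℝ | ⌊(B : ℝ) ^ n * b / r⌋ = w} := by
    intro w _ w' _ hne
    rw [Function.onFun, Set.disjoint_left]
    intro b hb hb'
    rw [Set.mem_setOf_eq] at hb hb'
    exact hne (hb.symm.trans hb')
  have hun := measure_biUnion_finset (μ := volume) hdis hmeas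
  have hle : volume (⋃ w ∈ W, {b : ℝ | ⌊(B : ℝ) ^ n * b / r⌋ = w}) ≤ ENNReal.ofReal η :=
    (measure_mono (Set.iUnion₂_subset hsub)).trans htyp
  rw [hun, Finset.sum_congr rfl fun w _ => hvol w, Finset.sum_const, nsmul_eq_mul,
    ← ENNReal.ofReal_natCast, ← ENNReal.ofReal_mul (by positivity), ENNReal.ofReal_le_ofReal_iff hη.le] at hle
  have h1 : (Z.card : ℝ) ≤ B * W.card := by exact_mod_cast hfib
  have h2 : (W.card : ℝ) ≤ (B : ℝ) ^ n * (η / r) := by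
    have h3 : (W.card : ℝ) * (r / (B : ℝ) ^ n) * ((B : ℝ) ^ n / r) ≤ η * ((B : ℝ) ^ n / r) :=
      mul_le_mul_of_nonneg_right hle (by positivity)
    have h4 : (W.card : ℝ) * (r / (B : ℝ) ^ n) * ((B : ℝ) ^ n / r) = W.card := by
      field_simp
    rw [h4] at h3
    refine h3.trans (le_of_eq ?_)
    ring
  calc (Z.card : ℝ) ≤ B * W.card := h1
    _ ≤ B * ((B : ℝ) ^ n * (η / r)) := mul_le_mul_of_nonneg_left h2 hB0.le
    _ = (B : ℝ) ^ (n + 1) * (η / r) := by ring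

theorem typZr (B : ℕ) (hB : 2 ≤ B) (A : Finset ℕ) (hA : A ⊆ range B) (u r : ℝ) (hr : 0 < r)
    (S : Finset ℤ) (hpos : ∀ (n : ℕ) (b : ℝ), ⌊b / r⌋ ∈ nb S → 1 ≤ cntG B A u r S n b)
    (D : ℕ) (hD1 : 1 ≤ D) (p : ℝ) (hp0 : 0 < p) (n : ℕ) (Y η : ℝ) (hY : 0 < Y) (hη : 0 < η)
    (htyp : volume {b : ℝ | ⌊b / r⌋ ∈ nb S ∧ (cntG B A u r S n b : ℝ) < Y} ≤ ENNReal.ofReal η) :
    Zr B D (am B A u r S) p (n + 1) ≤ (B : ℝ) ^ (n + 1) * (2 * D * Y ^ (-p) + η / r) := by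
  classical
  set bad : Finset ℤ := (dom B D (n + 1)).filter
    (fun z => z / (B : ℤ) ^ (n + 1) ∈ nb S ∧ (mn B A u r S (n + 1) z : ℝ) < Y) with hbad
  have hYp : 0 < Y ^ (-p) := Real.rpow_pos_of_pos hY _
  have hterm : ∀ z ∈ dom B D (n + 1), am B A u r S (n + 1) z ^ p ≤
      Y ^ (-p) + (if z / (B : ℤ) ^ (n + 1) ∈ nb S ∧ (mn B A u r S (n + 1) z : ℝ) < Y then (1 : ℝ) else 0) := by
    intro z _
    by_cases hz : z / (B : ℤ) ^ (n + 1) ∈ nb S
    · have hmn : 1 ≤ mn B A u r S (n + 1) z := mn_pos B (by omega) A u r hr S hpos (n + 1) z hz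
      have hmn' : (1 : ℝ) ≤ mn B A u r S (n + 1) z := by exact_mod_cast hmn
      have ham : am B A u r S (n + 1) z = 1 / (mn B A u r S (n + 1) z : ℝ) := by
        unfold am
        rw [if_pos hz]
      rw [ham]
      by_cases hlt : (mn B A u r S (n + 1) z : ℝ) < Y
      · rw [if_pos ⟨hz, hlt⟩]
        have h1 : (1 / (mn B A u r S (n + 1) z : ℝ)) ^ p ≤ 1 := by
          apply Real.rpow_le_one (by positivity) _ hp0.le
          rw [div_le_one (by linarith)]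
          exact hmn'
        linarith
      · rw [if_neg fun h => hlt h.2, add_zero, one_div, Real.inv_rpow (by linarith), Real.rpow_neg hY.le]
        push Not at hlt
        exact inv_anti₀ (Real.rpow_pos_of_pos hY _) (Real.rpow_le_rpow hY.le hlt hp0.le)
    · have ham : am B A u r S (n + 1) z = 0 := by
        unfold am
        rw [if_neg hz]
      rw [ham, Real.zero_rpow hp0.ne', if_neg fun h => hz h.1]
      linarith
  have hsum : Zr B D (am B A u r S) p (n + 1) ≤ (dom B D (n + 1)).card * Y ^ (-p) + bad.card := by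
    unfold Zr
    refine (Finset.sum_le_sum hterm).trans ?_
    rw [Finset.sum_add_distrib, Finset.sum_const, nsmul_eq_mul, Finset.sum_boole]
  have hbadc := F5_bad B hB A hA u r hr S hpos n Y η hη htyp bad fun z hz => (Finset.mem_filter.mp hz).2
  rw [card_dom] at hsum
  calc Zr B D (am B A u r S) p (n + 1) ≤ 2 * D * (B : ℝ) ^ (n + 1) * Y ^ (-p) + bad.card := hsum
    _ ≤ 2 * D * (B : ℝ) ^ (n + 1) * Y ^ (-p) + (B : ℝ) ^ (n + 1) * (η / r) := by linarith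
    _ = (B : ℝ) ^ (n + 1) * (2 * D * Y ^ (-p) + η / r) := by ring

end Pool.Agent.Lib.H21X
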