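import Pool.Agent.Lib.H21X.D4
import Pool.Agent.Lib.H21X.F3
import Pool.Agent.Lib.H21X.F4
import Pool.Agent.Lib.H21X.F5

/-!
# Chunk F6: the minimal number of descendants is the typical number (part (II-))

PROOF of `alongMul` (`hEG` is the conclusion of `EG` with `ε = 1 / n1`, `Zn = n1` the step).
Let `n = j n1` be so large that `hEG` applies, `X = M α n`.  With `Z_le_Zr` and `Zr_mul`:
`X B^n exp (-j) ≤ Z 1 n ≤ X^(1-p) Zr p n ≤ X^(1-p) (2 Zr p n1)^j` (take `z` with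
`α n z = X`, `exists_eq_M`), so with `hZr`: `X^p ≤ (exp 1 * 2 * Q)^j` (the factors `B^n`
cancel), that is `X ≤ exp ((j/p) log (2 e Q))`.

PROOF of `modeMinus`.  `lam, c0` from `hgrow`; `hpos`: `c0 lam^n > 0`, so the natural number is
`≥ 1` for `n ≥ 1`, and `cntG 0 = 1` by definition.  If `S` is empty nothing is to be shown.  If `v ≤ ε` the claim follows from `hpos`
(`exp ≤ 1`).  Let `v > ε`.  Choose `D ≥ 1` with `nb S ⊆ [-D, D)`, `τ > 0` with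
`log (8 D e) ≤ τ ε/4`, then `n1` large: `p = τ/(n1+1) ≤ 1`, `n1/(n1+1) (v - ε/4) ≥ v - ε/2`, and
(`htyp` with `ε/4`, `η = 2 D r exp (-τ v)`) the volume bound with `Y = exp ((v - ε/4) n1)`.
`typZr`: `Zr p (n1+1) ≤ B^(n1+1) (2 D exp (-p (v-ε/4) n1) + 2 D exp (-τ v))
≤ B^(n1+1) 4 D exp (-τ (v - ε/2)) = B^(n1+1) Q`.  `EG` with `ε' = 1/(n1+1)` (`sysM`,
`sepM` with `w = w' - 1`, `w' = -2 log #A` by `lowM`) and `alongMul` give for `n = j (n1+1)`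
large: `log M n ≤ (j/p) log (2 e Q) = (n/τ)(log (8 D e) - τ (v - ε/2)) ≤ -(v - 3ε/4) n`, so
`mn n z ≥ exp ((v - 3ε/4) n)` for all cells of the domain, i.e. `cntG n b ≥ exp ((v-3ε/4) n)` for
all `b` with `⌊b/r⌋ ∈ nb S` (`mn_le`, `cell_nb`).  For general `n = j (n1+1) + s`, `s ≤ n1`:
`cntG n b ≥ cntG (j (n1+1)) b` (`step1` with `b' = b` if `s ≥ 1`) `≥ exp ((v - 3ε/4)(n - n1 - 1))
≥ exp ((v - ε) n)` for large `n`.
-/

namespace Pool.Agent.Lib.H21X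

open Finset Filter MeasureTheory

private theorem F6_pow (X E T p : ℝ) (hX : 0 < X) (hT : 0 < T) (j : ℕ)
    (hp : 0 < p) (h : X * T * Real.exp (-(j : ℝ)) ≤ X ^ (1 - p) * (T * E ^ j)) :
    X ≤ Real.exp ((j / p) * Real.log (Real.exp 1 * E)) := by
  have h1 : X = X ^ (1 - p) * X ^ p := by
    rw [← Real.rpow_add hX, sub_add_cancel, Real.rpow_one]
  have hX1 : 0 < X ^ (1 - p) := Real.rpow_pos_of_pos hX _
  have h2 : X ^ p * Real.exp (-(j : ℝ)) ≤ E ^ j := by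
    have h3 : X ^ (1 - p) * T * (X ^ p * Real.exp (-(j : ℝ))) ≤ X ^ (1 - p) * T * E ^ j := by
      calc X ^ (1 - p) * T * (X ^ p * Real.exp (-(j : ℝ)))
          = (X ^ (1 - p) * X ^ p) * T * Real.exp (-(j : ℝ)) := by ring
        _ = X * T * Real.exp (-(j : ℝ)) := by rw [← h1]
        _ ≤ X ^ (1 - p) * (T * E ^ j) := h
        _ = X ^ (1 - p) * T * E ^ j := by ring
    exact le_of_mul_le_mul_left h3 (mul_pos hX1 hT)
  have h4 : X ^ p ≤ (Real.exp 1 * E) ^ j := by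
    rw [mul_pow, ← Real.exp_nat_mul, mul_one]
    calc X ^ p = (X ^ p * Real.exp (-(j : ℝ))) * Real.exp (j : ℝ) := by
          rw [mul_assoc, ← Real.exp_add, neg_add_cancel, Real.exp_zero, mul_one]
      _ ≤ E ^ j * Real.exp (j : ℝ) := mul_le_mul_of_nonneg_right h2 (Real.exp_pos _).le
      _ = Real.exp (j : ℝ) * E ^ j := mul_comm _ _
  have h5 : p * Real.log X ≤ j * Real.log (Real.exp 1 * E) := by
    have h6 := Real.log_le_log (Real.rpow_pos_of_pos hX p) h4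
    rwa [Real.log_rpow hX, Real.log_pow] at h6
  rw [← Real.log_le_iff_le_exp hX, div_mul_eq_mul_div, le_div_iff₀ hp]
  linarith

theorem alongMul (B : ℕ) (hB : 2 ≤ B) (A : Finset ℕ) (hA : A ⊆ range B) (u r : ℝ) (hr : 0 < r)
    (S : Finset ℤ) (hS : S.Nonempty)
    (hpos : ∀ (n : ℕ) (b : ℝ), ⌊b / r⌋ ∈ nb S → 1 ≤ cntG B A u r S n b)
    (D : ℕ) (hD1 : 1 ≤ D) (hD : ∀ k ∈ nb S, -(D : ℤ) ≤ k ∧ k < D) (p : ℝ) (hp0 : 0 < p)
    (hp1 : p ≤ 1) (n1 j : ℕ) (hj : 1 ≤ j) (hn1 : 1 ≤ n1) (Q : ℝ) (hQ : 0 < Q)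
    (hZr : Zr B D (am B A u r S) p n1 ≤ (B : ℝ) ^ n1 * Q)
    (hEG : ∀ z : ℤ, am B A u r S (j * n1) z * (B : ℝ) ^ (j * n1) *
      Real.exp (-((1 / (n1 : ℝ)) * ((j * n1 : ℕ) : ℝ))) ≤ Z B D (am B A u r S) 1 (j * n1)) :
    M (am B A u r S) (j * n1) ≤ Real.exp ((j / p) * Real.log (2 * Real.exp 1 * Q)) := by
  have hs := sysM B hB A hA u r hr S hS hpos D hD1 hD
  obtain ⟨z, -, hz⟩ := exists_eq_M hs (j * n1)
  have hX := M_pos hs (j * n1)
  have h1 := hEG z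
  rw [hz] at h1
  have hn0 : (n1 : ℝ) ≠ 0 := by
    have : n1 ≠ 0 := by omega
    exact_mod_cast this
  have h2 : (1 / (n1 : ℝ)) * ((j * n1 : ℕ) : ℝ) = j := by
    push_cast
    field_simp
  rw [h2] at h1
  have h3 := Z_le_Zr B D (am B A u r S) hs.nonneg p hp0 hp1 (j * n1) (M (am B A u r S) (j * n1))
    (fun z => le_M hs (j * n1) z)
  have h4 := Zr_mul B hB A hA u r hr S hpos D hD1 hD p hp0 hp1 n1 j hj
  have hZ0 : 0 ≤ Zr B D (am B A u r S) p n1 :=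
    Finset.sum_nonneg fun z _ => Real.rpow_nonneg (hs.nonneg _ _) _
  have h5 : (2 * Zr B D (am B A u r S) p n1) ^ j ≤ (B : ℝ) ^ (j * n1) * (2 * Q) ^ j := by
    calc (2 * Zr B D (am B A u r S) p n1) ^ j ≤ (2 * ((B : ℝ) ^ n1 * Q)) ^ j :=
          pow_le_pow_left₀ (by linarith) (by linarith) j
      _ = (B : ℝ) ^ (j * n1) * (2 * Q) ^ j := by
          rw [mul_comm j n1, pow_mul, ← mul_pow]
          congr 1
          ring
  have hX1 : 0 < M (am B A u r S) (j * n1) ^ (1 - p) := Real.rpow_pos_of_pos hX _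
  have h6 := h1.trans (h3.trans (mul_le_mul_of_nonneg_left (h4.trans h5) hX1.le))
  have hBpos : (0 : ℝ) < (B : ℝ) ^ (j * n1) := by
    have : (0 : ℝ) < B := by
      have : 0 < B := by omega
      exact_mod_cast this
    positivity
  have h7 := F6_pow (M (am B A u r S) (j * n1)) (2 * Q) ((B : ℝ) ^ (j * n1)) p hX hBpos j
    hp0 h6
  have e : Real.exp 1 * (2 * Q) = 2 * Real.exp 1 * Q := by ring
  rwa [e] at h7

private theorem F6_bound (S : Finset ℤ) :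
    ∃ D : ℕ, 1 ≤ D ∧ ∀ k ∈ nb S, -(D : ℤ) ≤ k ∧ k < D := by
  refine ⟨(nb S).sup Int.natAbs + 1, by omega, fun k hk => ?_⟩
  have h : k.natAbs ≤ (nb S).sup Int.natAbs := Finset.le_sup (f := Int.natAbs) hk
  omega

/-- The growth along the multiples of `n1 + 1`. -/
private theorem F6_mult (hcore : Core) (B : ℕ) (hB : 2 ≤ B) (A : Finset ℕ) (hA : A ⊆ range B)
    (hne : A.Nonempty) (u : ℝ) (hu : Irrational u) (r : ℝ) (hr : 0 < r) (S : Finset ℤ)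
    (hS : S.Nonempty) (lam c0 : ℝ) (hlam : 1 < lam) (hc0 : 0 < c0)
    (hgrow : ∀ (n : ℕ) (b : ℝ), 1 ≤ n → ⌊b / r⌋ ∈ nb S →
      c0 * lam ^ n ≤ (cntG B A u r S n b : ℝ))
    (hpos : ∀ (n : ℕ) (b : ℝ), ⌊b / r⌋ ∈ nb S → 1 ≤ cntG B A u r S n b)
    (v : ℝ)
    (htyp : ∀ ε > 0, ∀ η > 0, ∃ n0 : ℕ, ∀ n : ℕ, n0 ≤ n →
      volume {b : ℝ | ⌊b / r⌋ ∈ nb S ∧ (cntG B A u r S n b : ℝ) < Real.exp ((v - ε) * n)} ≤
        ENNReal.ofReal η) (ε : ℝ) (hε : 0 < ε) (hv : ε < v) :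
    ∃ n1 n2 : ℕ, ∀ j : ℕ, 1 ≤ j → n2 ≤ j * (n1 + 1) → ∀ b : ℝ, ⌊b / r⌋ ∈ nb S →
      Real.exp ((v - 3 * ε / 4) * ((j * (n1 + 1) : ℕ) : ℝ)) ≤
        (cntG B A u r S (j * (n1 + 1)) b : ℝ) := by
  obtain ⟨D, hD1, hD⟩ := F6_bound S
  have hDR : (1 : ℝ) ≤ D := by exact_mod_cast hD1
  have he1 : (1 : ℝ) ≤ Real.exp 1 := Real.one_le_exp (by norm_num)
  set L : ℝ := Real.log (8 * D * Real.exp 1) with hL
  have hbig : (1 : ℝ) < 8 * D * Real.exp 1 := by nlinarith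
  have hL0 : 0 < L := Real.log_pos hbig
  set τ : ℝ := 4 * L / ε with hτ
  have hτ0 : 0 < τ := by positivity
  have hτL : L = τ * ε / 4 := by
    rw [hτ]
    field_simp
  obtain ⟨n0, hn0⟩ := htyp (ε / 4) (by linarith) (2 * D * r * Real.exp (-(τ * v))) (by positivity)
  obtain ⟨n1, hn1a⟩ : ∃ n1 : ℕ, max (n0 : ℝ) (max τ (4 * v / ε)) ≤ n1 := exists_nat_ge _
  have hn1b : n0 ≤ n1 := by exact_mod_cast (le_max_left _ _).trans hn1a
  have hn1c : τ ≤ n1 := ((le_max_left _ _).trans (le_max_right _ _)).trans hn1a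
  have hn1d : 4 * v / ε ≤ n1 := ((le_max_right _ _).trans (le_max_right _ _)).trans hn1a
  have hn1R : (0 : ℝ) ≤ (n1 : ℝ) := Nat.cast_nonneg _
  have hN : (0 : ℝ) < (n1 : ℝ) + 1 := by linarith
  set p : ℝ := τ / ((n1 : ℝ) + 1) with hp
  have hp0 : 0 < p := by positivity
  have hp1 : p ≤ 1 := by
    rw [hp, div_le_one hN]
    linarith
  set Y : ℝ := Real.exp ((v - ε / 4) * n1) with hY
  have hY0 : 0 < Y := Real.exp_pos _
  have hη0 : 0 < 2 * D * r * Real.exp (-(τ * v)) := by positivity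
  have h1 := typZr B hB A hA u r hr S hpos D hD1 p hp0 n1 Y (2 * D * r * Real.exp (-(τ * v)))
    hY0 hη0 (hn0 n1 hn1b)
  set Q : ℝ := 4 * D * Real.exp (-(τ * (v - ε / 2))) with hQ
  have hQ0 : 0 < Q := by positivity
  have hv0 : 0 < v := hε.trans hv
  have h2 : Zr B D (am B A u r S) p (n1 + 1) ≤ (B : ℝ) ^ (n1 + 1) * Q := by
    refine h1.trans (mul_le_mul_of_nonneg_left ?_ (by positivity))
    have h3 : Y ^ (-p) ≤ Real.exp (-(τ * (v - ε / 2))) := by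
      rw [hY, ← Real.exp_mul]
      apply Real.exp_le_exp.mpr
      have h4 : 4 * v ≤ n1 * ε := by
        rwa [div_le_iff₀ hε] at hn1d
      have h5 : (v - ε / 2) * ((n1 : ℝ) + 1) ≤ (v - ε / 4) * n1 := by nlinarith
      have h6 : τ * (v - ε / 2) ≤ (v - ε / 4) * n1 * p := by
        rw [hp, mul_div_assoc', le_div_iff₀ hN]
        calc τ * (v - ε / 2) * ((n1 : ℝ) + 1) = τ * ((v - ε / 2) * ((n1 : ℝ) + 1)) := by ring
          _ ≤ τ * ((v - ε / 4) * n1) := mul_le_mul_of_nonneg_left h5 hτ0.le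
          _ = (v - ε / 4) * n1 * τ := by ring
      linarith
    have h7 : 2 * D * r * Real.exp (-(τ * v)) / r ≤
        2 * D * Real.exp (-(τ * (v - ε / 2))) := by
      have h8 : 2 * D * r * Real.exp (-(τ * v)) / r = 2 * D * Real.exp (-(τ * v)) := by
        field_simp
      rw [h8]
      refine mul_le_mul_of_nonneg_left (Real.exp_le_exp.mpr ?_) (by positivity)
      nlinarith [mul_pos hτ0 hε]
    have h9 : 2 * D * Y ^ (-p) ≤ 2 * D * Real.exp (-(τ * (v - ε / 2))) :=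
      mul_le_mul_of_nonneg_left h3 (by positivity)
    rw [hQ]
    linarith
  have hs := sysM B hB A hA u r hr S hS hpos D hD1 hD
  obtain ⟨c, hc, R, hsep⟩ := sepM B hB A hA u r hr hu S hpos lam c0 hlam hc0 hgrow
  have hlow := lowM B hB A hA hne u r hr S hS hpos
  obtain ⟨n2, hn2⟩ := EG hcore hs (-(2 * Real.log A.card) - 1) c (-(2 * Real.log A.card)) R hc
    (by linarith) (hsep _) hlow (1 / (((n1 + 1 : ℕ)) : ℝ)) (by positivity)
  refine ⟨n1, n2, fun j hj hjn b hb => ?_⟩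
  have h3 := alongMul B hB A hA u r hr S hS hpos D hD1 hD p hp0 hp1 (n1 + 1) j hj (by omega) Q hQ0
    h2 (hn2 _ hjn)
  have h4 : (j / p) * Real.log (2 * Real.exp 1 * Q) =
      -((v - 3 * ε / 4) * ((j * (n1 + 1) : ℕ) : ℝ)) := by
    have e1 : 2 * Real.exp 1 * Q = 8 * D * Real.exp 1 * Real.exp (-(τ * (v - ε / 2))) := by
      rw [hQ]
      ring
    rw [e1, Real.log_mul (by positivity) (by positivity), Real.log_exp, ← hL, hτL, hp]
    push_cast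
    field_simp
    ring
  rw [h4] at h3
  set n : ℕ := j * (n1 + 1) with hn
  set z : ℤ := ⌊(B : ℝ) ^ n * b / r⌋ with hz
  have hzn : z / (B : ℤ) ^ n = ⌊b / r⌋ := cell_nb B (by omega) r n z b hz.symm
  have hz1 : z / (B : ℤ) ^ n ∈ nb S := by
    rw [hzn]
    exact hb
  have h5 : am B A u r S n z ≤ Real.exp (-((v - 3 * ε / 4) * (n : ℝ))) := (le_M hs n z).trans h3
  rw [am, if_pos hz1, Real.exp_neg, one_div] at h5
  have hm1 := mn_pos B (by omega) A u r hr S hpos n z hz1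
  have hm0 : (0 : ℝ) < (mn B A u r S n z : ℝ) := by exact_mod_cast hm1
  have h6 : Real.exp ((v - 3 * ε / 4) * (n : ℝ)) ≤ (mn B A u r S n z : ℝ) :=
    (inv_le_inv₀ hm0 (Real.exp_pos _)).mp h5
  refine h6.trans ?_
  exact Nat.cast_le.mpr (mn_le B A u r S n b)

theorem modeMinus (hcore : Core) (B : ℕ) (hB : 2 ≤ B) (A : Finset ℕ) (hA : A ⊆ range B)
    (hne : A.Nonempty) (u : ℝ) (hu : Irrational u) (r : ℝ) (hr : 0 < r) (S : Finset ℤ)
    (hgrow : ∃ lam > 1, ∃ c0 > 0, ∀ (n : ℕ) (b : ℝ), 1 ≤ n → ⌊b / r⌋ ∈ nb S →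
      c0 * lam ^ n ≤ (cntG B A u r S n b : ℝ))
    (v : ℝ)
    (htyp : ∀ ε > 0, ∀ η > 0, ∃ n0 : ℕ, ∀ n : ℕ, n0 ≤ n →
      volume {b : ℝ | ⌊b / r⌋ ∈ nb S ∧ (cntG B A u r S n b : ℝ) < Real.exp ((v - ε) * n)} ≤
        ENNReal.ofReal η) (ε : ℝ) (hε : 0 < ε) :
    ∃ n0 : ℕ, ∀ n : ℕ, n0 ≤ n → ∀ b : ℝ, ⌊b / r⌋ ∈ nb S →
      Real.exp ((v - ε) * n) ≤ (cntG B A u r S n b : ℝ) := by
  obtain ⟨lam, hlam, c0, hc0, hgr⟩ := hgrow
  have hpos : ∀ (n : ℕ) (b : ℝ), ⌊b / r⌋ ∈ nb S → 1 ≤ cntG B A u r S n b := by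
    intro n b hb
    rcases Nat.eq_zero_or_pos n with hn | hn
    · rw [cntG, if_pos hn]
    · have h1 := hgr n b hn hb
      have h2 : 0 < c0 * lam ^ n := mul_pos hc0 (pow_pos (by linarith) n)
      have h3 : (0 : ℝ) < (cntG B A u r S n b : ℝ) := h2.trans_le h1
      exact_mod_cast h3
  rcases S.eq_empty_or_nonempty with hS | hS
  · refine ⟨0, fun n _ b hb => ?_⟩
    exfalso
    rw [hS] at hb
    simp [nb] at hb
  rcases le_or_gt v ε with hv | hv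
  · refine ⟨0, fun n _ b hb => ?_⟩
    have h1 : Real.exp ((v - ε) * n) ≤ 1 := by
      rw [Real.exp_le_one_iff]
      exact mul_nonpos_of_nonpos_of_nonneg (by linarith) (Nat.cast_nonneg _)
    have h2 : (1 : ℝ) ≤ (cntG B A u r S n b : ℝ) := by exact_mod_cast hpos n b hb
    exact h1.trans h2
  obtain ⟨n1, n2, hmul⟩ := F6_mult hcore B hB A hA hne u hu r hr S hS lam c0 hlam hc0 hgr hpos v
    htyp ε hε hv
  obtain ⟨n3, hn3⟩ : ∃ n3 : ℕ, 4 * (v - 3 * ε / 4) * n1 / ε ≤ n3 := exists_nat_ge _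
  refine ⟨n3 + n2 + n1 + 1, fun n hn b hb => ?_⟩
  obtain ⟨j, s, hdm, hlt⟩ : ∃ j s : ℕ, j * (n1 + 1) + s = n ∧ s < n1 + 1 :=
    ⟨n / (n1 + 1), n % (n1 + 1), by rw [Nat.mul_comm]; exact Nat.div_add_mod n (n1 + 1),
      Nat.mod_lt _ (by omega)⟩
  have hj1 : 1 ≤ j := by
    by_contra hcon
    have hj0 : j = 0 := by omega
    rw [hj0, zero_mul] at hdm
    omega
  have hn2j : n2 ≤ j * (n1 + 1) := by omega
  have h1 := hmul j hj1 hn2j b hb
  have h2 : cntG B A u r S (j * (n1 + 1)) b ≤ cntG B A u r S n b := by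
    rcases Nat.eq_zero_or_pos s with hs0 | hs0
    · have : j * (n1 + 1) = n := by omega
      rw [this]
    · have h3 := step1 B hB A hA u r hr S hpos (j * (n1 + 1)) s hs0 b b hb rfl
      rwa [hdm] at h3
  have h3 : (cntG B A u r S (j * (n1 + 1)) b : ℝ) ≤ (cntG B A u r S n b : ℝ) := by
    exact_mod_cast h2
  refine le_trans (le_trans (Real.exp_le_exp.mpr ?_) h1) h3
  have h4 : (n : ℝ) - n1 ≤ ((j * (n1 + 1) : ℕ) : ℝ) := by
    have : n ≤ j * (n1 + 1) + n1 := by omega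
    have h5 : (n : ℝ) ≤ ((j * (n1 + 1) + n1 : ℕ) : ℝ) := by exact_mod_cast this
    rw [Nat.cast_add] at h5
    linarith
  have hv1 : 0 < v - 3 * ε / 4 := by linarith
  have h5 : (v - 3 * ε / 4) * ((n : ℝ) - n1) ≤ (v - 3 * ε / 4) * ((j * (n1 + 1) : ℕ) : ℝ) :=
    mul_le_mul_of_nonneg_left h4 hv1.le
  refine le_trans ?_ h5
  rw [div_le_iff₀ hε] at hn3
  have h6 : (n3 : ℝ) ≤ n := by
    have : n3 ≤ n := by omega
    exact_mod_cast this
  nlinarith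

end Pool.Agent.Lib.H21X
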