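import Pool.Agent.Lib.H21X.E5
import Pool.Agent.Lib.H21X.F6
import Pool.Agent.Lib.H59Q.CdBasic
import Pool.Agent.Lib.H79KC.G5

/-!
# The two interfaces of part (II) from the core theorem
-/

namespace Pool.Agent.Lib.H21X

open Finset Filter MeasureTheory

theorem core_holds : Core := by
  intro κ c hκ hκ1 hc hc1
  obtain ⟨σ, hσ, h⟩ := H79KC.core hκ hκ1 hc hc1
  refine ⟨σ, hσ, fun γ hγ => ?_⟩
  obtain ⟨b0, h⟩ := h γ hγ
  refine ⟨b0, fun b hb => ?_⟩
  obtain ⟨ε, hε, N0, h⟩ := h b hb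
  exact ⟨ε, hε, N0, fun N hN U A hU hA hcard hthin => h N hN U A hU hA hcard
    (fun R A' hA' hne hreg hbig => hthin R A' hA' hne hreg hbig)⟩

theorem bridge_Cd (B : ℕ) (A : Finset ℕ) (n : ℕ) : H59Q.Cd B A n = Cd B A n := by
  induction n with
  | zero => rfl
  | succ n ih =>
    show ((H59Q.Cd B A n) ×ˢ A).image (fun p => B * p.1 + p.2) = _
    rw [ih]
    rfl

theorem upperGrowth : H59Q.UpperGrowth := by
  intro B A t W ε hB hA hne ht _ hε
  have hA' : A ⊆ range B := fun a ha => Finset.mem_range.2 (hA a ha)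
  obtain ⟨Cc, hCc⟩ := modePlus core_holds B hB A hA' hne t ht W ε hε
  refine ⟨max Cc 1, lt_max_of_lt_right one_pos, fun n h => ?_⟩
  have h1 := hCc n h
  have h2 : (0 : ℝ) ≤ (max 1 ((A.card : ℝ) ^ 2 / B)) ^ n := by positivity
  have h3 : (0 : ℝ) ≤ (B : ℝ) ^ (ε * n) := by positivity
  refine le_trans ?_ (mul_le_mul_of_nonneg_right (mul_le_mul_of_nonneg_right
    (le_max_left Cc 1) h2) h3)
  refine le_trans (le_of_eq ?_) h1
  norm_cast
  rw [bridge_Cd]

theorem bridge_X (ρ : ℝ) (S : Finset ℤ) (b : ℝ) : b ∈ H59Q.Xset ρ S ↔ ⌊b / ρ⌋ ∈ nb S := by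
  show (⌊b / ρ⌋ ∈ S ∨ ⌊b / ρ⌋ + 1 ∈ S ∨ ⌊b / ρ⌋ - 1 ∈ S) ↔ _
  unfold nb
  simp only [Finset.mem_union, Finset.mem_image]
  constructor
  · rintro (h | h | h)
    · exact Or.inl (Or.inl h)
    · exact Or.inr ⟨_, h, by ring⟩
    · exact Or.inl (Or.inr ⟨_, h, by ring⟩)
  · rintro ((h | ⟨k, hk, e⟩) | ⟨k, hk, e⟩)
    · exact Or.inl h
    · right; right
      rw [← e]
      simpa using hk
    · right; left
      rw [← e]
      simpa using hk

theorem bridge_cnt (K : ℕ) (u ρ : ℝ) (S : Finset ℤ) (n : ℕ) (hn : 1 ≤ n) (b : ℝ) :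
    H59Q.cnt u (H59Q.Gset ρ S) (K * n) b = cntG (3 ^ K) (H59Q.C K) u ρ S n b := by
  classical
  have hn0 : n ≠ 0 := by omega
  unfold H59Q.cnt cntG
  rw [if_neg hn0, ← bridge_Cd, H59Q.C_pow]
  congr 1
  ext p
  simp only [Finset.mem_filter, Finset.mem_product]
  have e : ((3 ^ K : ℕ) : ℝ) ^ n * b - ((p.2 : ℝ) + u * p.1) = (3 : ℝ) ^ (K * n) * b - p.2 - u * p.1 := by
    push_cast
    rw [pow_mul]
    ring
  rw [e]
  rfl

theorem lowerGrowth : H59Q.LowerGrowth := by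
  intro K u ρ c lam S hK hu hu0 hρ hc hlam hgrow htyp ε hε
  have hB : 2 ≤ 3 ^ K := by
    calc 2 ≤ 3 ^ 1 := by norm_num
      _ ≤ 3 ^ K := Nat.pow_le_pow_right (by norm_num) hK
  have hA : H59Q.C K ⊆ range (3 ^ K) := fun a ha =>
    Finset.mem_range.2 (H59Q.Cd_lt H59Q.C_digits ha)
  have hne : (H59Q.C K).Nonempty := by
    rw [← Finset.card_pos, H59Q.card_C]
    positivity
  have hl3 : 0 < Real.log 3 := Real.log_pos (by norm_num)
  have hKl : 0 < (K : ℝ) * Real.log 3 := by positivity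
  have hexp : ∀ (n : ℕ) (e : ℝ), (3 : ℝ) ^ (((K * n : ℕ) : ℝ) * (H59Q.s0 - e)) =
      Real.exp ((K * Real.log 3 * H59Q.s0 - K * Real.log 3 * e) * n) := by
    intro n e
    rw [Real.rpow_def_of_pos (by norm_num)]
    congr 1
    push_cast
    ring
  have key := modeMinus core_holds (3 ^ K) hB (H59Q.C K) hA hne u hu ρ hρ S
    ⟨lam, hlam, c, hc, fun n b hn hb => by
      rw [← bridge_cnt K u ρ S n hn b]
      exact hgrow n hn b ((bridge_X ρ S b).2 hb)⟩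
    (K * Real.log 3 * H59Q.s0) ?_ (K * Real.log 3 * ε) (by positivity)
  · obtain ⟨n0, hn0⟩ := key
    refine ⟨max n0 1, fun n hn b hb => ?_⟩
    have h1 := hn0 n (le_trans (le_max_left _ _) hn) b ((bridge_X ρ S b).1 hb)
    rw [bridge_cnt K u ρ S n (le_trans (le_max_right _ _) hn) b, hexp]
    exact h1
  · intro ε' hε' η hη
    obtain ⟨n0, hn0⟩ := htyp (ε' / (K * Real.log 3)) (by positivity) η hη
    refine ⟨max n0 1, fun n hn => ?_⟩
    have h1 := hn0 n (le_trans (le_max_left _ _) hn)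
    refine le_trans (measure_mono ?_) h1
    rintro b ⟨hb1, hb2⟩
    refine ⟨(bridge_X ρ S b).2 hb1, ?_⟩
    rw [bridge_cnt K u ρ S n (le_trans (le_max_right _ _) hn) b, hexp]
    have e : K * Real.log 3 * (ε' / (K * Real.log 3)) = ε' := by
      field_simp
    rw [e]
    exact hb2

end Pool.Agent.Lib.H21X
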