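import Pool.Agent.Lib.H21X.Defs

/-!
# Chunk C1: fibres of regular trees

PROOF of `fibre_card`.  Induction on `h`: `h = 0`: `x / b^0 = x`, the filter is `{y}`.
`h + 1 ≤ N`: the `x ∈ A` with `x / b^(h+1) = y` are cut by `y' = x / b^h`, which runs exactly
through the `y' ∈ A.image (· / b^h)` with `y' / b = y` (`Nat.div_div_eq_div_mul`,
`b^(h+1) = b^h * b`); there are `R h` such `y'` (`IsReg`) and each contributes
`∏ i ∈ range h, R i` (induction).  `card_eq`: `h = N`, `y = 0` (all `x < b^N`).
`R_pos`: the image is nonempty, and a prefix `y` has at least one child.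
-/

namespace Pool.Agent.Lib.H21X

open Finset Filter

theorem fibre_card (b N : ℕ) (hb : 1 ≤ b) (R : ℕ → ℕ) (A : Finset ℕ) (hreg : IsReg b N R A)
    (h : ℕ) (hh : h ≤ N) (y : ℕ) (hy : y ∈ A.image (fun x => x / b ^ h)) :
    (A.filter (fun x => x / b ^ h = y)).card = ∏ i ∈ range h, R i := by
  induction h generalizing y with
  | zero =>
    simp only [pow_zero, Nat.div_one, Finset.image_id', Finset.range_zero, Finset.prod_empty] at hy ⊢
    rw [Finset.card_eq_one]
    refine ⟨y, ?_⟩
    ext x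
    simp only [Finset.mem_filter, Finset.mem_singleton]
    constructor
    · exact fun hx => hx.2
    · intro hx
      subst hx
      exact ⟨hy, rfl⟩
  | succ h ih =>
    have hdiv : ∀ x : ℕ, x / b ^ h / b = x / b ^ (h + 1) := fun x => by
      rw [Nat.div_div_eq_div_mul, pow_succ]
    have key := Finset.card_eq_sum_card_fiberwise
      (s := A.filter (fun x => x / b ^ (h + 1) = y))
      (t := (A.image (fun x => x / b ^ h)).filter (fun x => x / b = y))
      (f := fun x => x / b ^ h) (by
        intro x hx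
        have hx' := Finset.mem_filter.mp (Finset.mem_coe.mp hx)
        refine Finset.mem_coe.mpr (Finset.mem_filter.mpr ⟨Finset.mem_image_of_mem _ hx'.1, ?_⟩)
        change x / b ^ h / b = y
        rw [hdiv]
        exact hx'.2)
    rw [key, Finset.prod_range_succ, mul_comm, ← hreg h (by omega) y hy, ← smul_eq_mul,
      ← Finset.sum_const]
    refine Finset.sum_congr rfl fun y' hy' => ?_
    have hy1 := (Finset.mem_filter.mp hy').1
    have hy2 := (Finset.mem_filter.mp hy').2
    rw [← ih (by omega) y' hy1, Finset.filter_filter]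
    congr 1
    refine Finset.filter_congr fun x _ => ?_
    constructor
    · exact fun hx => hx.2
    · intro hx
      refine ⟨?_, hx⟩
      rw [← hdiv, hx]
      exact hy2

theorem card_eq (b N : ℕ) (hb : 1 ≤ b) (R : ℕ → ℕ) (A : Finset ℕ) (hA : A ⊆ range (b ^ N))
    (hne : A.Nonempty) (hreg : IsReg b N R A) : A.card = ∏ i ∈ range N, R i := by
  have h0 : ∀ x ∈ A, x / b ^ N = 0 := fun x hx =>
    Nat.div_eq_of_lt (Finset.mem_range.mp (hA hx))
  have hmem : (0 : ℕ) ∈ A.image (fun x => x / b ^ N) := by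
    obtain ⟨x, hx⟩ := hne
    exact Finset.mem_image.mpr ⟨x, hx, h0 x hx⟩
  rw [← fibre_card b N hb R A hreg N le_rfl 0 hmem, Finset.filter_true_of_mem h0]

theorem R_pos (b N : ℕ) (hb : 1 ≤ b) (R : ℕ → ℕ) (A : Finset ℕ)
    (hne : A.Nonempty) (hreg : IsReg b N R A) (h : ℕ) (hh : h < N) : 1 ≤ R h := by
  obtain ⟨x, hx⟩ := hne
  rw [← hreg h hh (x / b ^ (h + 1)) (Finset.mem_image_of_mem _ hx), Nat.one_le_iff_ne_zero,
    ← Nat.pos_iff_ne_zero, Finset.card_pos]
  refine ⟨x / b ^ h, Finset.mem_filter.mpr ⟨Finset.mem_image_of_mem _ hx, ?_⟩⟩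
  rw [Nat.div_div_eq_div_mul, pow_succ]

end Pool.Agent.Lib.H21X
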