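import Pool.Agent.Lib.H21X.C1

/-!
# Chunk C2: Jensen's inequality on a regular tree

`g h y > 0` is the value at the prefix `y` of height `h`.

PROOF.  Fix `h < N`.  For a prefix `y` of height `h + 1` let `C(y)` be the set of its `R h`
children `y'` (prefixes of height `h` with `y' / b = y`).  `log` is concave:
`∑_{y' ∈ C(y)} r log (g h y' / g (h+1) y) = ∑ log ((g h y' / g (h+1) y)^r)
 ≤ R h * log ((1 / R h) ∑ (g h y' / g (h+1) y)^r) ≤ R h * (log Φ - log (R h))` by `hΦ`
(`strictConcaveOn_log_Ioi.concaveOn.le_map_sum` with weights `1 / R h`; `Real.log_le_log`).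
Every `y'` of height `h` is the prefix of exactly `F = ∏ i ∈ range h, R i` elements of `A`
(`fibre_card`), so the sum over `x ∈ A` of `r (log g h (x/b^h) - log g (h+1) (x/b^(h+1)))` is
`F ∑_y ∑_{y' ∈ C(y)} ... ≤ F * #(prefixes of height h+1) * R h * (log Φ - log (R h))
 = #A (log Φ - log (R h))` (each `y` has `R h * F` elements of `A` above it, `fibre_card` for
`h + 1` and `Finset.prod_range_succ`; `Finset.card_eq_sum_card_fiberwise`).
-/

namespace Pool.Agent.Lib.H21X

open Finset Filter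

theorem tree_jensen (b N : ℕ) (hb : 1 ≤ b) (R : ℕ → ℕ) (A : Finset ℕ) (hne : A.Nonempty)
    (hreg : IsReg b N R A) (g : ℕ → ℕ → ℝ) (h : ℕ) (hh : h < N)
    (hg0 : ∀ y ∈ A.image (fun x => x / b ^ h), 0 < g h y)
    (hg1 : ∀ y ∈ A.image (fun x => x / b ^ (h + 1)), 0 < g (h + 1) y)
    (r : ℕ) (hr : 1 ≤ r) (Φ : ℝ) (hΦ0 : 0 < Φ)
    (hΦ : ∀ y ∈ A.image (fun x => x / b ^ (h + 1)),
      ∑ y' ∈ (A.image (fun x => x / b ^ h)).filter (fun x => x / b = y), g h y' ^ r ≤
        g (h + 1) y ^ r * Φ) :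
    (A.card : ℝ) * Real.log (R h) + r * ∑ x ∈ A,
      (Real.log (g h (x / b ^ h)) - Real.log (g (h + 1) (x / b ^ (h + 1)))) ≤
        (A.card : ℝ) * Real.log Φ := by
  classical
  have hR : 1 ≤ R h := R_pos b N hb R A hne hreg h hh
  have hR0 : (0 : ℝ) < R h := by exact_mod_cast hR
  have hdiv : ∀ x : ℕ, x / b ^ h / b = x / b ^ (h + 1) := fun x => by
    rw [Nat.div_div_eq_div_mul, pow_succ]
  set F : ℕ := ∏ i ∈ range h, R i with hF
  -- the pointwise inequality
  have hpt : ∀ x ∈ A, Real.log (R h) + r * (Real.log (g h (x / b ^ h)) -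
      Real.log (g (h + 1) (x / b ^ (h + 1)))) ≤ Real.log Φ +
        (g h (x / b ^ h) ^ r / g (h + 1) (x / b ^ (h + 1)) ^ r * (R h / Φ) - 1) := by
    intro x hx
    have h0 := hg0 (x / b ^ h) (Finset.mem_image_of_mem _ hx)
    have h1 := hg1 (x / b ^ (h + 1)) (Finset.mem_image_of_mem _ hx)
    have h0' : 0 < g h (x / b ^ h) ^ r := pow_pos h0 r
    have h1' : 0 < g (h + 1) (x / b ^ (h + 1)) ^ r := pow_pos h1 r
    have hpos : 0 < g h (x / b ^ h) ^ r / g (h + 1) (x / b ^ (h + 1)) ^ r * (R h / Φ) := by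
      positivity
    have hl := Real.log_le_sub_one_of_pos hpos
    rw [Real.log_mul (by positivity) (by positivity), Real.log_div h0'.ne' h1'.ne',
      Real.log_div hR0.ne' hΦ0.ne', Real.log_pow, Real.log_pow] at hl
    linarith
  -- the sum of the quotients
  have hq : ∑ x ∈ A, g h (x / b ^ h) ^ r / g (h + 1) (x / b ^ (h + 1)) ^ r ≤
      (A.card : ℝ) * (Φ / R h) := by
    have hm1 : ∀ x ∈ A, x / b ^ (h + 1) ∈ A.image (fun x => x / b ^ (h + 1)) := fun x hx =>
      Finset.mem_image_of_mem _ hx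
    rw [← Finset.sum_fiberwise_of_maps_to hm1,
      Finset.card_eq_sum_card_fiberwise (f := fun x => x / b ^ (h + 1))
        (t := A.image (fun x => x / b ^ (h + 1))) (fun x hx => hm1 x hx), Nat.cast_sum,
      Finset.sum_mul]
    refine Finset.sum_le_sum fun y hy => ?_
    rw [fibre_card b N hb R A hreg (h + 1) hh y hy, Finset.prod_range_succ, ← hF]
    have hy1 : 0 < g (h + 1) y := hg1 y hy
    have hy1' : 0 < g (h + 1) y ^ r := pow_pos hy1 r
    have hm2 : ∀ x ∈ A.filter (fun x => x / b ^ (h + 1) = y),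
        x / b ^ h ∈ (A.image (fun x => x / b ^ h)).filter (fun x => x / b = y) := by
      intro x hx
      have hx' := Finset.mem_filter.mp hx
      refine Finset.mem_filter.mpr ⟨Finset.mem_image_of_mem _ hx'.1, ?_⟩
      rw [hdiv]
      exact hx'.2
    rw [← Finset.sum_fiberwise_of_maps_to hm2]
    have hin : ∀ y' ∈ (A.image (fun x => x / b ^ h)).filter (fun x => x / b = y),
        ∑ x ∈ (A.filter (fun x => x / b ^ (h + 1) = y)).filter (fun x => x / b ^ h = y'),
          g h (x / b ^ h) ^ r / g (h + 1) (x / b ^ (h + 1)) ^ r =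
        (F : ℝ) * (g h y' ^ r / g (h + 1) y ^ r) := by
      intro y' hy'
      have hy1 := (Finset.mem_filter.mp hy').1
      have hy2 := (Finset.mem_filter.mp hy').2
      have hset : (A.filter (fun x => x / b ^ (h + 1) = y)).filter (fun x => x / b ^ h = y') =
          A.filter (fun x => x / b ^ h = y') := by
        rw [Finset.filter_filter]
        refine Finset.filter_congr fun x _ => ?_
        constructor
        · exact fun hx => hx.2
        · intro hx
          refine ⟨?_, hx⟩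
          rw [← hdiv, hx]
          exact hy2
      rw [hset, hF, ← fibre_card b N hb R A hreg h hh.le y' hy1, ← nsmul_eq_mul,
        ← Finset.sum_const]
      refine Finset.sum_congr rfl fun x hx => ?_
      have hx' := (Finset.mem_filter.mp hx).2
      rw [← hdiv x, hx', hy2]
    rw [Finset.sum_congr rfl hin, ← Finset.mul_sum, ← Finset.sum_div]
    have hs := hΦ y hy
    have hle : (∑ y' ∈ (A.image (fun x => x / b ^ h)).filter (fun x => x / b = y),
        g h y' ^ r) / g (h + 1) y ^ r ≤ Φ := by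
      rw [div_le_iff₀ hy1']
      linarith
    have hF0 : (0 : ℝ) ≤ (F : ℝ) := Nat.cast_nonneg _
    calc (F : ℝ) * ((∑ y' ∈ (A.image (fun x => x / b ^ h)).filter (fun x => x / b = y),
        g h y' ^ r) / g (h + 1) y ^ r) ≤ (F : ℝ) * Φ := mul_le_mul_of_nonneg_left hle hF0
      _ = ((F * R h : ℕ) : ℝ) * (Φ / R h) := by
        push_cast
        field_simp
  have hsum := Finset.sum_le_sum hpt
  rw [Finset.sum_add_distrib, Finset.sum_add_distrib, Finset.sum_const, Finset.sum_const,
    Finset.sum_sub_distrib, Finset.sum_const, ← Finset.mul_sum, ← Finset.sum_mul,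
    nsmul_eq_mul, nsmul_eq_mul, nsmul_eq_mul] at hsum
  have hq' : (∑ x ∈ A, g h (x / b ^ h) ^ r / g (h + 1) (x / b ^ (h + 1)) ^ r) * (R h / Φ) ≤
      A.card := by
    calc (∑ x ∈ A, g h (x / b ^ h) ^ r / g (h + 1) (x / b ^ (h + 1)) ^ r) * (R h / Φ) ≤
        (A.card : ℝ) * (Φ / R h) * (R h / Φ) := mul_le_mul_of_nonneg_right hq (by positivity)
      _ = A.card := by field_simp
  linarith

end Pool.Agent.Lib.H21X
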