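import Pool.Agent.Lib.H21X.Defs

/-!
# Chunk C3: counting the thick heights (real arithmetic)

`Kh h = log (R h)`, `v h` = mean of the logarithm of the ratio at the height `h`.

PROOF.  Let `T` be the set of thick heights, `1 ≤ #T` w.l.o.g.  For `h ∈ T`: from
`Kh h + v h ≤ L1` and `Kh h > κ'`: `Kh h + q v h ≤ Kh h + q (L1 - Kh h) = q L1 - (q-1) Kh h
 ≤ q L1 - (q-1) κ' ≤ Lq - G` by `hG`.  For the other heights `Kh h + q v h ≤ Lq`.  So
`N Lq - E ≤ ∑ (Kh h + q v h) ≤ N Lq - #T G`, i.e. `#T G ≤ E`.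
-/

namespace Pool.Agent.Lib.H21X

open Finset Filter

theorem thick_count (N : ℕ) (Kh v : ℕ → ℝ) (q : ℕ) (hq : 1 ≤ q) (L1 Lq G E κ' : ℝ)
    (h1 : ∀ h < N, Kh h + v h ≤ L1) (h2 : ∀ h < N, Kh h + q * v h ≤ Lq)
    (hG : G ≤ Lq - (q * L1 - (q - 1) * κ'))
    (hsum : N * Lq - E ≤ ∑ h ∈ range N, (Kh h + q * v h)) :
    (((range N).filter (fun h => κ' < Kh h)).card : ℝ) * G ≤ E := by
  have hq' : (1 : ℝ) ≤ (q : ℝ) := by exact_mod_cast hq
  have hterm : ∀ h ∈ range N, Kh h + q * v h ≤ Lq - (if κ' < Kh h then G else 0) := by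
    intro h hh
    have hN : h < N := Finset.mem_range.mp hh
    by_cases hk : κ' < Kh h
    · rw [if_pos hk]
      have a := h1 h hN
      have b : (q : ℝ) * v h ≤ q * (L1 - Kh h) :=
        mul_le_mul_of_nonneg_left (by linarith) (by linarith)
      have c : (q - 1 : ℝ) * κ' ≤ (q - 1) * Kh h :=
        mul_le_mul_of_nonneg_left hk.le (by linarith)
      nlinarith [a, b, c, hG]
    · rw [if_neg hk, sub_zero]
      exact h2 h hN
  have hs := Finset.sum_le_sum hterm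
  rw [Finset.sum_sub_distrib, ← Finset.sum_filter, Finset.sum_const, Finset.sum_const,
    Finset.card_range, nsmul_eq_mul, nsmul_eq_mul] at hs
  linarith

end Pool.Agent.Lib.H21X
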