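import Pool.Agent.Lib.H21X.A2
import Pool.Agent.Lib.H21X.A3
import Pool.Agent.Lib.H21X.C2
import Pool.Agent.Lib.H21X.C3

/-!
# Chunk C4: regular subtrees of a level set are thin

`b = B^l`, `m = l N`, `A'` is a regular subset of `[0, b^N)` on which
`lam / 2 < α m (k B^m + a)`.

PROOF.  For a height `h ≤ N` and a prefix `y` put
`g h y = α (l (N - h)) (k b^(N-h) + y)` (integers).  For `x ∈ A'` all values `g h (x / b^h)` are
positive: `g 0 x > lam / 2 > 0`, and if `g (h+1) (x / b^(h+1)) = 0` then by `hs.step` (cell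
`z0 = k b^(N-h-1) + x / b^(h+1)` of scale `l (N-h-1)`, `m = l`, `y = (x / b^h) % b`, note
`b z0 + y = k b^(N-h) + x / b^h` by `Nat.div_div_eq_div_mul` and `Nat.div_add_mod`)
`g h (x / b^h) ≤ 0`.  The hypothesis `hΦ` of `tree_jensen` with `Φ = 2^r Z B D α r l` is
`block_bound` for this `z0` (the children `y'` of `y` are `b y + d`, `d < b`; drop the other `d`,
the summands are `≥ 0`).  So with `v h = (1/#A') ∑_{x ∈ A'} (log g h (x/b^h) -
log g (h+1) (x/b^(h+1)))` we get `log (R h) + r v h ≤ log (2^r Z r l)` for `r = 1` and `r = q`.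
Sum over the heights: `∑_h log (R h) = log #A'` (`card_eq`, `R_pos`), and the sum of the
`v h` telescopes to `(1/#A') ∑_{x ∈ A'} (log g 0 x - log g N 0)`
`≥ log (lam/2) - log (M α 0)` (for `h = N`: `x / b^N = 0`, `g N 0 = α 0 k ≤ M α 0`).  So
`∑_h (log R h + q v h) ≥ log #A' + q log (lam/2) - q log (M α 0)`.  Now `thick_count` with
`κ' = (1 - κ) log b`, `L1 = log (2 Z 1 l)`, `Lq = log (2^q Z q l)`,
`E = N Lq - (log #A' + q log (lam/2) - q log (M α 0))`.
The set `{h | b^(1-κ) < R h}` is `{h | (1-κ) log b < log (R h)}` (`Real.log_rpow`,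
`Real.log_lt_log_iff`, `R_pos`).
-/

namespace Pool.Agent.Lib.H21X

open Finset Filter

/-- The value at the prefix `y` of height `h`. -/
private noncomputable def c4G (B : ℕ) (α : ℕ → ℤ → ℝ) (l N : ℕ) (k : ℤ) (h y : ℕ) : ℝ :=
  α (l * (N - h)) (k * (B : ℤ) ^ (l * (N - h)) + (y : ℤ))

private theorem c4_exp (l N h : ℕ) (hh : h < N) : l * (N - h) = l * (N - (h + 1)) + l := by
  have : N - h = (N - (h + 1)) + 1 := by omega
  rw [this]
  ring

private theorem c4_cell (B l N : ℕ) (k : ℤ) (h y : ℕ) (hh : h < N) :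
    (B : ℤ) ^ l * (k * (B : ℤ) ^ (l * (N - (h + 1))) + ((y / B ^ l : ℕ) : ℤ)) +
      ((y % B ^ l : ℕ) : ℤ) = k * (B : ℤ) ^ (l * (N - h)) + (y : ℤ) := by
  have h1 : ((B ^ l * (y / B ^ l) + y % B ^ l : ℕ) : ℤ) = ((y : ℕ) : ℤ) := by
    rw [Nat.div_add_mod]
  rw [c4_exp l N h hh, pow_add]
  push_cast at h1 ⊢
  linear_combination h1

private theorem c4_pos {B D : ℕ} {α : ℕ → ℤ → ℝ} (hs : Sys B D α) (l N : ℕ) (k : ℤ) (x : ℕ)
    (hx : 0 < α (l * N) (k * (B : ℤ) ^ (l * N) + (x : ℤ))) (h : ℕ) (hh : h ≤ N) :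
    0 < c4G B α l N k h (x / (B ^ l) ^ h) := by
  have hB : 0 < B := by have := hs.two_le; omega
  have hb : 0 < B ^ l := pow_pos hB l
  induction h with
  | zero => simpa [c4G] using hx
  | succ h ih =>
    have ih' := ih (by omega)
    have hlt : h < N := by omega
    rcases (hs.nonneg (l * (N - (h + 1))) (k * (B : ℤ) ^ (l * (N - (h + 1))) +
      ((x / (B ^ l) ^ (h + 1) : ℕ) : ℤ))).lt_or_eq with h1 | h1
    · exact h1
    · exfalso
      obtain ⟨K, hK, u, hu⟩ := hs.step (l * (N - (h + 1))) l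
        (k * (B : ℤ) ^ (l * (N - (h + 1))) + ((x / (B ^ l) ^ (h + 1) : ℕ) : ℤ))
      have hmem : ((x / (B ^ l) ^ h % B ^ l : ℕ) : ℤ) ∈ Finset.Ico (0 : ℤ) ((B : ℤ) ^ l) := by
        rw [Finset.mem_Ico]
        refine ⟨by positivity, ?_⟩
        have := Nat.mod_lt (x / (B ^ l) ^ h) hb
        exact_mod_cast this
      have h2 := hu _ hmem
      rw [← h1, zero_mul] at h2
      have h3 : x / (B ^ l) ^ (h + 1) = x / (B ^ l) ^ h / B ^ l := by
        rw [Nat.div_div_eq_div_mul, pow_succ]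
      rw [h3, c4_cell B l N k h _ hlt, ← c4_exp l N h hlt] at h2
      exact absurd h2 (not_le.mpr ih')

private theorem c4_block {B D : ℕ} {α : ℕ → ℤ → ℝ} (hs : Sys B D α) (l N : ℕ) (k : ℤ)
    (A' : Finset ℕ) (h : ℕ) (hh : h < N) (r : ℕ) (hr : 1 ≤ r) (y : ℕ) :
    ∑ y' ∈ (A'.image (fun x => x / (B ^ l) ^ h)).filter (fun x => x / (B ^ l) = y),
      c4G B α l N k h y' ^ r ≤ c4G B α l N k (h + 1) y ^ r * (2 ^ r * Z B D α r l) := by
  have hB : 0 < B := by have := hs.two_le; omega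
  have hb : 0 < B ^ l := pow_pos hB l
  have hbb := block_bound hs hr (l * (N - (h + 1))) l
    (k * (B : ℤ) ^ (l * (N - (h + 1))) + (y : ℤ))
  refine le_trans ?_ hbb
  set S := (A'.image (fun x => x / (B ^ l) ^ h)).filter (fun x => x / (B ^ l) = y) with hS
  have hSy : ∀ y' ∈ S, y' / B ^ l = y := fun y' hy' => (Finset.mem_filter.mp hy').2
  have hinj : Set.InjOn (fun y' : ℕ => ((y' % B ^ l : ℕ) : ℤ)) (S : Set ℕ) := by
    intro a ha b hb' hab
    have h1 := hSy a ha
    have h2 := hSy b hb'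
    have hab' : ((a % B ^ l : ℕ) : ℤ) = ((b % B ^ l : ℕ) : ℤ) := hab
    have h3 : a % B ^ l = b % B ^ l := by exact_mod_cast hab'
    have h4 := Nat.div_add_mod a (B ^ l)
    have h5 := Nat.div_add_mod b (B ^ l)
    rw [← h4, ← h5, h1, h2, h3]
  calc ∑ y' ∈ S, c4G B α l N k h y' ^ r
      = ∑ y' ∈ S, (fun d : ℤ => α (l * (N - (h + 1)) + l)
          ((B : ℤ) ^ l * (k * (B : ℤ) ^ (l * (N - (h + 1))) + (y : ℤ)) + d) ^ r)
          ((y' % B ^ l : ℕ) : ℤ) := by
        refine Finset.sum_congr rfl fun y' hy' => ?_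
        have h1 := c4_cell B l N k h y' hh
        rw [hSy y' hy'] at h1
        simp only
        rw [h1, ← c4_exp l N h hh]
        rfl
    _ = ∑ d ∈ S.image (fun y' : ℕ => ((y' % B ^ l : ℕ) : ℤ)), (fun d : ℤ =>
          α (l * (N - (h + 1)) + l)
          ((B : ℤ) ^ l * (k * (B : ℤ) ^ (l * (N - (h + 1))) + (y : ℤ)) + d) ^ r) d := by
        rw [Finset.sum_image hinj]
    _ ≤ ∑ d ∈ Finset.Ico (0 : ℤ) ((B : ℤ) ^ l), α (l * (N - (h + 1)) + l)
          ((B : ℤ) ^ l * (k * (B : ℤ) ^ (l * (N - (h + 1))) + (y : ℤ)) + d) ^ r := by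
        refine Finset.sum_le_sum_of_subset_of_nonneg ?_
          (fun d _ _ => pow_nonneg (hs.nonneg _ _) _)
        intro d hd
        obtain ⟨y', _, rfl⟩ := Finset.mem_image.mp hd
        rw [Finset.mem_Ico]
        refine ⟨by positivity, ?_⟩
        have := Nat.mod_lt y' hb
        exact_mod_cast this

theorem thin {B D : ℕ} {α : ℕ → ℤ → ℝ} (hs : Sys B D α) {q : ℕ} (hq : 1 ≤ q) (l N : ℕ)
    (hl : 1 ≤ l) (k : ℤ) (R : ℕ → ℕ) (A' : Finset ℕ) (hA : A' ⊆ range ((B ^ l) ^ N))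
    (hne : A'.Nonempty) (hreg : IsReg (B ^ l) N R A') (lam : ℝ) (hlam : 0 < lam)
    (hα : ∀ a ∈ A', lam / 2 < α (l * N) (k * (B : ℤ) ^ (l * N) + (a : ℤ)))
    (κ G : ℝ)
    (hG : G ≤ Real.log (2 ^ q * Z B D α q l) -
      (q * Real.log (2 * Z B D α 1 l) - (q - 1) * ((1 - κ) * (l * Real.log B)))) :
    (((range N).filter (fun h => ((B ^ l : ℕ) : ℝ) ^ (1 - κ) < R h)).card : ℝ) * G ≤
      N * Real.log (2 ^ q * Z B D α q l) -
        (Real.log A'.card + q * Real.log (lam / 2) - q * Real.log (M α 0)) := by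
  have hB : 0 < B := by have := hs.two_le; omega
  have hb : 1 ≤ B ^ l := Nat.one_le_pow _ _ hB
  have hc : (0 : ℝ) < (A'.card : ℝ) := by exact_mod_cast hne.card_pos
  have hpos : ∀ x ∈ A', ∀ h ≤ N, 0 < c4G B α l N k h (x / (B ^ l) ^ h) := by
    intro x hx h hh
    exact c4_pos hs l N k x (lt_trans (by positivity) (hα x hx)) h hh
  have hg0 : ∀ h ≤ N, ∀ y ∈ A'.image (fun x => x / (B ^ l) ^ h), 0 < c4G B α l N k h y := by
    intro h hh y hy
    obtain ⟨x, hx, rfl⟩ := Finset.mem_image.mp hy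
    exact hpos x hx h hh
  have hJ : ∀ r : ℕ, 1 ≤ r → ∀ h < N, (A'.card : ℝ) * Real.log (R h) + r * ∑ x ∈ A',
      (Real.log (c4G B α l N k h (x / (B ^ l) ^ h)) -
        Real.log (c4G B α l N k (h + 1) (x / (B ^ l) ^ (h + 1)))) ≤
        (A'.card : ℝ) * Real.log (2 ^ r * Z B D α r l) := by
    intro r hr h hh
    exact tree_jensen (B ^ l) N hb R A' hne hreg (c4G B α l N k) h hh (hg0 h hh.le)
      (hg0 (h + 1) hh) r hr _ (mul_pos (by positivity) (Z_pos hs r l))
      (fun y _ => c4_block hs l N k A' h hh r hr y)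
  set v : ℕ → ℝ := fun h => (1 / (A'.card : ℝ)) * ∑ x ∈ A',
      (Real.log (c4G B α l N k h (x / (B ^ l) ^ h)) -
        Real.log (c4G B α l N k (h + 1) (x / (B ^ l) ^ (h + 1)))) with hv
  have hJv : ∀ r : ℕ, 1 ≤ r → ∀ h < N, Real.log (R h) + r * v h ≤
      Real.log (2 ^ r * Z B D α r l) := by
    intro r hr h hh
    have h1 := hJ r hr h hh
    have h2 : (A'.card : ℝ) * v h = ∑ x ∈ A',
      (Real.log (c4G B α l N k h (x / (B ^ l) ^ h)) -
        Real.log (c4G B α l N k (h + 1) (x / (B ^ l) ^ (h + 1)))) := by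
      rw [hv]
      field_simp
    rw [← h2] at h1
    refine le_of_mul_le_mul_left ?_ hc
    calc (A'.card : ℝ) * (Real.log (R h) + r * v h)
        = (A'.card : ℝ) * Real.log (R h) + r * ((A'.card : ℝ) * v h) := by ring
      _ ≤ _ := h1
  have hset : (range N).filter (fun h => ((B ^ l : ℕ) : ℝ) ^ (1 - κ) < R h) =
      (range N).filter (fun h => (1 - κ) * (l * Real.log B) < Real.log (R h)) := by
    refine Finset.filter_congr fun h hh => ?_
    have hR : 1 ≤ R h := R_pos (B ^ l) N hb R A' hne hreg h (Finset.mem_range.mp hh)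
    have hR0 : (0 : ℝ) < R h := by exact_mod_cast hR
    have hB0 : (0 : ℝ) < ((B ^ l : ℕ) : ℝ) := by exact_mod_cast hb
    have hl1 : Real.log (((B ^ l : ℕ) : ℝ) ^ (1 - κ)) = (1 - κ) * (l * Real.log B) := by
      rw [Real.log_rpow hB0, Nat.cast_pow, Real.log_pow]
    rw [← hl1]
    exact (Real.log_lt_log_iff (Real.rpow_pos_of_pos hB0 _) hR0).symm
  rw [hset]
  refine thick_count N (fun h => Real.log (R h)) v q hq (Real.log (2 * Z B D α 1 l))
    (Real.log (2 ^ q * Z B D α q l)) G _ ((1 - κ) * (l * Real.log B)) ?_ ?_ hG ?_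
  · intro h hh
    have h1 := hJv 1 le_rfl h hh
    simpa using h1
  · intro h hh
    exact hJv q hq h hh
  · have htel : ∑ h ∈ range N, v h = (1 / (A'.card : ℝ)) * ∑ x ∈ A',
        (Real.log (c4G B α l N k 0 (x / (B ^ l) ^ 0)) -
          Real.log (c4G B α l N k N (x / (B ^ l) ^ N))) := by
      rw [hv, ← Finset.mul_sum, Finset.sum_comm]
      congr 1
      refine Finset.sum_congr rfl fun x _ => ?_
      exact Finset.sum_range_sub' (fun h => Real.log (c4G B α l N k h (x / (B ^ l) ^ h))) N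
    have hlogR : ∑ h ∈ range N, Real.log (R h) = Real.log A'.card := by
      rw [card_eq (B ^ l) N hb R A' hA hne hreg, Nat.cast_prod, Real.log_prod]
      intro h hh
      have hR : 1 ≤ R h := R_pos (B ^ l) N hb R A' hne hreg h (Finset.mem_range.mp hh)
      have : (0 : ℝ) < R h := by exact_mod_cast hR
      exact this.ne'
    have hlow : Real.log (lam / 2) - Real.log (M α 0) ≤ ∑ h ∈ range N, v h := by
      rw [htel]
      have h1 : (A'.card : ℝ) * (Real.log (lam / 2) - Real.log (M α 0)) ≤ ∑ x ∈ A',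
        (Real.log (c4G B α l N k 0 (x / (B ^ l) ^ 0)) -
          Real.log (c4G B α l N k N (x / (B ^ l) ^ N))) := by
        rw [← nsmul_eq_mul, ← Finset.sum_const]
        refine Finset.sum_le_sum fun x hx => ?_
        have h2 : Real.log (lam / 2) ≤ Real.log (c4G B α l N k 0 (x / (B ^ l) ^ 0)) := by
          refine Real.log_le_log (by positivity) ?_
          have := hα x hx
          simpa [c4G] using this.le
        have h3 : Real.log (c4G B α l N k N (x / (B ^ l) ^ N)) ≤ Real.log (M α 0) := by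
          refine Real.log_le_log (hpos x hx N le_rfl) ?_
          have h4 := le_M hs (l * (N - N)) (k * (B : ℤ) ^ (l * (N - N)) +
            ((x / (B ^ l) ^ N : ℕ) : ℤ))
          have h5 : l * (N - N) = 0 := by simp
          simp only [c4G]
          rw [h5] at h4 ⊢
          exact h4
        linarith
      rw [one_div, ← div_eq_inv_mul, le_div_iff₀ hc]
      linarith
    rw [Finset.sum_add_distrib, ← Finset.mul_sum, hlogR]
    have hq0 : (0 : ℝ) ≤ q := by positivity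
    nlinarith [mul_le_mul_of_nonneg_left hlow hq0]

end Pool.Agent.Lib.H21X
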