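import Pool.Agent.Lib.H21X.A3
import Pool.Agent.Lib.H21X.A2
import Pool.Agent.Lib.H21X.A4

/-!
# Chunk D1: the growth exponents

PROOF of `expo_M`.  `f n = log (2 M n)` is subadditive by `M_submul` (`M_pos`, `Real.log_mul`),
and `f n ≥ w' n ≥ -(|w'| n)` by `hM` and `le_M`; `fekete`.
`expo_Z`: `f n = log (2^q Z q n)`: subadditive by `Z_submul` (`2^q Z q (n+m) ≤ (2^q Z q n)(2^q Z q m)`,
`Z_pos`); lower bound: `2^q Z q n ≥ (2 M n)^q ≥ exp (q w' n)` (`M_pow_le_Z`).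
`expo_rel`: `q ρ ≤ φ`: `(2 M n)^q ≤ 2^q Z q n`, so `q ρ n ≤ q log (2 M n) ≤ log (2^q Z q n)
≤ (φ + δ) n` for large `n`, all `δ > 0`.  `φ ≤ q ρ + log B`: `Z_le`:
`φ n ≤ log (2^q Z q n) ≤ log (2 D) + n log B + q log (2 M n) ≤ log (2D) + n log B + q (ρ + δ) n`;
divide by `n`, let `n → ∞`, `δ → 0`.  `w' ≤ ρ`: `w' n ≤ log (2 M n) ≤ (ρ + δ) n`.
-/

namespace Pool.Agent.Lib.H21X

open Finset Filter

private theorem D1_logM_ge {B D : ℕ} {α : ℕ → ℤ → ℝ} (hs : Sys B D α) (w' : ℝ)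
    (hM : ∀ n : ℕ, ∃ z, Real.exp (w' * n) ≤ 2 * α n z) (n : ℕ) : w' * n ≤ Real.log (2 * M α n) := by
  obtain ⟨z, hz⟩ := hM n
  have h1 := le_M hs n z
  have h2 := M_pos hs n
  rw [Real.le_log_iff_exp_le (by linarith)]
  linarith

private theorem D1_pow_le {B D : ℕ} {α : ℕ → ℤ → ℝ} (hs : Sys B D α) (q n : ℕ) :
    (q : ℝ) * Real.log (2 * M α n) ≤ Real.log (2 ^ q * Z B D α q n) := by
  have h2 := M_pos hs n
  rw [← Real.log_pow]
  apply Real.log_le_log (by positivity)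
  rw [mul_pow]
  exact mul_le_mul_of_nonneg_left (M_pow_le_Z hs q n) (by positivity)

theorem expo_M {B D : ℕ} {α : ℕ → ℤ → ℝ} (hs : Sys B D α) (w' : ℝ)
    (hM : ∀ n : ℕ, ∃ z, Real.exp (w' * n) ≤ 2 * α n z) :
    ∃ ρ : ℝ, (∀ n : ℕ, ρ * n ≤ Real.log (2 * M α n)) ∧
      ∀ δ > 0, ∃ n0 : ℕ, ∀ n : ℕ, n0 ≤ n → Real.log (2 * M α n) ≤ (ρ + δ) * n := by
  apply fekete (fun n => Real.log (2 * M α n)) _ |w'|
  · intro n
    have h1 := D1_logM_ge hs w' hM n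
    have h2 : -(|w'| * n) ≤ w' * n := by
      have := neg_abs_le w'
      have h3 : (0 : ℝ) ≤ n := Nat.cast_nonneg n
      nlinarith
    exact h2.trans h1
  · intro n m
    have h1 := M_pos hs n
    have h2 := M_pos hs m
    have h3 := M_pos hs (n + m)
    change Real.log (2 * M α (n + m)) ≤ Real.log (2 * M α n) + Real.log (2 * M α m)
    rw [← Real.log_mul (by positivity) (by positivity)]
    apply Real.log_le_log (by positivity)
    have := M_submul hs n m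
    linarith

theorem expo_Z {B D : ℕ} {α : ℕ → ℤ → ℝ} (hs : Sys B D α) (w' : ℝ)
    (hM : ∀ n : ℕ, ∃ z, Real.exp (w' * n) ≤ 2 * α n z) (q : ℕ) (hq : 1 ≤ q) :
    ∃ φ : ℝ, (∀ n : ℕ, φ * n ≤ Real.log (2 ^ q * Z B D α q n)) ∧
      ∀ δ > 0, ∃ n0 : ℕ, ∀ n : ℕ, n0 ≤ n → Real.log (2 ^ q * Z B D α q n) ≤ (φ + δ) * n := by
  apply fekete (fun n => Real.log (2 ^ q * Z B D α q n)) _ (q * |w'|)
  · intro n
    have h1 := D1_logM_ge hs w' hM n
    have h2 : -(|w'| * n) ≤ w' * n := by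
      have := neg_abs_le w'
      have h3 : (0 : ℝ) ≤ n := Nat.cast_nonneg n
      nlinarith
    have h4 := D1_pow_le hs q n
    have h5 : (q : ℝ) * (-(|w'| * n)) ≤ q * Real.log (2 * M α n) :=
      mul_le_mul_of_nonneg_left (h2.trans h1) (Nat.cast_nonneg q)
    have h6 : -((q : ℝ) * |w'| * n) = q * (-(|w'| * n)) := by ring
    rw [h6]
    exact h5.trans h4
  · intro n m
    have h1 := Z_pos hs q n
    have h2 := Z_pos hs q m
    have h3 := Z_pos hs q (n + m)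
    change Real.log (2 ^ q * Z B D α q (n + m)) ≤
      Real.log (2 ^ q * Z B D α q n) + Real.log (2 ^ q * Z B D α q m)
    rw [← Real.log_mul (by positivity) (by positivity)]
    apply Real.log_le_log (by positivity)
    calc 2 ^ q * Z B D α q (n + m) ≤ 2 ^ q * (2 ^ q * Z B D α q n * Z B D α q m) :=
          mul_le_mul_of_nonneg_left (Z_submul hs hq n m) (by positivity)
      _ = 2 ^ q * Z B D α q n * (2 ^ q * Z B D α q m) := by ring

theorem expo_rel {B D : ℕ} {α : ℕ → ℤ → ℝ} (hs : Sys B D α) (w' : ℝ)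
    (hM : ∀ n : ℕ, ∃ z, Real.exp (w' * n) ≤ 2 * α n z) (q : ℕ) (hq : 1 ≤ q) (ρ φ : ℝ)
    (hρ1 : ∀ n : ℕ, ρ * n ≤ Real.log (2 * M α n))
    (hρ2 : ∀ δ > 0, ∃ n0 : ℕ, ∀ n : ℕ, n0 ≤ n → Real.log (2 * M α n) ≤ (ρ + δ) * n)
    (hφ1 : ∀ n : ℕ, φ * n ≤ Real.log (2 ^ q * Z B D α q n))
    (hφ2 : ∀ δ > 0, ∃ n0 : ℕ, ∀ n : ℕ, n0 ≤ n → Real.log (2 ^ q * Z B D α q n) ≤ (φ + δ) * n) :
    q * ρ ≤ φ ∧ φ ≤ q * ρ + Real.log B ∧ w' ≤ ρ := by
  have hq0 : (0 : ℝ) < q := by exact_mod_cast hq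
  refine ⟨?_, ?_, ?_⟩
  · apply le_of_forall_pos_le_add
    intro δ hδ
    obtain ⟨n0, hn0⟩ := hφ2 δ hδ
    have h1 := hn0 (n0 + 1) (by omega)
    have h2 := D1_pow_le hs q (n0 + 1)
    have h3 := mul_le_mul_of_nonneg_left (hρ1 (n0 + 1)) hq0.le
    have h4 : (0 : ℝ) < ((n0 + 1 : ℕ) : ℝ) := by positivity
    have h5 : (q * ρ) * ((n0 + 1 : ℕ) : ℝ) ≤ (φ + δ) * ((n0 + 1 : ℕ) : ℝ) := by
      calc (q * ρ) * ((n0 + 1 : ℕ) : ℝ) = q * (ρ * ((n0 + 1 : ℕ) : ℝ)) := by ring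
        _ ≤ _ := h3.trans (h2.trans h1)
    exact le_of_mul_le_mul_right h5 h4
  · apply le_of_forall_pos_le_add
    intro ε hε
    obtain ⟨δ, hδ, hδε⟩ : ∃ δ : ℝ, 0 < δ ∧ (q + 1) * δ = ε :=
      ⟨ε / (q + 1), by positivity, by field_simp⟩
    obtain ⟨n0, hn0⟩ := hρ2 δ hδ
    obtain ⟨n1, hn1⟩ := exists_nat_ge (Real.log (2 * D) / δ)
    obtain ⟨n, hn⟩ : ∃ n : ℕ, n = n0 + n1 + 1 := ⟨_, rfl⟩
    have hnpos : (0 : ℝ) < (n : ℝ) := by
      rw [hn]
      positivity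
    have h1 := hn0 n (by omega)
    have h2 : Real.log (2 * D) ≤ δ * n := by
      have h3 : (n1 : ℝ) ≤ n := by exact_mod_cast (by omega : n1 ≤ n)
      rw [div_le_iff₀ hδ] at hn1
      nlinarith
    have hD : (0 : ℝ) < D := by exact_mod_cast hs.one_le
    have hB : (0 : ℝ) < B := by exact_mod_cast (lt_of_lt_of_le (by norm_num) hs.two_le : 0 < B)
    have hMp := M_pos hs n
    have h4 : Real.log (2 ^ q * Z B D α q n) ≤
        Real.log (2 * D) + n * Real.log B + q * Real.log (2 * M α n) := by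
      have h5 : (2 : ℝ) ^ q * Z B D α q n ≤ 2 * D * (B : ℝ) ^ n * (2 * M α n) ^ q := by
        calc (2 : ℝ) ^ q * Z B D α q n ≤ 2 ^ q * (2 * D * (B : ℝ) ^ n * M α n ^ q) :=
              mul_le_mul_of_nonneg_left (Z_le hs q n) (by positivity)
          _ = 2 * D * (B : ℝ) ^ n * (2 * M α n) ^ q := by
              rw [mul_pow]
              ring
      have hZ := Z_pos hs q n
      have h6 := Real.log_le_log (by positivity) h5
      have e1 : Real.log (2 * D * (B : ℝ) ^ n * (2 * M α n) ^ q) =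
          Real.log (2 * D * (B : ℝ) ^ n) + Real.log ((2 * M α n) ^ q) :=
        Real.log_mul (by positivity) (by positivity)
      have e2 : Real.log (2 * D * (B : ℝ) ^ n) = Real.log (2 * D) + Real.log ((B : ℝ) ^ n) :=
        Real.log_mul (by positivity) (by positivity)
      rw [e1, e2, Real.log_pow, Real.log_pow] at h6
      exact h6
    have h7 := hφ1 n
    have h8 : (q : ℝ) * Real.log (2 * M α n) ≤ q * ((ρ + δ) * n) :=
      mul_le_mul_of_nonneg_left h1 hq0.le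
    have h9 : φ * n ≤ (q * ρ + Real.log B + ε) * n := by
      rw [← hδε]
      nlinarith
    exact le_of_mul_le_mul_right h9 hnpos
  · apply le_of_forall_pos_le_add
    intro δ hδ
    obtain ⟨n0, hn0⟩ := hρ2 δ hδ
    have h1 := hn0 (n0 + 1) (by omega)
    have h2 := D1_logM_ge hs w' hM (n0 + 1)
    have h4 : (0 : ℝ) < ((n0 + 1 : ℕ) : ℝ) := by positivity
    exact le_of_mul_le_mul_right (h2.trans h1) h4

end Pool.Agent.Lib.H21X
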