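import Pool.Agent.Lib.H21X.B1
import Pool.Agent.Lib.H21X.B5
import Pool.Agent.Lib.H21X.C4

/-!
# Chunk D2: the contradiction at one scale

PROOF.  `large_cell` gives `z0` with `exp (w n) ≤ α n z0` (so `a = α n z0 > 0`) and
`K a^q Z q m ≤ ∑_y α (n+m) (B^m z0 + y)^q`, `m = l N`.  `hsep` gives `U` with
`exp (c n) ≤ #U` and, raising to the power `q` and summing,
`K a^q Z q m ≤ a^q #U^(-q) ∑_y (∑_{u ∈ U} (α m (u+y) + α m (u+y+1)))^q`; divide by `a^q`, so `U`
satisfies the hypothesis `hU` of `extract` (`U` is nonempty since `exp (c n) > 0`).  Let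
`k, U', A, lam` be from `extract` and `θ = K / (4 J T)^q`, `T = 16 (D+1)^2`, `b = B^l`,
`B^m = b^N` (`pow_mul`).  Apply `hcore` to `N`, `U'`, `A`:
(1) `b^(c' N) ≤ θ exp (c n) ≤ θ #U ≤ #U'` by `hn1`;
(2) let `A' ⊆ A` be regular, nonempty, `b^(-γ N) #A ≤ #A'`.  `thin` (with `hG`) gives
`card thick * G ≤ N Lq - (log #A' + q log (lam/2) - q log (M α 0))`, where
`log #A' ≥ log #A - γ N log b`, and `log #A + q log lam ≥ log θ + log Z q m` (from
`θ Z q m ≤ lam^q #A`); so `card thick * G ≤ N Lq + γ N l log B - log θ - log (Z q m) + q log 2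
+ q log (M α 0) ≤ G σ N` by `hn2`, and `G > 0`.
So `addEnergy U' A ≤ b^(-εc N) #U'^2 #A`; with the last item of `extract`
`θ #U'^2 #A ≤ b^(-εc N) #U'^2 #A`, and `#U' > 0` (it is `≥ θ #U > 0`), `#A > 0`: contradiction to
`hn3`.
-/

namespace Pool.Agent.Lib.H21X

open Finset Filter

theorem contra {B D : ℕ} {α : ℕ → ℤ → ℝ} (hs : Sys B D α) {q : ℕ} (hq : 2 ≤ q)
    (κ c' σ γ εc G w c K : ℝ) (l N N0 n J : ℕ) (hl : 1 ≤ l) (hG0 : 0 < G)
    (hcore : CoreAt κ c' σ γ (B ^ l) εc N0) (hN : N0 ≤ N) (hK0 : 0 < K) (hK1 : K ≤ 1)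
    (hJ1 : 1 ≤ J)
    (hsep : ∀ z0 : ℤ, Real.exp (w * n) ≤ α n z0 →
      ∃ U : Finset ℤ, Real.exp (c * n) ≤ (U.card : ℝ) ∧
        ∀ y ∈ Finset.Ico (0 : ℤ) ((B : ℤ) ^ (l * N)),
          α (n + l * N) ((B : ℤ) ^ (l * N) * z0 + y) ≤
            α n z0 * ((1 / (U.card : ℝ)) * ∑ u ∈ U, (α (l * N) (u + y) + α (l * N) (u + y + 1))))
    (h1 : 2 * K * Z B D α q n * Z B D α q (l * N) ≤ Z B D α q (n + l * N))
    (h2 : 2 * D * (B : ℝ) ^ n * Real.exp (w * n) ^ q * 2 ^ q ≤ K * Z B D α q n)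
    (hJ : 2 ^ (q + 1) * (B : ℝ) ^ (l * N) * (16 * ((D : ℝ) + 1) ^ 2) ^ q ≤ K * ((2 : ℝ) ^ J) ^ q)
    (hG : G ≤ Real.log (2 ^ q * Z B D α q l) -
      (q * Real.log (2 * Z B D α 1 l) - (q - 1) * ((1 - κ) * (l * Real.log B))))
    (hn1 : ((B ^ l : ℕ) : ℝ) ^ (c' * N) ≤
      K / (4 * J * (16 * ((D : ℝ) + 1) ^ 2)) ^ q * Real.exp (c * n))
    (hn2 : N * Real.log (2 ^ q * Z B D α q l) + γ * (N * (l * Real.log B)) -
        Real.log (K / (4 * J * (16 * ((D : ℝ) + 1) ^ 2)) ^ q) - Real.log (Z B D α q (l * N)) +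
        q * Real.log 2 + q * Real.log (M α 0) ≤ G * (σ * N))
    (hn3 : ((B ^ l : ℕ) : ℝ) ^ (-(εc * N)) < K / (4 * J * (16 * ((D : ℝ) + 1) ^ 2)) ^ q) :
    False := by
  have hB2 : 2 ≤ B := hs.two_le
  have hB0 : (0 : ℝ) < (B : ℝ) := by
    have : (0 : ℕ) < B := by omega
    exact_mod_cast this
  have hJ0 : (0 : ℝ) < (J : ℝ) := by exact_mod_cast hJ1
  obtain ⟨θ, hθ⟩ : ∃ θ : ℝ, θ = K / (4 * J * (16 * ((D : ℝ) + 1) ^ 2)) ^ q := ⟨_, rfl⟩
  have hθ0 : 0 < θ := by rw [hθ]; positivity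
  obtain ⟨z0, hz0, hz1⟩ := large_cell hs (by omega) n (l * N) w K hK0 h1 h2
  obtain ⟨a, hadef⟩ : ∃ a : ℝ, a = α n z0 := ⟨_, rfl⟩
  have ha : 0 < a := by rw [hadef]; exact lt_of_lt_of_le (Real.exp_pos _) hz0
  obtain ⟨U, hUc, hUy⟩ := hsep z0 hz0
  have hU0 : (0 : ℝ) < (U.card : ℝ) := lt_of_lt_of_le (Real.exp_pos _) hUc
  have hUne : U.Nonempty := by
    rw [← Finset.card_pos]
    exact_mod_cast hU0
  rw [← hadef] at hz1 hUy
  have hU : K * (U.card : ℝ) ^ q * Z B D α q (l * N) ≤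
      ∑ y ∈ Finset.Ico (0 : ℤ) ((B : ℤ) ^ (l * N)),
        (∑ u ∈ U, (α (l * N) (u + y) + α (l * N) (u + y + 1))) ^ q := by
    have hb : K * a ^ q * Z B D α q (l * N) ≤
        (a / (U.card : ℝ)) ^ q * ∑ y ∈ Finset.Ico (0 : ℤ) ((B : ℤ) ^ (l * N)),
        (∑ u ∈ U, (α (l * N) (u + y) + α (l * N) (u + y + 1))) ^ q := by
      refine hz1.trans ?_
      rw [Finset.mul_sum]
      refine Finset.sum_le_sum fun y hy => ?_
      have hy1 := pow_le_pow_left₀ (hs.nonneg _ _) (hUy y hy) q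
      refine hy1.trans (le_of_eq ?_)
      rw [← mul_pow]
      congr 1
      ring
    have hq0 : 0 < (a / (U.card : ℝ)) ^ q := by positivity
    have hd : (a / (U.card : ℝ)) ^ q * (K * (U.card : ℝ) ^ q * Z B D α q (l * N)) =
        K * a ^ q * Z B D α q (l * N) := by
      rw [div_pow]
      field_simp
    rw [← hd] at hb
    exact le_of_mul_le_mul_left hb hq0
  obtain ⟨k, U', hU', A, hA, lam, hlam, hAne, hlev, hc1, hc2, hc3⟩ :=
    extract hs hq (l * N) J K hK0 hK1 hJ1 hJ U hUne hU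
  rw [← hθ] at hc1 hc2 hc3 hn1 hn2 hn3
  have hpow : (B ^ l) ^ N = B ^ (l * N) := (pow_mul B l N).symm
  have hcU : (0 : ℝ) < (U'.card : ℝ) := lt_of_lt_of_le (by positivity) hc1
  have hcA : (0 : ℝ) < (A.card : ℝ) := by exact_mod_cast hAne.card_pos
  have hZ : 0 < Z B D α q (l * N) := Z_pos hs q (l * N)
  have hbl : (0 : ℝ) < ((B ^ l : ℕ) : ℝ) := by
    push_cast
    positivity
  have hE := hcore N hN U' A (by rw [hpow]; exact hU') (by rw [hpow]; exact hA)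
    (hn1.trans ((mul_le_mul_of_nonneg_left hUc hθ0.le).trans hc1)) ?_
  · have h3 := hc3.trans hE
    rw [mul_assoc] at h3
    have h4 := le_of_mul_le_mul_right h3 (by positivity)
    exact absurd h4 (not_le.mpr hn3)
  · intro R A' hA' hne' hreg hcard
    have ht := thin hs (by omega : 1 ≤ q) l N hl k R A' (hA'.trans (by rw [hpow]; exact hA)) hne' hreg
      lam hlam (fun x hx => (hlev x (hA' hx)).1) κ G hG
    have hcA' : (0 : ℝ) < (A'.card : ℝ) := by exact_mod_cast hne'.card_pos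
    have hlog1 : -(γ * N) * (l * Real.log B) + Real.log A.card ≤ Real.log A'.card := by
      have h5 := Real.log_le_log (by positivity) hcard
      rw [Real.log_mul (by positivity) hcA.ne', Real.log_rpow hbl] at h5
      have h6 : Real.log ((B ^ l : ℕ) : ℝ) = l * Real.log B := by
        push_cast
        rw [Real.log_pow]
      rw [h6] at h5
      exact h5
    have hlog2 : Real.log θ + Real.log (Z B D α q (l * N)) ≤ q * Real.log lam + Real.log A.card := by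
      have h5 := Real.log_le_log (by positivity) hc2
      rw [Real.log_mul hθ0.ne' hZ.ne', Real.log_mul (by positivity) hcA.ne', Real.log_pow] at h5
      exact h5
    have hlog3 : Real.log (lam / 2) = Real.log lam - Real.log 2 :=
      Real.log_div hlam.ne' (by norm_num)
    rw [hlog3] at ht
    have h7 : (((range N).filter (fun h => ((B ^ l : ℕ) : ℝ) ^ (1 - κ) < R h)).card : ℝ) * G ≤
        σ * N * G := by
      refine ht.trans ?_
      have h8 : q * (Real.log lam - Real.log 2) = q * Real.log lam - q * Real.log 2 := by ring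
      have h9 : -(γ * N) * (l * Real.log B) = -(γ * (N * (l * Real.log B))) := by ring
      rw [h8]
      rw [h9] at hlog1
      linarith
    exact le_of_mul_le_mul_right h7 hG0

end Pool.Agent.Lib.H21X
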