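import Pool.Agent.Lib.H21X.Defs

/-!
# Chunk D3: the numerical conditions hold for all large n (pure real analysis)

`f` is the sequence `Z q`.

PROOF.  Put `L = log B ≥ log 2 > 0`, `T = 16 (D+1)^2`, choose `δ > 0` with `5 δ < L`,
`6 δ ≤ c / 4`, `6 δ ≤ σ (L/2) / 4`, `6 δ < εc L`.  For `n` large let `N` be the least integer with
`n + R ≤ l N` and `N ≥ N0` — for large `n` it is `N = ⌈(n + R)/l⌉`, so `n ≤ l N ≤ n + R + l ≤ 2 n`
— and `m = l N`, `K = exp (-5 δ n)`, `J = J0 (n + 1)` with a fixed natural number `J0 ≥ 1`,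
`J0 log 2 ≥ (1 + R + l) L + 5 δ + (q + 1) log 2 + q log T`.  `θ = K / (4 J T)^q`, so
`-log θ = 5 δ n + q log (4 J0 (n + 1) T) ≤ 6 δ n` for large `n`.
`h1`: take logarithms: `log f n ≤ (φ + δ) n - q log 2`, `log f m ≤ (φ + δ) m - q log 2` (`n`, `m`
large), `log f (n+m) ≥ φ (n+m) - q log 2`; need `log 2 - 5 δ n + δ (n + m) ≤ q log 2`, true since
`m ≤ 2 n` and `q ≥ 1`.
`h2`: by `hfw`, `log f n ≥ q w' n - q log 2`; need
`log (2D) + n L + q w n + q log 2 ≤ -5 δ n + q w' n - q log 2`; `q (w' - w) ≥ 2 L`, `5 δ < L`.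
`hJ`: `(q+1) log 2 + m L + q log T ≤ -5 δ n + q J log 2`: by the choice of `J0`, `m ≤ n + R + l`.
`hn1`: `c' N l L ≤ (c/2) m ≤ (c/2)(n + R + l)` (`hc'`), and `-6 δ n + c n ≥ (3/4) c n`.
`hn2`: `N log (2^q f l) ≤ m (φ + η)` (`hη`), `log f m ≥ φ m - q log 2`, so the left side is
`≤ m (η + γ L) + 6 δ n + 2 q log 2 + q log M0 ≤ m σ (L/2)/2 + m σ (L/2)/4 + const`, and
`l (L/2) σ N = m σ (L/2)`; `m ≥ n` large.
`hn3`: `-εc m L < -6 δ n ≤ log θ`, as `m ≥ n`, `n ≥ 1`.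
Use `Real.log_le_log_iff` / `Real.exp_le_exp`, `Real.rpow_def_of_pos`, and for the logarithmic
term `Real.isLittleO_log_id_atTop` (`q log (4 J0 (n+1) T) ≤ δ n` eventually).
-/

namespace Pool.Agent.Lib.H21X

open Finset Filter

private theorem D3_log (C q δ : ℝ) (hC : 0 < C) (hq : 0 < q) (hδ : 0 < δ) :
    ∀ᶠ n : ℕ in atTop, q * Real.log (C * ((n : ℝ) + 1)) ≤ δ * n := by
  have h1 := Real.isLittleO_log_id_atTop.def (c := δ / (2 * q * C)) (by positivity)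
  have h2 : Tendsto (fun n : ℕ => C * ((n : ℝ) + 1)) atTop atTop :=
    Tendsto.const_mul_atTop hC (tendsto_atTop_add_const_right _ _ tendsto_natCast_atTop_atTop)
  filter_upwards [h2.eventually h1, eventually_ge_atTop 1] with n hn hn1
  have hn1' : (1 : ℝ) ≤ n := by exact_mod_cast hn1
  have h3 : Real.log (C * ((n : ℝ) + 1)) ≤ δ / (2 * q * C) * (C * ((n : ℝ) + 1)) := by
    have h4 : (0 : ℝ) ≤ C * ((n : ℝ) + 1) := by positivity
    have h5 := (le_abs_self _).trans hn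
    rw [id, Real.norm_eq_abs, abs_of_nonneg h4] at h5
    exact h5
  calc q * Real.log (C * ((n : ℝ) + 1)) ≤ q * (δ / (2 * q * C) * (C * ((n : ℝ) + 1))) :=
        mul_le_mul_of_nonneg_left h3 hq.le
    _ = δ * (((n : ℝ) + 1) / 2) := by field_simp
    _ ≤ δ * n := mul_le_mul_of_nonneg_left (by linarith) hδ.le

private theorem D3_lin (a b : ℝ) (hb : 0 < b) : ∀ᶠ n : ℕ in atTop, a ≤ b * n := by
  have h2 : Tendsto (fun n : ℕ => b * (n : ℝ)) atTop atTop :=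
    Tendsto.const_mul_atTop hb tendsto_natCast_atTop_atTop
  exact h2.eventually_ge_atTop a

private theorem D3_two (q : ℕ) (x : ℝ) (hx : 0 < x) :
    Real.log (2 ^ q * x) = q * Real.log 2 + Real.log x := by
  rw [Real.log_mul (by positivity) hx.ne', Real.log_pow]

/-- First conclusion. -/
private theorem D3_h1 (fn fm fs φ δ x m : ℝ) (q : ℕ) (hq : 2 ≤ q) (hfn : 0 < fn) (hfm : 0 < fm)
    (hfs : 0 < fs) (hδ : 0 < δ) (hx : 0 ≤ x) (hm : m ≤ 2 * x)
    (h1 : Real.log (2 ^ q * fn) ≤ (φ + δ) * x) (h2 : Real.log (2 ^ q * fm) ≤ (φ + δ) * m)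
    (h3 : φ * (x + m) ≤ Real.log (2 ^ q * fs)) :
    2 * Real.exp (-(5 * δ * x)) * fn * fm ≤ fs := by
  rw [D3_two q _ hfn] at h1
  rw [D3_two q _ hfm] at h2
  rw [D3_two q _ hfs] at h3
  have hl : 0 < Real.log 2 := Real.log_pos (by norm_num)
  rw [← Real.log_le_log_iff (by positivity) hfs, Real.log_mul (by positivity) hfm.ne',
    Real.log_mul (by positivity) hfn.ne', Real.log_mul (by norm_num) (Real.exp_ne_zero _),
    Real.log_exp]
  have hq' : (2 : ℝ) ≤ q := by exact_mod_cast hq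
  have h4 : 2 * Real.log 2 ≤ q * Real.log 2 := mul_le_mul_of_nonneg_right hq' hl.le
  have h5 : δ * m ≤ δ * (2 * x) := mul_le_mul_of_nonneg_left hm hδ.le
  have h6 : 0 ≤ δ * x := mul_nonneg hδ.le hx
  nlinarith

/-- Second conclusion. -/
private theorem D3_h2 (fn δ L w w' : ℝ) (n B D q : ℕ) (hB : 2 ≤ B) (hD : 1 ≤ D)
    (hL : L = Real.log B)
    (hw : 2 * L ≤ q * (w' - w)) (hfw : (Real.exp (w' * n) / 2) ^ q ≤ fn)
    (he : Real.log (2 * D) + 2 * q * Real.log 2 ≤ (L - 5 * δ) * n) :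
    2 * D * (B : ℝ) ^ n * Real.exp (w * n) ^ q * 2 ^ q ≤ Real.exp (-(5 * δ * n)) * fn := by
  have hB0 : (0 : ℝ) < B := by exact_mod_cast (by omega : 0 < B)
  have hD0 : (0 : ℝ) < D := by exact_mod_cast (by omega : 0 < D)
  refine le_trans ?_ (mul_le_mul_of_nonneg_left hfw (Real.exp_pos _).le)
  rw [Real.log_mul (by norm_num) hD0.ne'] at he
  rw [← Real.log_le_log_iff (by positivity) (by positivity), Real.log_mul (by positivity)
    (by positivity), Real.log_mul (by positivity) (by positivity), Real.log_mul (by positivity)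
    (by positivity), Real.log_pow, Real.log_pow, Real.log_pow, Real.log_exp,
    Real.log_mul (by norm_num) hD0.ne', Real.log_mul (by positivity) (by positivity),
    Real.log_exp, Real.log_pow,
    Real.log_div (by positivity) (by norm_num), Real.log_exp, ← hL]
  have h1 : 2 * L * n ≤ q * (w' - w) * n := mul_le_mul_of_nonneg_right hw (Nat.cast_nonneg n)
  nlinarith

/-- Third conclusion. -/
private theorem D3_h3 (δ L T : ℝ) (n B q J0 m R l : ℕ) (hB : 2 ≤ B) (hq : 2 ≤ q) (hδ : 0 < δ)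
    (hL : L = Real.log B) (hT : 1 ≤ T) (hm : m ≤ n + R + l)
    (hJ0 : (1 + R + l) * L + 5 * δ + (q + 1) * Real.log 2 + q * Real.log T ≤ J0 * Real.log 2) :
    2 ^ (q + 1) * (B : ℝ) ^ m * T ^ q ≤
      Real.exp (-(5 * δ * n)) * ((2 : ℝ) ^ (J0 * (n + 1))) ^ q := by
  have hB0 : (0 : ℝ) < B := by exact_mod_cast (by omega : 0 < B)
  have hT0 : 0 < T := by linarith
  have hl : 0 < Real.log 2 := Real.log_pos (by norm_num)
  have hLp : 0 < L := by
    rw [hL]; exact Real.log_pos (by exact_mod_cast (by omega : 1 < B))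
  rw [← Real.log_le_log_iff (by positivity) (by positivity), Real.log_mul (by positivity)
    (by positivity), Real.log_mul (by positivity) (by positivity), Real.log_mul (by positivity)
    (by positivity), Real.log_pow, Real.log_pow, Real.log_pow, Real.log_exp, Real.log_pow,
    Real.log_pow, ← hL]
  push_cast
  have hn0 : (0 : ℝ) ≤ n := Nat.cast_nonneg n
  have hR0 : (0 : ℝ) ≤ R := Nat.cast_nonneg R
  have hl0 : (0 : ℝ) ≤ l := Nat.cast_nonneg l
  have hlT : 0 ≤ Real.log T := Real.log_nonneg hT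
  have hq' : (2 : ℝ) ≤ q := by exact_mod_cast hq
  have hm' : (m : ℝ) ≤ n + R + l := by exact_mod_cast hm
  have h1 : (m : ℝ) * L ≤ (n + R + l) * L := mul_le_mul_of_nonneg_right hm' hLp.le
  have h2 : ((1 + R + l) * L + 5 * δ + (q + 1) * Real.log 2 + q * Real.log T) * (n + 1) ≤
      J0 * Real.log 2 * (n + 1) := mul_le_mul_of_nonneg_right hJ0 (by linarith)
  have h3 : 1 * (J0 * Real.log 2 * (n + 1)) ≤ q * (J0 * Real.log 2 * (n + 1)) :=
    mul_le_mul_of_nonneg_right (by linarith) (by positivity)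
  have h4 : 0 ≤ (R + l) * L * n := by positivity
  have h5 : 0 ≤ ((q + 1) * Real.log 2 + q * Real.log T) * n := by positivity
  nlinarith

/-- The logarithm of `θ`. -/
private theorem D3_theta (δ T : ℝ) (n q J : ℕ) (hT : 0 < T) (hJ : 1 ≤ J)
    (h : q * Real.log (4 * J * T) ≤ δ * n) :
    0 < Real.exp (-(5 * δ * n)) / (4 * J * T) ^ q ∧
      -(6 * δ * n) ≤ Real.log (Real.exp (-(5 * δ * n)) / (4 * J * T) ^ q) := by
  have hJ0 : (0 : ℝ) < J := by exact_mod_cast (by omega : 0 < J)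
  refine ⟨by positivity, ?_⟩
  rw [Real.log_div (by positivity) (by positivity), Real.log_exp, Real.log_pow]
  linarith

/-- Fourth conclusion. -/
private theorem D3_h4 (θ c c' δ L : ℝ) (n B l N R : ℕ) (hB : 2 ≤ B) (hc : 0 < c) (hL : L = Real.log B)
    (hc' : c' * (2 * L) ≤ c) (hθ0 : 0 < θ) (hθ : -(6 * δ * n) ≤ Real.log θ) (hδ : 6 * δ ≤ c / 4)
    (hm : l * N ≤ n + R + l) (he : 2 * (R + l) ≤ n) :
    ((B ^ l : ℕ) : ℝ) ^ (c' * N) ≤ θ * Real.exp (c * n) := by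
  have hB0 : (0 : ℝ) < B := by exact_mod_cast (by omega : 0 < B)
  have hm' : (l : ℝ) * N ≤ n + R + l := by exact_mod_cast hm
  have he' : 2 * ((R : ℝ) + l) ≤ n := by exact_mod_cast he
  have hm0 : (0 : ℝ) ≤ (l : ℝ) * N := by positivity
  push_cast
  rw [Real.rpow_def_of_pos (by positivity), Real.log_pow, ← hL]
  have h1 : θ = Real.exp (Real.log θ) := (Real.exp_log hθ0).symm
  rw [h1, ← Real.exp_add, Real.exp_le_exp]
  have h2 : c' * (2 * L) * ((l : ℝ) * N) ≤ c * ((l : ℝ) * N) :=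
    mul_le_mul_of_nonneg_right hc' hm0
  have h3 : c * ((l : ℝ) * N) ≤ c * (n + R + l) := mul_le_mul_of_nonneg_left hm' hc.le
  have h4 : 6 * δ * n ≤ c / 4 * n := mul_le_mul_of_nonneg_right hδ (Nat.cast_nonneg n)
  have h5 : c * (2 * ((R : ℝ) + l)) ≤ c * n := mul_le_mul_of_nonneg_left he' hc.le
  nlinarith

/-- Fifth conclusion. -/
private theorem D3_h5 (fl fm θ φ η γ δ σ L M0 : ℝ) (n l N q : ℕ) (hfm : 0 < fm)
    (hη : Real.log (2 ^ q * fl) ≤ (φ + η) * l) (hγ : η + γ * L ≤ σ * (L / 2) / 2)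
    (hθ : -(6 * δ * n) ≤ Real.log θ) (hδ0 : 0 < δ) (hδ : 6 * δ ≤ σ * L / 8) (hσL : 0 < σ * L)
    (hφ : φ * (l * N : ℕ) ≤ Real.log (2 ^ q * fm)) (hm : n ≤ l * N)
    (he : 2 * q * Real.log 2 + q * Real.log M0 ≤ σ * L / 8 * n) :
    N * Real.log (2 ^ q * fl) + γ * (N * (l * L)) - Real.log θ - Real.log fm +
          q * Real.log 2 + q * Real.log M0 ≤ l * (L / 2) * (σ * N) := by
  rw [D3_two q _ hfm] at hφ
  push_cast at hφ
  have hm' : (n : ℝ) ≤ l * N := by exact_mod_cast hm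
  have hm0 : (0 : ℝ) ≤ (l : ℝ) * N := by positivity
  have h1 : N * Real.log (2 ^ q * fl) ≤ N * ((φ + η) * l) :=
    mul_le_mul_of_nonneg_left hη (Nat.cast_nonneg N)
  have h2 : (η + γ * L) * ((l : ℝ) * N) ≤ σ * (L / 2) / 2 * ((l : ℝ) * N) :=
    mul_le_mul_of_nonneg_right hγ hm0
  have h3 : 6 * δ * n ≤ 6 * δ * ((l : ℝ) * N) := mul_le_mul_of_nonneg_left hm' (by linarith)
  have h4 : 6 * δ * ((l : ℝ) * N) ≤ σ * L / 8 * ((l : ℝ) * N) :=
    mul_le_mul_of_nonneg_right hδ hm0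
  have h5 : σ * L / 8 * n ≤ σ * L / 8 * ((l : ℝ) * N) :=
    mul_le_mul_of_nonneg_left hm' (by linarith)
  nlinarith

/-- Sixth conclusion. -/
private theorem D3_h6 (θ εc δ L : ℝ) (n B l N : ℕ) (hB : 2 ≤ B) (hL : L = Real.log B)
    (hθ0 : 0 < θ) (hθ : -(6 * δ * n) ≤ Real.log θ) (hδ0 : 0 < δ) (hδ : 6 * δ < εc * L)
    (hm : n ≤ l * N) (hn : 1 ≤ n) :
    ((B ^ l : ℕ) : ℝ) ^ (-(εc * N)) < θ := by
  have hB0 : (0 : ℝ) < B := by exact_mod_cast (by omega : 0 < B)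
  have hm' : (n : ℝ) ≤ l * N := by exact_mod_cast hm
  have hn' : (1 : ℝ) ≤ n := by exact_mod_cast hn
  push_cast
  rw [Real.rpow_def_of_pos (by positivity), Real.log_pow, ← hL]
  have h1 : θ = Real.exp (Real.log θ) := (Real.exp_log hθ0).symm
  rw [h1, Real.exp_lt_exp]
  have h3 : 6 * δ * n ≤ 6 * δ * ((l : ℝ) * N) := mul_le_mul_of_nonneg_left hm' (by linarith)
  have h4 : 6 * δ * ((l : ℝ) * N) < εc * L * ((l : ℝ) * N) :=
    mul_lt_mul_of_pos_right hδ (by linarith)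
  nlinarith

theorem numerics (f : ℕ → ℝ) (hf : ∀ n, 0 < f n) (φ : ℝ) (q : ℕ) (hq : 2 ≤ q)
    (hφ1 : ∀ n : ℕ, φ * n ≤ Real.log (2 ^ q * f n))
    (hφ2 : ∀ δ > 0, ∃ n0 : ℕ, ∀ n : ℕ, n0 ≤ n → Real.log (2 ^ q * f n) ≤ (φ + δ) * n)
    (B D R l N0 : ℕ) (hB : 2 ≤ B) (hD : 1 ≤ D) (hl : 1 ≤ l) (w w' c : ℝ) (hc : 0 < c)
    (hw : 2 * Real.log B ≤ q * (w' - w))
    (hfw : ∀ n : ℕ, (Real.exp (w' * n) / 2) ^ q ≤ f n)
    (c' σ γ εc η M0 : ℝ) (hc'0 : 0 < c') (hc' : c' * (2 * Real.log B) ≤ c) (hσ : 0 < σ)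
    (hεc : 0 < εc) (hη : Real.log (2 ^ q * f l) ≤ (φ + η) * l)
    (hγ : η + γ * Real.log B ≤ σ * (Real.log B / 2) / 2) (hM0 : 0 < M0) :
    ∀ᶠ n : ℕ in atTop, ∃ N J : ℕ, ∃ K : ℝ, 0 < K ∧ K ≤ 1 ∧ 1 ≤ J ∧ N0 ≤ N ∧ n + R ≤ l * N ∧
      2 * K * f n * f (l * N) ≤ f (n + l * N) ∧
      2 * D * (B : ℝ) ^ n * Real.exp (w * n) ^ q * 2 ^ q ≤ K * f n ∧
      2 ^ (q + 1) * (B : ℝ) ^ (l * N) * (16 * ((D : ℝ) + 1) ^ 2) ^ q ≤ K * ((2 : ℝ) ^ J) ^ q ∧
      ((B ^ l : ℕ) : ℝ) ^ (c' * N) ≤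
        K / (4 * J * (16 * ((D : ℝ) + 1) ^ 2)) ^ q * Real.exp (c * n) ∧
      N * Real.log (2 ^ q * f l) + γ * (N * (l * Real.log B)) -
          Real.log (K / (4 * J * (16 * ((D : ℝ) + 1) ^ 2)) ^ q) - Real.log (f (l * N)) +
          q * Real.log 2 + q * Real.log M0 ≤ l * (Real.log B / 2) * (σ * N) ∧
      ((B ^ l : ℕ) : ℝ) ^ (-(εc * N)) < K / (4 * J * (16 * ((D : ℝ) + 1) ^ 2)) ^ q := by
  obtain ⟨L, hL⟩ : ∃ L : ℝ, L = Real.log B := ⟨_, rfl⟩
  rw [← hL] at hw hc' hγ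
  have hLp : 0 < L := by
    rw [hL]; exact Real.log_pos (by exact_mod_cast (by omega : 1 < B))
  have hlog2 : 0 < Real.log 2 := Real.log_pos (by norm_num)
  have hσL : 0 < σ * L := mul_pos hσ hLp
  have hεL : 0 < εc * L := mul_pos hεc hLp
  obtain ⟨δ, hδ0, hδ1, hδ2, hδ3, hδ4⟩ : ∃ δ : ℝ, 0 < δ ∧ 5 * δ < L ∧ 6 * δ ≤ c / 4 ∧
      6 * δ ≤ σ * L / 8 ∧ 6 * δ < εc * L := by
    refine ⟨min (min (L / 6) (c / 24)) (min (σ * L / 48) (εc * L / 12)), ?_, ?_, ?_, ?_, ?_⟩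
    · exact lt_min (lt_min (by positivity) (by positivity)) (lt_min (by positivity) (by positivity))
    · have := (min_le_left (min (L / 6) (c / 24)) (min (σ * L / 48) (εc * L / 12))).trans
        (min_le_left _ _)
      linarith
    · have := (min_le_left (min (L / 6) (c / 24)) (min (σ * L / 48) (εc * L / 12))).trans
        (min_le_right _ _)
      linarith
    · have := (min_le_right (min (L / 6) (c / 24)) (min (σ * L / 48) (εc * L / 12))).trans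
        (min_le_left _ _)
      linarith
    · have := (min_le_right (min (L / 6) (c / 24)) (min (σ * L / 48) (εc * L / 12))).trans
        (min_le_right _ _)
      linarith
  obtain ⟨T, hT⟩ : ∃ T : ℝ, T = 16 * ((D : ℝ) + 1) ^ 2 := ⟨_, rfl⟩
  have hT1 : 1 ≤ T := by
    rw [hT]
    have h0 : (0 : ℝ) ≤ D := Nat.cast_nonneg D
    nlinarith
  have hlT : 0 ≤ Real.log T := Real.log_nonneg hT1
  rw [← hT, ← hL]
  obtain ⟨J0, hJ0⟩ := exists_nat_ge (((1 + R + l) * L + 5 * δ + (q + 1) * Real.log 2 +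
    q * Real.log T) / Real.log 2)
  rw [div_le_iff₀ hlog2] at hJ0
  have hJ01 : 1 ≤ J0 := by
    rcases Nat.eq_zero_or_pos J0 with h | h
    · exfalso
      rw [h] at hJ0
      have h1 : 0 < (1 + (R : ℝ) + l) * L + 5 * δ + (q + 1) * Real.log 2 + q * Real.log T := by
        positivity
      simp only [Nat.cast_zero, zero_mul] at hJ0
      linarith
    · exact h
  have hJ0' : (0 : ℝ) < J0 := by exact_mod_cast hJ01
  obtain ⟨n0, hn0⟩ := hφ2 δ hδ0
  have e1 := D3_log (4 * J0 * T) q δ (by positivity) (by exact_mod_cast (by omega : 0 < q)) hδ0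
  have e2 := D3_lin (Real.log (2 * D) + 2 * q * Real.log 2) (L - 5 * δ) (by linarith)
  have e3 := D3_lin (2 * q * Real.log 2 + q * Real.log M0) (σ * L / 8) (by linarith)
  filter_upwards [e1, e2, e3, eventually_ge_atTop n0, eventually_ge_atTop (l * N0),
    eventually_ge_atTop (2 * (R + l)), eventually_ge_atTop 1] with n g1 g2 g3 g4 g5 g6 g7
  have hlN1 : n + R ≤ l * ((n + R) / l + 1) := by
    have := Nat.lt_mul_div_succ (n + R) (by omega : 0 < l)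
    exact this.le
  have hlN2 : l * ((n + R) / l + 1) ≤ n + R + l := by
    have := Nat.mul_div_le (n + R) l
    rw [Nat.mul_add, Nat.mul_one]
    omega
  have hN0 : N0 ≤ (n + R) / l + 1 := by
    have h1 : N0 ≤ (n + R) / l := by
      rw [Nat.le_div_iff_mul_le (by omega : 0 < l)]
      rw [Nat.mul_comm N0 l]
      omega
    omega
  generalize (n + R) / l + 1 = N at hlN1 hlN2 hN0
  have hnm : n ≤ l * N := by omega
  have hm2 : l * N ≤ 2 * n := by omega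
  have hm2' : ((l * N : ℕ) : ℝ) ≤ 2 * n := by exact_mod_cast hm2
  have hJ1 : 1 ≤ J0 * (n + 1) := Nat.one_le_iff_ne_zero.2 (by positivity)
  have hth := D3_theta δ T n q (J0 * (n + 1)) (by linarith) hJ1 (by
    have h1 : (4 : ℝ) * ((J0 * (n + 1) : ℕ) : ℝ) * T = 4 * J0 * T * ((n : ℝ) + 1) := by
      push_cast
      ring
    rw [h1]
    exact g1)
  obtain ⟨hth0, hth1⟩ := hth
  refine ⟨N, J0 * (n + 1), Real.exp (-(5 * δ * n)), Real.exp_pos _, ?_, hJ1, hN0, hlN1, ?_, ?_,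
    ?_, ?_, ?_, ?_⟩
  · rw [Real.exp_le_one_iff]
    have : 0 ≤ 5 * δ * (n : ℝ) := by positivity
    linarith
  · refine D3_h1 (f n) (f (l * N)) (f (n + l * N)) φ δ n ((l * N : ℕ) : ℝ) q hq (hf _) (hf _)
      (hf _) hδ0 (Nat.cast_nonneg n) hm2' (hn0 n g4) (hn0 _ (by omega)) ?_
    have := hφ1 (n + l * N)
    push_cast at this ⊢
    exact this
  · exact D3_h2 (f n) δ L w w' n B D q hB hD hL hw (hfw n) g2
  · exact D3_h3 δ L T n B q J0 (l * N) R l hB hq hδ0 hL hT1 hlN2 hJ0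
  · exact D3_h4 _ c c' δ L n B l N R hB hc hL hc' hth0 hth1 hδ2 hlN2 g6
  · exact D3_h5 (f l) (f (l * N)) _ φ η γ δ σ L M0 n l N q (hf _) hη hγ hth1 hδ0 hδ3 hσL
      (hφ1 _) hnm g3
  · exact D3_h6 _ εc δ L n B l N hB hL hth0 hth1 hδ0 hδ4 hnm g7

end Pool.Agent.Lib.H21X
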