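import Pool.Agent.Lib.H21X.D1
import Pool.Agent.Lib.H21X.D2
import Pool.Agent.Lib.H21X.D3

/-!
# Chunk D4: the gap is zero

PROOF.  Let `L = log B`.  Suppose `g = ρ + L - φ1 > 0`.  Choose a natural number `q ≥ 2` with
`q g ≥ 2 L` and `q (w' - w) ≥ 2 L`; let `φ` be from `expo_Z` for this `q` (`φ1` is the exponent
for `1`).  `expo_rel`: `φ ≥ q ρ`.  Put `κ = 1/(4q)`, `c' = min 1 (c/(2L))`; `hcore` gives `σ`; put
`η = min (L/(4q)) (σ (L/2)/4)`, `γ = σ/8` (so `γ L = σ (L/2)/4` and `hγ` of `numerics` holds);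
`hcore` gives `b0`; choose `l ≥ 1` so large that `B^l ≥ b0`, `log (2 Z 1 l) ≤ (φ1 + η) l` and
`log (2^q Z q l) ≤ (φ + η) l`; then `εc`, `N0` with `CoreAt κ c' σ γ (B^l) εc N0`.  `numerics`
(with `f = Z q`, `M0 = M α 0`, `hfw`: `Z q n ≥ M^q ≥ (exp (w' n)/2)^q`) holds for all large `n`;
by `hsep` (a `Frequently`) choose `n` for which in addition the separation statement holds for all
`m ≥ n + R`, in particular for `m = l N` (`Frequently.and_eventually`, `.exists`).  Apply `contra`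
with `G = l (L/2)`; `hG`: `log (2^q Z q l) ≥ φ l`, `log (2 Z 1 l) ≤ (φ1 + η) l`, so
`RHS ≥ l (φ - q φ1 - q η + (q-1)(1-κ) L)`, and since `φ ≥ q ρ`, `φ1 = ρ + L - g`:
`φ - q φ1 + (q-1) L ≥ q g - L ≥ L`, `q η ≤ L/4`, `(q-1) κ L ≤ L/4`.
The real form of `hn2` is the same up to associativity (`l (L/2) (σ N)`).
-/

namespace Pool.Agent.Lib.H21X

open Finset Filter

theorem gap_zero {B D : ℕ} {α : ℕ → ℤ → ℝ} (hcore : Core) (hs : Sys B D α) (w c w' : ℝ) (R : ℕ)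
    (hc : 0 < c) (hww : w < w') (hsep : Sep B α w c R)
    (hM : ∀ n : ℕ, ∃ z, Real.exp (w' * n) ≤ 2 * α n z) (ρ φ1 : ℝ)
    (hρ1 : ∀ n : ℕ, ρ * n ≤ Real.log (2 * M α n))
    (hρ2 : ∀ δ > 0, ∃ n0 : ℕ, ∀ n : ℕ, n0 ≤ n → Real.log (2 * M α n) ≤ (ρ + δ) * n)
    (hφ1 : ∀ n : ℕ, φ1 * n ≤ Real.log (2 ^ 1 * Z B D α 1 n))
    (hφ2 : ∀ δ > 0, ∃ n0 : ℕ, ∀ n : ℕ, n0 ≤ n → Real.log (2 ^ 1 * Z B D α 1 n) ≤ (φ1 + δ) * n) :
    ρ + Real.log B ≤ φ1 := by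
  by_contra hcon
  push Not at hcon
  obtain ⟨L, hL⟩ : ∃ L : ℝ, L = Real.log B := ⟨_, rfl⟩
  have hB2 := hs.two_le
  have hL0 : 0 < L := by
    rw [hL]
    exact Real.log_pos (by exact_mod_cast (by omega : 1 < B))
  rw [← hL] at hcon
  obtain ⟨g, hg⟩ : ∃ g : ℝ, g = ρ + L - φ1 := ⟨_, rfl⟩
  have hg0 : 0 < g := by rw [hg]; linarith
  have hw0 : 0 < w' - w := by linarith
  obtain ⟨q0, hq0⟩ := exists_nat_ge (2 * L / g)
  obtain ⟨q1, hq1⟩ := exists_nat_ge (2 * L / (w' - w))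
  rw [div_le_iff₀ hg0] at hq0
  rw [div_le_iff₀ hw0] at hq1
  obtain ⟨q, hq⟩ : ∃ q : ℕ, q = q0 + q1 + 2 := ⟨_, rfl⟩
  have hq2 : 2 ≤ q := by omega
  have hq00 : (0 : ℝ) ≤ q0 := Nat.cast_nonneg q0
  have hq10 : (0 : ℝ) ≤ q1 := Nat.cast_nonneg q1
  have hqr : (q : ℝ) = q0 + q1 + 2 := by
    rw [hq]
    push_cast
    ring
  have hqpos : (0 : ℝ) < q := by rw [hqr]; linarith
  have hqg : 2 * L ≤ q * g := by
    rw [hqr]
    nlinarith [mul_nonneg hq10 hg0.le]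
  have hqw : 2 * L ≤ q * (w' - w) := by
    rw [hqr]
    nlinarith [mul_nonneg hq00 hw0.le]
  obtain ⟨φ, hφa, hφb⟩ := expo_Z hs w' hM q (by omega)
  obtain ⟨hr1, -, -⟩ := expo_rel hs w' hM q (by omega) ρ φ hρ1 hρ2 hφa hφb
  obtain ⟨κ, hκ⟩ : ∃ κ : ℝ, κ = 1 / (4 * q) := ⟨_, rfl⟩
  have hκ0 : 0 < κ := by rw [hκ]; positivity
  have hκq : q * κ = 1 / 4 := by
    rw [hκ]
    field_simp
  have hq1' : (1 : ℝ) ≤ q := by rw [hqr]; linarith
  have hκ1 : κ ≤ 1 := by nlinarith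
  obtain ⟨c', hc'⟩ : ∃ c' : ℝ, c' = min 1 (c / (2 * L)) := ⟨_, rfl⟩
  have hc'0 : 0 < c' := by
    rw [hc']
    exact lt_min one_pos (by positivity)
  have hc'1 : c' ≤ 1 := by rw [hc']; exact min_le_left _ _
  have hc'2 : c' * (2 * L) ≤ c := by
    have h1 : c' ≤ c / (2 * L) := by rw [hc']; exact min_le_right _ _
    rwa [le_div_iff₀ (by positivity)] at h1
  obtain ⟨σ, hσ, hσ'⟩ := hcore κ c' hκ0 hκ1 hc'0 hc'1
  obtain ⟨η, hη⟩ : ∃ η : ℝ, η = min (L / (4 * q)) (σ * (L / 2) / 4) := ⟨_, rfl⟩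
  have hη0 : 0 < η := by
    rw [hη]
    exact lt_min (by positivity) (by positivity)
  have hη1 : q * η ≤ L / 4 := by
    have h1 : η ≤ L / (4 * q) := by rw [hη]; exact min_le_left _ _
    rw [le_div_iff₀ (by positivity)] at h1
    linarith
  have hη2 : η ≤ σ * (L / 2) / 4 := by rw [hη]; exact min_le_right _ _
  obtain ⟨b0, hb0⟩ := hσ' (σ / 8) (by positivity)
  obtain ⟨l1, hl1⟩ := hφ2 η hη0
  obtain ⟨l2, hl2⟩ := hφb η hη0
  obtain ⟨l, hl⟩ : ∃ l : ℕ, l = b0 + l1 + l2 + 1 := ⟨_, rfl⟩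
  have hl0 : 1 ≤ l := by omega
  have hlr : (0 : ℝ) < (l : ℝ) := by exact_mod_cast hl0
  have hBl : b0 ≤ B ^ l := by
    have h1 : l < B ^ l := Nat.lt_pow_self (by omega)
    omega
  obtain ⟨εc, hεc, N0, hAt⟩ := hb0 (B ^ l) hBl
  have hl1' := hl1 l (by omega)
  have hl2' := hl2 l (by omega)
  have hfw : ∀ n : ℕ, (Real.exp (w' * n) / 2) ^ q ≤ Z B D α q n := by
    intro n
    obtain ⟨z, hz⟩ := hM n
    have h1 : Real.exp (w' * n) / 2 ≤ M α n := by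
      have := le_M hs n z
      linarith
    exact (pow_le_pow_left₀ (by positivity) h1 q).trans (M_pow_le_Z hs q n)
  have hnum := numerics (Z B D α q) (Z_pos hs q) φ q hq2 hφa hφb B D R l N0 hB2 hs.one_le hl0
    w w' c hc (by rw [← hL]; exact hqw) hfw c' σ (σ / 8) εc η (M α 0) hc'0
    (by rw [← hL]; exact hc'2) hσ hεc hl2' (by rw [← hL]; linarith) (M_pos hs 0)
  obtain ⟨n, hn1, N, J, K, hK0, hK1, hJ1, hN, hRm, a1, a2, a3, a4, a5, a6⟩ :=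
    (hsep.and_eventually hnum).exists
  have hG : l * (Real.log B / 2) ≤ Real.log (2 ^ q * Z B D α q l) -
      (q * Real.log (2 * Z B D α 1 l) - (q - 1) * ((1 - κ) * (l * Real.log B))) := by
    rw [← hL]
    rw [pow_one] at hl1'
    have h1 := hφa l
    have h2 : q * ρ * l ≤ φ * l := mul_le_mul_of_nonneg_right hr1 hlr.le
    have h3 := mul_le_mul_of_nonneg_left hl1' hqpos.le
    have h4 : l * (L / 2) ≤ l * (q * g - L - q * η - (q - 1) * κ * L) := by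
      apply mul_le_mul_of_nonneg_left _ hlr.le
      have h5 : (q - 1) * κ * L ≤ L / 4 := by
        have h6 : (q - 1) * κ ≤ 1 / 4 := by nlinarith
        nlinarith
      linarith
    have h7 : l * (q * g - L - q * η - (q - 1) * κ * L) =
        q * ρ * l - q * ((φ1 + η) * l) + (q - 1) * ((1 - κ) * (l * L)) := by
      rw [hg]
      ring
    rw [h7] at h4
    linarith
  exact contra hs hq2 κ c' σ (σ / 8) εc (l * (Real.log B / 2)) w c K l N N0 n J hl0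
    (by rw [← hL]; positivity) hAt hN hK0 hK1 hJ1 (fun z0 hz0 => hn1 (l * N) hRm z0 hz0)
    a1 a2 a3 hG a4 a5 a6

/-- The extremal growth theorem.  PROOF.  `expo_M`, `expo_Z` (`q = 1`), `gap_zero`:
`ρ + log B ≤ φ1`.  For large `n`: `α n z ≤ M α n ≤ (1/2) exp ((ρ + ε/2) n)`, so
`α n z B^n exp (-ε n) ≤ (1/2) exp ((ρ + log B) n - (ε/2) n) ≤ (1/2) exp (φ1 n) ≤ Z 1 n`. -/
theorem EG {B D : ℕ} {α : ℕ → ℤ → ℝ} (hcore : Core) (hs : Sys B D α) (w c w' : ℝ) (R : ℕ)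
    (hc : 0 < c) (hww : w < w') (hsep : Sep B α w c R)
    (hM : ∀ n : ℕ, ∃ z, Real.exp (w' * n) ≤ 2 * α n z) (ε : ℝ) (hε : 0 < ε) :
    ∃ n0 : ℕ, ∀ n : ℕ, n0 ≤ n → ∀ z : ℤ,
      α n z * (B : ℝ) ^ n * Real.exp (-(ε * n)) ≤ Z B D α 1 n := by
  obtain ⟨ρ, hρ1, hρ2⟩ := expo_M hs w' hM
  obtain ⟨φ1, hφ1, hφ2⟩ := expo_Z hs w' hM 1 le_rfl
  have hgap := gap_zero hcore hs w c w' R hc hww hsep hM ρ φ1 hρ1 hρ2 hφ1 hφ2
  obtain ⟨n0, hn0⟩ := hρ2 (ε / 2) (by positivity)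
  refine ⟨n0, fun n hn z => ?_⟩
  have hB2 := hs.two_le
  have hBpos : (0 : ℝ) < B := by exact_mod_cast (by omega : 0 < B)
  have hnr : (0 : ℝ) ≤ n := Nat.cast_nonneg n
  have h1 := hn0 n hn
  have h2 := hφ1 n
  have hMp := M_pos hs n
  have hZp := Z_pos hs 1 n
  have h3 : 2 * M α n ≤ Real.exp ((ρ + ε / 2) * n) := by
    rwa [Real.log_le_iff_le_exp (by positivity)] at h1
  have h4 : Real.exp (φ1 * n) ≤ 2 * Z B D α 1 n := by
    rw [Real.le_log_iff_exp_le (by positivity), pow_one] at h2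
    exact h2
  have h5 : (B : ℝ) ^ n = Real.exp (n * Real.log B) := by
    rw [← Real.log_pow, Real.exp_log (by positivity)]
  have h6 : α n z * (B : ℝ) ^ n * Real.exp (-(ε * n)) ≤
      M α n * (B : ℝ) ^ n * Real.exp (-(ε * n)) := by
    apply mul_le_mul_of_nonneg_right _ (Real.exp_pos _).le
    exact mul_le_mul_of_nonneg_right (le_M hs n z) (by positivity)
  have h7 : 2 * (M α n * (B : ℝ) ^ n * Real.exp (-(ε * n))) ≤ Real.exp (φ1 * n) := by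
    calc 2 * (M α n * (B : ℝ) ^ n * Real.exp (-(ε * n)))
        = 2 * M α n * ((B : ℝ) ^ n * Real.exp (-(ε * n))) := by ring
      _ ≤ Real.exp ((ρ + ε / 2) * n) * ((B : ℝ) ^ n * Real.exp (-(ε * n))) :=
          mul_le_mul_of_nonneg_right h3 (by positivity)
      _ = Real.exp ((ρ + Real.log B) * n - ε / 2 * n) := by
          rw [h5, ← Real.exp_add, ← Real.exp_add]
          congr 1
          ring
      _ ≤ Real.exp (φ1 * n) := by
          apply Real.exp_le_exp.mpr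
          have h8 := mul_le_mul_of_nonneg_right hgap hnr
          have h9 : 0 ≤ ε / 2 * n := by positivity
          linarith
  linarith

end Pool.Agent.Lib.H21X
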