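import Mathlib

/-!
# Extremal growth of abstract scale systems: definitions

A scale system in base `B` is a family of functions `α n` on the integers; `z` stands for the
cell `[z, z + 1) B^(-n)` of the scale `n`.  The main inequality `step` says that inside a cell
`z0` of scale `n` the function `α (n + m)` is at most `α n z0` times an average of translates of
`α m`.  `Z` is the sum of the `q`-th powers.
-/

namespace Pool.Agent.Lib.H21X

open Finset Filter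

/-- The cells of scale `n` in the domain `[-D, D)`. -/
noncomputable def dom (B D n : ℕ) : Finset ℤ := Finset.Ico (-((D : ℤ) * (B : ℤ) ^ n)) ((D : ℤ) * (B : ℤ) ^ n)

/-- The sum of the `q`-th powers over the cells of scale `n`. -/
noncomputable def Z (B D : ℕ) (α : ℕ → ℤ → ℝ) (q n : ℕ) : ℝ := ∑ z ∈ dom B D n, α n z ^ q

/-- The maximum over the cells of scale `n`. -/
noncomputable def M (α : ℕ → ℤ → ℝ) (n : ℕ) : ℝ := ⨆ z : ℤ, α n z

/-- Scale systems. -/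
structure Sys (B D : ℕ) (α : ℕ → ℤ → ℝ) : Prop where
  two_le : 2 ≤ B
  one_le : 1 ≤ D
  nonneg : ∀ n z, 0 ≤ α n z
  supp : ∀ n z, z ∉ dom B D n → α n z = 0
  exists_pos : ∀ n, ∃ z, 0 < α n z
  step : ∀ (n m : ℕ) (z0 : ℤ), ∃ k : ℕ, 0 < k ∧ ∃ u : Fin k → ℤ,
    ∀ y ∈ Finset.Ico (0 : ℤ) ((B : ℤ) ^ m),
      α (n + m) ((B : ℤ) ^ m * z0 + y) ≤
        α n z0 * ((1 / (k : ℝ)) * ∑ i, (α m (u i + y) + α m (u i + y + 1)))

/-- Separation: for infinitely many `n` and all large cells `z0` of scale `n` the inequality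
`step` holds with at least `exp (c n)` DISTINCT translates. -/
def Sep (B : ℕ) (α : ℕ → ℤ → ℝ) (w c : ℝ) (R : ℕ) : Prop :=
  ∃ᶠ n : ℕ in atTop, ∀ m : ℕ, n + R ≤ m → ∀ z0 : ℤ, Real.exp (w * n) ≤ α n z0 →
    ∃ U : Finset ℤ, Real.exp (c * n) ≤ (U.card : ℝ) ∧
      ∀ y ∈ Finset.Ico (0 : ℤ) ((B : ℤ) ^ m),
        α (n + m) ((B : ℤ) ^ m * z0 + y) ≤
          α n z0 * ((1 / (U.card : ℝ)) * ∑ u ∈ U, (α m (u + y) + α m (u + y + 1)))

/-- The number of `u ∈ U` with `u + y ∈ A`. -/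
noncomputable def rr (U A : Finset ℕ) (y : ℤ) : ℕ :=
  (U.filter (fun u : ℕ => ∃ a ∈ A, (u : ℤ) + y = (a : ℤ))).card

/-- Exactly regular finite trees of height `N` in base `b` (by height: `R 0` belongs to the last
digit). -/
def IsReg (b N : ℕ) (R : ℕ → ℕ) (A : Finset ℕ) : Prop :=
  ∀ h < N, ∀ y ∈ A.image (fun x => x / b ^ (h + 1)),
    ((A.image (fun x => x / b ^ h)).filter (fun x => x / b = y)).card = R h

/-- The statement of the core theorem (part (I)) for the parameters `κ`, `c`, `σ`, `γ`, `b`, `ε`,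
`N0`. -/
def CoreAt (κ c σ γ : ℝ) (b : ℕ) (ε : ℝ) (N0 : ℕ) : Prop :=
  ∀ N : ℕ, N0 ≤ N → ∀ U A : Finset ℕ, U ⊆ range (b ^ N) → A ⊆ range (b ^ N) →
    (b : ℝ) ^ (c * N) ≤ U.card →
    (∀ (R : ℕ → ℕ) (A' : Finset ℕ), A' ⊆ A → A'.Nonempty → IsReg b N R A' →
      (b : ℝ) ^ (-(γ * N)) * A.card ≤ A'.card →
        (((range N).filter (fun h => (b : ℝ) ^ (1 - κ) < R h)).card : ℝ) ≤ σ * N) →
    (Finset.addEnergy U A : ℝ) ≤ (b : ℝ) ^ (-(ε * N)) * (U.card : ℝ) ^ 2 * A.card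

/-- The statement of the core theorem (part (I)). -/
def Core : Prop :=
  ∀ κ c : ℝ, 0 < κ → κ ≤ 1 → 0 < c → c ≤ 1 → ∃ σ > 0, ∀ γ > 0, ∃ b0 : ℕ, ∀ b ≥ b0,
    ∃ ε > 0, ∃ N0 : ℕ, CoreAt κ c σ γ b ε N0

/-- The `n`-digit numbers in base `B` with digits in `A`. -/
def Cd (B : ℕ) (A : Finset ℕ) : ℕ → Finset ℕ
  | 0 => {0}
  | n + 1 => (Cd B A n ×ˢ A).image (fun p => B * p.1 + p.2)

/-- Mode +: the number of pairs of words whose position `j + t i` is within `H` of `x`. -/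
noncomputable def cntP (B : ℕ) (A : Finset ℕ) (t H : ℝ) (n : ℕ) (x : ℝ) : ℕ :=
  ((Cd B A n ×ˢ Cd B A n).filter (fun p => |x - (p.2 + t * p.1)| ≤ H)).card

/-- Mode -: the number of pairs of words `(i, j)` of length `n ≥ 1` for which the descendant
`B^n b - j - u i` of `b` lies in the union `G` of the cells `[k r, (k + 1) r)`, `k ∈ S`; for
`n = 0` the value is `1` by definition (the starting point may be a neighbour of `G`). -/
noncomputable def cntG (B : ℕ) (A : Finset ℕ) (u r : ℝ) (S : Finset ℤ) (n : ℕ) (b : ℝ) : ℕ :=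
  if n = 0 then 1 else
    ((Cd B A n ×ˢ Cd B A n).filter
      (fun p => ⌊((B : ℝ) ^ n * b - (p.2 + u * p.1)) / r⌋ ∈ S)).card

/-- The neighbours of the cells in `S` (and `S` itself). -/
noncomputable def nb (S : Finset ℤ) : Finset ℤ :=
  S ∪ S.image (fun k => k + 1) ∪ S.image (fun k => k - 1)

/-- The smallest value of `cntG` on the cell `z` of scale `n`. -/
noncomputable def mn (B : ℕ) (A : Finset ℕ) (u r : ℝ) (S : Finset ℤ) (n : ℕ) (z : ℤ) : ℕ :=
  sInf {c : ℕ | ∃ b : ℝ, ⌊(B : ℝ) ^ n * b / r⌋ = z ∧ c = cntG B A u r S n b}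

/-- Mode -: the cell function. -/
noncomputable def am (B : ℕ) (A : Finset ℕ) (u r : ℝ) (S : Finset ℤ) (n : ℕ) (z : ℤ) : ℝ :=
  if z / (B : ℤ) ^ n ∈ nb S then 1 / (mn B A u r S n z : ℝ) else 0

/-- The sum of the `p`-th powers, real exponent. -/
noncomputable def Zr (B D : ℕ) (α : ℕ → ℤ → ℝ) (p : ℝ) (n : ℕ) : ℝ := ∑ z ∈ dom B D n, α n z ^ p

end Pool.Agent.Lib.H21X
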