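import Pool.Agent.Lib.H21X.Defs

/-!
# Chunk E1: digit sets

PROOF.  Inductions on `m` resp. `n`.  `Cd_lt`: `a < B^n`, `d < B` give `B a + d < B^(n+1)`.
`Cd_card`: the map `(a, d) ↦ B a + d` is injective for digits `d < B`.
`Cd_add`: elements of `Cd B A (n+m)` are exactly the numbers `B^m a + v`, `a ∈ Cd B A n`,
`v ∈ Cd B A m` (induction on `m`; `B (B^m a + v) + d = B^(m+1) a + (B v + d)`).
-/

namespace Pool.Agent.Lib.H21X

open Finset Filter

theorem Cd_lt (B : ℕ) (A : Finset ℕ) (hA : A ⊆ range B) (n : ℕ) (a : ℕ) (ha : a ∈ Cd B A n) :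
    a < B ^ n := by
  induction n generalizing a with
  | zero =>
    rw [Cd, Finset.mem_singleton] at ha
    rw [ha]; norm_num
  | succ n ih =>
    rw [Cd, Finset.mem_image] at ha
    obtain ⟨p, hp, rfl⟩ := ha
    rw [Finset.mem_product] at hp
    have h1 := ih p.1 hp.1
    have h2 : p.2 < B := Finset.mem_range.1 (hA hp.2)
    have h3 : B * (p.1 + 1) ≤ B * B ^ n := Nat.mul_le_mul_left B h1
    rw [pow_succ, mul_comm (B ^ n) B]
    calc B * p.1 + p.2 < B * p.1 + B := by omega
      _ = B * (p.1 + 1) := by ring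
      _ ≤ B * B ^ n := h3

theorem Cd_nonempty (B : ℕ) (A : Finset ℕ) (hA : A.Nonempty) (n : ℕ) : (Cd B A n).Nonempty := by
  induction n with
  | zero =>
    rw [Cd]; exact Finset.singleton_nonempty 0
  | succ n ih =>
    rw [Cd]
    exact (ih.product hA).image _

theorem Cd_card (B : ℕ) (A : Finset ℕ) (hA : A ⊆ range B) (n : ℕ) :
    (Cd B A n).card = A.card ^ n := by
  induction n with
  | zero => rw [Cd, Finset.card_singleton, pow_zero]
  | succ n ih =>
    rw [Cd, Finset.card_image_of_injOn, Finset.card_product, ih, pow_succ]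
    intro p hp q hq hpq
    rw [Finset.mem_coe, Finset.mem_product] at hp hq
    have h2 : p.2 < B := Finset.mem_range.1 (hA hp.2)
    have h3 : q.2 < B := Finset.mem_range.1 (hA hq.2)
    have hpq' : B * p.1 + p.2 = B * q.1 + q.2 := hpq
    have hB : 0 < B := by omega
    have h4 : p.1 = q.1 := by
      have e1 : (B * p.1 + p.2) / B = p.1 := by
        rw [Nat.mul_add_div hB, Nat.div_eq_of_lt h2, add_zero]
      have e2 : (B * q.1 + q.2) / B = q.1 := by
        rw [Nat.mul_add_div hB, Nat.div_eq_of_lt h3, add_zero]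
      rw [← e1, ← e2, hpq']
    have h5 : p.2 = q.2 := by
      rw [h4] at hpq'
      omega
    exact Prod.ext h4 h5

theorem Cd_add (B : ℕ) (A : Finset ℕ) (n m : ℕ) (x : ℕ) :
    x ∈ Cd B A (n + m) ↔ ∃ a ∈ Cd B A n, ∃ v ∈ Cd B A m, x = B ^ m * a + v := by
  induction m generalizing x with
  | zero =>
    rw [add_zero]
    constructor
    · intro h
      exact ⟨x, h, 0, by rw [Cd]; exact Finset.mem_singleton_self 0, by rw [pow_zero]; omega⟩
    · rintro ⟨a, ha, v, hv, rfl⟩
      rw [Cd, Finset.mem_singleton] at hv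
      rw [hv, pow_zero, one_mul, add_zero]
      exact ha
  | succ m ih =>
    constructor
    · intro h
      rw [← add_assoc, Cd, Finset.mem_image] at h
      obtain ⟨p, hp, rfl⟩ := h
      rw [Finset.mem_product] at hp
      obtain ⟨a, ha, v, hv, hx⟩ := (ih p.1).1 hp.1
      refine ⟨a, ha, B * v + p.2, ?_, ?_⟩
      · rw [Cd, Finset.mem_image]
        exact ⟨(v, p.2), Finset.mem_product.2 ⟨hv, hp.2⟩, rfl⟩
      · rw [hx, pow_succ]; ring
    · rintro ⟨a, ha, v, hv, rfl⟩
      rw [Cd, Finset.mem_image] at hv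
      obtain ⟨p, hp, rfl⟩ := hv
      rw [Finset.mem_product] at hp
      rw [← add_assoc, Cd, Finset.mem_image]
      refine ⟨(B ^ m * a + p.1, p.2), Finset.mem_product.2 ⟨?_, hp.2⟩, ?_⟩
      · exact (ih _).2 ⟨a, ha, p.1, hp.1, rfl⟩
      · simp only
        rw [pow_succ]; ring

theorem Cd_add_inj (B : ℕ) (A : Finset ℕ) (hA : A ⊆ range B) (m : ℕ) (a a' v v' : ℕ)
    (hv : v ∈ Cd B A m) (hv' : v' ∈ Cd B A m) (h : B ^ m * a + v = B ^ m * a' + v') :
    a = a' ∧ v = v' := by
  have h1 := Cd_lt B A hA m v hv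
  have h2 := Cd_lt B A hA m v' hv'
  have hB : 0 < B ^ m := by omega
  have h4 : a = a' := by
    have e1 : (B ^ m * a + v) / B ^ m = a := by
      rw [Nat.mul_add_div hB, Nat.div_eq_of_lt h1, add_zero]
    have e2 : (B ^ m * a' + v') / B ^ m = a' := by
      rw [Nat.mul_add_div hB, Nat.div_eq_of_lt h2, add_zero]
    rw [← e1, ← e2, h]
  refine ⟨h4, ?_⟩
  rw [h4] at h
  omega

end Pool.Agent.Lib.H21X
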