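import Pool.Agent.Lib.H21X.E1

/-!
# Chunk E3: mode +, splitting of words

`cntP B A t H n x = #{(i, j) ∈ Cd_n × Cd_n : |x - (j + t i)| ≤ H}`, `H ≥ 2 + |t|`.

PROOF.  A pair of words of length `n + m` is `(B^m i + i', B^m j + j')` (`Cd_add`,
`Cd_add_inj`), position `B^m (j + t i) + (j' + t i')`.  Let `z = B^m z0 + y`, `0 ≤ y < B^m`.  If
`|z - B^m (j + t i) - (j' + t i')| ≤ H` then, because
`|y - (j' + t i')| ≤ (B^m - 1)(2 + |t|)` (`Cd_lt`),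
`|z0 - (j + t i)| ≤ (H + (B^m - 1)(2 + |t|)) / B^m ≤ H`.  Put `x = B^m (z0 - (j + t i))`,
`u = ⌊x⌋`; the number of `(i', j')` with `|x + y - (j' + t i')| ≤ H` is at most
`cntP m (u + y) + cntP m (u + y + 1)`: with `X = x + y - (j' + t i') ∈ [-H, H]` and
`θ = x - u ∈ [0, 1)`, `u + y - (j' + t i') = X - θ` and `u + y + 1 - (j' + t i') = X + 1 - θ`; if
`X - θ ≥ -H` the first is in `[-H, H]`, otherwise `X + 1 - θ ∈ [X, 1 - H]` and `1 - H ≤ H`.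
-/

namespace Pool.Agent.Lib.H21X

open Finset Filter

private theorem E3_decomp (B : ℕ) (A : Finset ℕ) (hA : A ⊆ range B) (n m x : ℕ)
    (hx : x ∈ Cd B A (n + m)) : x / B ^ m ∈ Cd B A n ∧ x % B ^ m ∈ Cd B A m := by
  obtain ⟨a, ha, v, hv, rfl⟩ := (Cd_add B A n m x).1 hx
  have h1 := Cd_lt B A hA m v hv
  have hB : 0 < B ^ m := by omega
  rw [Nat.mul_add_div hB, Nat.div_eq_of_lt h1, add_zero, Nat.mul_add_mod, Nat.mod_eq_of_lt h1]
  exact ⟨ha, hv⟩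

theorem cntP_split (B : ℕ) (A : Finset ℕ) (hB : 2 ≤ B) (hA : A ⊆ range B) (t H : ℝ)
    (hH : 2 + |t| ≤ H) (n m : ℕ) (z0 y : ℤ) (hy0 : 0 ≤ y) (hy1 : y < (B : ℤ) ^ m) :
    cntP B A t H (n + m) (((B : ℤ) ^ m * z0 + y : ℤ) : ℝ) ≤
      ∑ p ∈ (Cd B A n ×ˢ Cd B A n).filter (fun p => |(z0 : ℝ) - (p.2 + t * p.1)| ≤ H),
        (cntP B A t H m ((⌊(B : ℝ) ^ m * (z0 - (p.2 + t * p.1))⌋ + y : ℤ) : ℝ) +
          cntP B A t H m ((⌊(B : ℝ) ^ m * (z0 - (p.2 + t * p.1))⌋ + y + 1 : ℤ) : ℝ)) := by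
  classical
  have hBm : 0 < B ^ m := by positivity
  have hb1 : (1 : ℝ) ≤ (B : ℝ) ^ m := by
    have : (1 : ℝ) ≤ ((B ^ m : ℕ) : ℝ) := by exact_mod_cast hBm
    simpa using this
  have hyr0 : (0 : ℝ) ≤ (y : ℝ) := by exact_mod_cast hy0
  have hyr1 : (y : ℝ) ≤ (B : ℝ) ^ m - 1 := by
    have h : y + 1 ≤ (B : ℤ) ^ m := hy1
    have h' : ((y + 1 : ℤ) : ℝ) ≤ (((B : ℤ) ^ m : ℤ) : ℝ) := by exact_mod_cast h
    push_cast at h'
    linarith
  have hmodr : ∀ a : ℕ, ((a % B ^ m : ℕ) : ℝ) ≤ (B : ℝ) ^ m - 1 := by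
    intro a
    have h : a % B ^ m + 1 ≤ B ^ m := Nat.mod_lt a hBm
    have h' : ((a % B ^ m + 1 : ℕ) : ℝ) ≤ ((B ^ m : ℕ) : ℝ) := by exact_mod_cast h
    rw [Nat.cast_add, Nat.cast_one, Nat.cast_pow] at h'
    linarith
  have hdivr : ∀ a : ℕ, (a : ℝ) = (B : ℝ) ^ m * ((a / B ^ m : ℕ) : ℝ) + ((a % B ^ m : ℕ) : ℝ) := by
    intro a
    have h := Nat.div_add_mod a (B ^ m)
    have h' : ((B ^ m * (a / B ^ m) + a % B ^ m : ℕ) : ℝ) = (a : ℝ) := by rw [h]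
    rw [← h', Nat.cast_add, Nat.cast_mul, Nat.cast_pow]
  have hkey : ∀ p : ℕ × ℕ, (((B : ℤ) ^ m * z0 + y : ℤ) : ℝ) - ((p.2 : ℝ) + t * (p.1 : ℝ)) =
      (B : ℝ) ^ m * ((z0 : ℝ) - (((p.2 / B ^ m : ℕ) : ℝ) + t * ((p.1 / B ^ m : ℕ) : ℝ))) +
        ((y : ℝ) - (((p.2 % B ^ m : ℕ) : ℝ) + t * ((p.1 % B ^ m : ℕ) : ℝ))) := by
    intro p
    have e1 := hdivr p.1
    have e2 := hdivr p.2
    push_cast at e1 e2 ⊢
    rw [e1, e2]
    ring
  have hmap : ∀ p ∈ (Cd B A (n + m) ×ˢ Cd B A (n + m)).filter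
      (fun p => |(((B : ℤ) ^ m * z0 + y : ℤ) : ℝ) - (p.2 + t * p.1)| ≤ H),
      (p.1 / B ^ m, p.2 / B ^ m) ∈
        (Cd B A n ×ˢ Cd B A n).filter (fun p => |(z0 : ℝ) - (p.2 + t * p.1)| ≤ H) := by
    intro p hp
    rw [Finset.mem_filter, Finset.mem_product] at hp
    obtain ⟨⟨hp1, hp2⟩, hp3⟩ := hp
    rw [Finset.mem_filter, Finset.mem_product]
    refine ⟨⟨(E3_decomp B A hA n m p.1 hp1).1, (E3_decomp B A hA n m p.2 hp2).1⟩, ?_⟩
    rw [hkey p] at hp3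
    simp only
    have g1 := hmodr p.1
    have g2 := hmodr p.2
    have g3 : (0 : ℝ) ≤ ((p.1 % B ^ m : ℕ) : ℝ) := Nat.cast_nonneg _
    have g4 : (0 : ℝ) ≤ ((p.2 % B ^ m : ℕ) : ℝ) := Nat.cast_nonneg _
    set b : ℝ := (B : ℝ) ^ m
    set i' : ℝ := ((p.1 % B ^ m : ℕ) : ℝ)
    set j' : ℝ := ((p.2 % B ^ m : ℕ) : ℝ)
    set X0 : ℝ := (z0 : ℝ) - (((p.2 / B ^ m : ℕ) : ℝ) + t * ((p.1 / B ^ m : ℕ) : ℝ))
    have k1 : |(y : ℝ) - (j' + t * i')| ≤ (b - 1) * (1 + |t|) := by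
      have k2 : |(y : ℝ) - j'| ≤ b - 1 := by
        rw [abs_le]; constructor <;> linarith
      have k3 : |t * i'| ≤ |t| * (b - 1) := by
        rw [abs_mul, abs_of_nonneg g3]
        exact mul_le_mul_of_nonneg_left g1 (abs_nonneg t)
      have k4 : (y : ℝ) - (j' + t * i') = ((y : ℝ) - j') - t * i' := by ring
      rw [k4]
      calc |((y : ℝ) - j') - t * i'| ≤ |(y : ℝ) - j'| + |t * i'| := abs_sub _ _
        _ ≤ (b - 1) + |t| * (b - 1) := add_le_add k2 k3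
        _ = (b - 1) * (1 + |t|) := by ring
    have k5 : |b * X0| ≤ H + (b - 1) * (1 + |t|) := by
      have k6 : b * X0 = (b * X0 + ((y : ℝ) - (j' + t * i'))) - ((y : ℝ) - (j' + t * i')) := by ring
      rw [k6]
      exact (abs_sub _ _).trans (add_le_add hp3 k1)
    have k7 : (b - 1) * (1 + |t|) ≤ (b - 1) * H :=
      mul_le_mul_of_nonneg_left (by linarith) (by linarith)
    have k8 : b * |X0| ≤ b * H := by
      rw [abs_mul, abs_of_pos (by linarith : (0 : ℝ) < b)] at k5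
      nlinarith [k5, k7]
    exact le_of_mul_le_mul_left k8 (by linarith)
  unfold cntP
  rw [Finset.card_eq_sum_card_fiberwise hmap]
  apply Finset.sum_le_sum
  intro q _
  refine le_trans ?_ (Finset.card_union_le _ _)
  refine Finset.card_le_card_of_injOn (fun p : ℕ × ℕ => (p.1 % B ^ m, p.2 % B ^ m)) ?_ ?_
  · intro p hp
    rw [Finset.mem_coe, Finset.mem_filter, Finset.mem_filter, Finset.mem_product] at hp
    obtain ⟨⟨⟨hp1, hp2⟩, hp3⟩, hp4⟩ := hp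
    have hq1 : q.1 = p.1 / B ^ m := by rw [← hp4]
    have hq2 : q.2 = p.2 / B ^ m := by rw [← hp4]
    rw [hkey p, ← hq1, ← hq2] at hp3
    rw [Finset.mem_coe, Finset.mem_union, Finset.mem_filter, Finset.mem_filter,
      Finset.mem_product]
    have hin := And.intro (E3_decomp B A hA n m p.1 hp1).2 (E3_decomp B A hA n m p.2 hp2).2
    simp only
    set x : ℝ := (B : ℝ) ^ m * ((z0 : ℝ) - ((q.2 : ℝ) + t * (q.1 : ℝ)))
    have f1 := Int.floor_le x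
    have f2 := Int.lt_floor_add_one x
    have hH2 : 2 ≤ H := by
      have := abs_nonneg t
      linarith
    rw [abs_le] at hp3
    by_cases hc : -H ≤ (⌊x⌋ : ℝ) + y - (((p.2 % B ^ m : ℕ) : ℝ) + t * ((p.1 % B ^ m : ℕ) : ℝ))
    · left
      refine ⟨hin, ?_⟩
      rw [abs_le]
      push_cast at hc hp3 ⊢
      constructor
      · linarith
      · linarith [hp3.2]
    · right
      refine ⟨hin, ?_⟩
      rw [abs_le]
      push_cast at hc hp3 ⊢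
      push Not at hc
      constructor
      · linarith [hp3.1]
      · linarith
  · intro p hp p' hp' h
    rw [Finset.mem_coe, Finset.mem_filter] at hp hp'
    have e1 : p.1 / B ^ m = p'.1 / B ^ m := (Prod.ext_iff.1 (hp.2.trans hp'.2.symm)).1
    have e2 : p.2 / B ^ m = p'.2 / B ^ m := (Prod.ext_iff.1 (hp.2.trans hp'.2.symm)).2
    have e3 : p.1 % B ^ m = p'.1 % B ^ m := (Prod.ext_iff.1 h).1
    have e4 : p.2 % B ^ m = p'.2 % B ^ m := (Prod.ext_iff.1 h).2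
    refine Prod.ext ?_ ?_
    · rw [← Nat.div_add_mod p.1 (B ^ m), ← Nat.div_add_mod p'.1 (B ^ m), e1, e3]
    · rw [← Nat.div_add_mod p.2 (B ^ m), ← Nat.div_add_mod p'.2 (B ^ m), e2, e4]

end Pool.Agent.Lib.H21X
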