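import Pool.Agent.Lib.H21X.E2
import Pool.Agent.Lib.H21X.E3
import Pool.Agent.Lib.H21X.A1

/-!
# Chunk E4: mode + is a scale system

`α n z = cntP B A t H n z`, domain `D = ⌈H⌉ + 1`.

PROOF.  `supp`: `|z - (j + t i)| ≤ H`, `|j + t i| ≤ (1 + |t|)(B^n - 1)`, `H ≥ 1 + |t|` give
`|z| ≤ H B^n < D B^n`.  `exists_pos`: take `p ∈ Cd_n × Cd_n` (`Cd_nonempty`), `z = ⌊j + t i⌋`.
`step`: if `cntP n z0 = 0`, `cntP_split` gives `α (n+m) (B^m z0 + y) = 0` (take `k = 1`,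
`u = 0`); otherwise `k = cntP n z0`, enumerate the filtered set (`Finset.equivFin`) and let `u`
be the floors; `α n z0 * (1/k) = 1`.
`sepP`: take `w = c` and `n` from `irr_sep`; for `m ≥ n + 2` (so `R = 2`, `κ = 1` in
`floor_inj`) the floors are distinct, `U` = their set, `#U = cntP n z0 ≥ exp (c n)`.
`sumP`: `∑_z cntP n z = ∑_p #{z : |z - (j + t i)| ≤ H} ≤ (2 H + 1) #A^(2n)` (`Cd_card`).
-/

namespace Pool.Agent.Lib.H21X

open Finset Filter

private noncomputable def E4_F (B : ℕ) (A : Finset ℕ) (t H : ℝ) (n : ℕ) (z0 : ℤ) :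
    Finset (ℕ × ℕ) :=
  (Cd B A n ×ˢ Cd B A n).filter (fun p => |(z0 : ℝ) - (p.2 + t * p.1)| ≤ H)

private noncomputable def E4_u (B : ℕ) (t : ℝ) (m : ℕ) (z0 : ℤ) (p : ℕ × ℕ) : ℤ :=
  ⌊(B : ℝ) ^ m * ((z0 : ℝ) - (p.2 + t * p.1))⌋

private lemma E4_cnt (B : ℕ) (A : Finset ℕ) (t H : ℝ) (n : ℕ) (z0 : ℤ) :
    cntP B A t H n (z0 : ℝ) = (E4_F B A t H n z0).card := rfl

private lemma E4_split (B : ℕ) (A : Finset ℕ) (hB : 2 ≤ B) (hA : A ⊆ range B) (t H : ℝ)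
    (hH : 2 + |t| ≤ H) (n m : ℕ) (z0 y : ℤ) (hy : y ∈ Finset.Ico (0 : ℤ) ((B : ℤ) ^ m)) :
    ((cntP B A t H (n + m) (((B : ℤ) ^ m * z0 + y : ℤ) : ℝ) : ℕ) : ℝ) ≤
      ∑ p ∈ E4_F B A t H n z0,
        ((cntP B A t H m ((E4_u B t m z0 p + y : ℤ) : ℝ) : ℝ) +
          (cntP B A t H m ((E4_u B t m z0 p + y + 1 : ℤ) : ℝ) : ℝ)) := by
  rw [Finset.mem_Ico] at hy
  have h := cntP_split B A hB hA t H hH n m z0 y hy.1 hy.2
  unfold E4_F E4_u
  exact_mod_cast h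

theorem sysP (B : ℕ) (A : Finset ℕ) (hB : 2 ≤ B) (hA : A ⊆ range B) (hne : A.Nonempty) (t H : ℝ)
    (hH : 2 + |t| ≤ H) :
    Sys B (⌈H⌉₊ + 1) (fun n z => (cntP B A t H n (z : ℝ) : ℝ)) := by
  have ht0 : 0 ≤ |t| := abs_nonneg t
  refine ⟨hB, by omega, fun n z => Nat.cast_nonneg _, ?_, ?_, ?_⟩
  · intro n z hz
    by_contra hne0
    have hne1 : cntP B A t H n (z : ℝ) ≠ 0 := fun h => hne0 (by simp only [h, Nat.cast_zero])
    rw [E4_cnt] at hne1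
    obtain ⟨p, hp⟩ := Finset.card_ne_zero.1 hne1
    unfold E4_F at hp
    rw [Finset.mem_filter, Finset.mem_product] at hp
    obtain ⟨⟨hp1, hp2⟩, hp3⟩ := hp
    have h1 : (p.1 : ℝ) + 1 ≤ (B : ℝ) ^ n := by exact_mod_cast Cd_lt B A hA n p.1 hp1
    have h2 : (p.2 : ℝ) + 1 ≤ (B : ℝ) ^ n := by exact_mod_cast Cd_lt B A hA n p.2 hp2
    have h10 : (0 : ℝ) ≤ p.1 := Nat.cast_nonneg _
    have h20 : (0 : ℝ) ≤ p.2 := Nat.cast_nonneg _
    have h3 : |t * (p.1 : ℝ)| ≤ |t| * ((B : ℝ) ^ n - 1) := by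
      rw [abs_mul, abs_of_nonneg h10]
      exact mul_le_mul_of_nonneg_left (by linarith) ht0
    have h4 : (H - 1 - |t|) * ((B : ℝ) ^ n - 1) ≥ 0 :=
      mul_nonneg (by linarith) (by linarith)
    have h5 : |(z : ℝ)| ≤ H * (B : ℝ) ^ n := by
      have h6 := abs_le.1 hp3
      have h7 := abs_le.1 h3
      rw [abs_le]
      constructor <;> nlinarith [h6.1, h6.2, h7.1, h7.2, h4]
    have hD : H + 1 ≤ ((⌈H⌉₊ + 1 : ℕ) : ℝ) := by
      push_cast
      linarith [Nat.le_ceil H]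
    have hBn : (1 : ℝ) ≤ (B : ℝ) ^ n := by linarith
    have h8 : H * (B : ℝ) ^ n < ((⌈H⌉₊ + 1 : ℕ) : ℝ) * (B : ℝ) ^ n := by
      have : (H + 1) * (B : ℝ) ^ n ≤ ((⌈H⌉₊ + 1 : ℕ) : ℝ) * (B : ℝ) ^ n :=
        mul_le_mul_of_nonneg_right hD (by linarith)
      linarith
    apply hz
    unfold dom
    rw [Finset.mem_Ico]
    have h9 := abs_le.1 h5
    constructor
    · have : (((-(((⌈H⌉₊ + 1 : ℕ) : ℤ) * (B : ℤ) ^ n) : ℤ)) : ℝ) ≤ (z : ℝ) := by
        push_cast at h8 ⊢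
        linarith [h9.1]
      exact_mod_cast this
    · have : (z : ℝ) < (((((⌈H⌉₊ + 1 : ℕ) : ℤ) * (B : ℤ) ^ n) : ℤ) : ℝ) := by
        push_cast at h8 ⊢
        linarith [h9.2]
      exact_mod_cast this
  · intro n
    obtain ⟨i, hi⟩ := Cd_nonempty B A hne n
    refine ⟨⌊(i : ℝ) + t * i⌋, ?_⟩
    have h1 : (i, i) ∈ E4_F B A t H n ⌊(i : ℝ) + t * i⌋ := by
      unfold E4_F
      rw [Finset.mem_filter, Finset.mem_product]
      refine ⟨⟨hi, hi⟩, ?_⟩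
      have h2 := Int.floor_le ((i : ℝ) + t * i)
      have h3 := Int.lt_floor_add_one ((i : ℝ) + t * i)
      rw [abs_le]
      constructor <;> simp only <;> linarith
    have h2 : 0 < cntP B A t H n ((⌊(i : ℝ) + t * i⌋ : ℤ) : ℝ) := by
      rw [E4_cnt]
      exact Finset.card_pos.2 ⟨_, h1⟩
    exact_mod_cast h2
  · intro n m z0
    by_cases hF : (E4_F B A t H n z0).card = 0
    · refine ⟨1, one_pos, fun _ => 0, fun y hy => ?_⟩
      have h1 := E4_split B A hB hA t H hH n m z0 y hy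
      rw [Finset.card_eq_zero] at hF
      rw [hF, Finset.sum_empty] at h1
      have h2 : ((cntP B A t H n (z0 : ℝ) : ℕ) : ℝ) = 0 := by
        rw [E4_cnt, hF]
        simp
      simp only
      rw [h2, zero_mul]
      exact h1
    · refine ⟨(E4_F B A t H n z0).card, Nat.pos_of_ne_zero hF,
        fun i => E4_u B t m z0 ((E4_F B A t H n z0).equivFin.symm i).1, fun y hy => ?_⟩
      have h1 := E4_split B A hB hA t H hH n m z0 y hy
      simp only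
      rw [E4_cnt B A t H n z0, ← mul_assoc, mul_one_div_cancel (by exact_mod_cast hF), one_mul]
      refine h1.trans (le_of_eq ?_)
      rw [← Finset.sum_coe_sort]
      exact (Equiv.sum_comp (E4_F B A t H n z0).equivFin.symm (fun x =>
        ((cntP B A t H m ((E4_u B t m z0 x.1 + y : ℤ) : ℝ) : ℝ) +
          (cntP B A t H m ((E4_u B t m z0 x.1 + y + 1 : ℤ) : ℝ) : ℝ)))).symm

theorem sepP (B : ℕ) (A : Finset ℕ) (hB : 2 ≤ B) (hA : A ⊆ range B) (t H : ℝ)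
    (hH : 2 + |t| ≤ H) (ht : Irrational t) (c : ℝ) :
    Sep B (fun n z => (cntP B A t H n (z : ℝ) : ℝ)) c c 2 := by
  unfold Sep
  refine (irr_sep B hB t ht).mono fun n hn m hm z0 hz0 => ?_
  have hinj : Set.InjOn (E4_u B t m z0) (E4_F B A t H n z0 : Set (ℕ × ℕ)) := by
    intro p hp p' hp' hpp
    by_contra hne
    rw [Finset.mem_coe] at hp hp'
    unfold E4_F at hp hp'
    rw [Finset.mem_filter, Finset.mem_product] at hp hp'
    have h1 := floor_inj B hB t n m 2 1 (by rw [one_mul]) hm hn (z0 : ℝ) p p'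
      (Cd_lt B A hA n p.1 hp.1.1) (Cd_lt B A hA n p'.1 hp'.1.1) hne
    rw [one_mul, one_mul] at h1
    exact h1 hpp
  have hcard : ((E4_F B A t H n z0).image (E4_u B t m z0)).card = (E4_F B A t H n z0).card :=
    Finset.card_image_of_injOn hinj
  simp only at hz0
  rw [E4_cnt] at hz0
  have hpos : (0 : ℝ) < ((E4_F B A t H n z0).card : ℝ) := lt_of_lt_of_le (Real.exp_pos _) hz0
  refine ⟨(E4_F B A t H n z0).image (E4_u B t m z0), ?_, fun y hy => ?_⟩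
  · rw [hcard]
    exact hz0
  · have h1 := E4_split B A hB hA t H hH n m z0 y hy
    simp only
    rw [hcard, E4_cnt B A t H n z0, ← mul_assoc, mul_one_div_cancel hpos.ne', one_mul,
      Finset.sum_image hinj]
    exact h1

private lemma E4_count (S : Finset ℤ) (x H : ℝ) (hH : 0 ≤ H) :
    ((S.filter (fun z : ℤ => |(z : ℝ) - x| ≤ H)).card : ℝ) ≤ 2 * H + 1 := by
  have h1 : S.filter (fun z : ℤ => |(z : ℝ) - x| ≤ H) ⊆ Finset.Icc ⌈x - H⌉ ⌊x + H⌋ := by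
    intro z hz
    rw [Finset.mem_filter] at hz
    have h2 := abs_le.1 hz.2
    rw [Finset.mem_Icc, Int.ceil_le, Int.le_floor]
    constructor <;> linarith [h2.1, h2.2]
  have h3 : ((S.filter (fun z : ℤ => |(z : ℝ) - x| ≤ H)).card : ℝ) ≤
      ((Finset.Icc ⌈x - H⌉ ⌊x + H⌋).card : ℝ) := by
    exact_mod_cast Finset.card_le_card h1
  refine h3.trans ?_
  rw [Int.card_Icc]
  have h4 : (((⌊x + H⌋ + 1 - ⌈x - H⌉).toNat : ℤ) : ℝ) ≤ 2 * H + 1 := by
    rw [Int.toNat_eq_max]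
    push_cast
    refine max_le ?_ (by linarith)
    have h5 := Int.floor_le (x + H)
    have h6 := Int.le_ceil (x - H)
    linarith
  exact_mod_cast h4

theorem sumP (B : ℕ) (A : Finset ℕ) (hB : 2 ≤ B) (hA : A ⊆ range B) (t H : ℝ) (hH : 0 ≤ H)
    (D n : ℕ) :
    Z B D (fun n z => (cntP B A t H n (z : ℝ) : ℝ)) 1 n ≤ (2 * H + 1) * (A.card : ℝ) ^ (2 * n) := by
  unfold Z
  simp only [pow_one]
  have h1 : ∀ z : ℤ, (cntP B A t H n (z : ℝ) : ℝ) =
      ∑ p ∈ Cd B A n ×ˢ Cd B A n, if |(z : ℝ) - (p.2 + t * p.1)| ≤ H then (1 : ℝ) else 0 := by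
    intro z
    unfold cntP
    rw [Finset.card_filter]
    push_cast
    rfl
  simp only [h1]
  rw [Finset.sum_comm]
  have h2 : ∀ p ∈ Cd B A n ×ˢ Cd B A n,
      (∑ z ∈ dom B D n, if |(z : ℝ) - (p.2 + t * p.1)| ≤ H then (1 : ℝ) else 0) ≤ 2 * H + 1 := by
    intro p _
    have h3 := E4_count (dom B D n) (p.2 + t * p.1) H hH
    rw [Finset.card_filter] at h3
    push_cast at h3
    exact h3
  refine (Finset.sum_le_sum h2).trans (le_of_eq ?_)
  rw [Finset.sum_const, Finset.card_product, Cd_card B A hA n, nsmul_eq_mul]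
  push_cast
  ring

end Pool.Agent.Lib.H21X
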