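import Pool.Agent.Lib.H21X.D4
import Pool.Agent.Lib.H21X.E4

/-!
# Chunk E5: the maximal number of squares on a line (part (II+))

PROOF.  Put `H = max (W + 1) (2 + |t|)`, `α n z = cntP B A t H n z`, `D = ⌈H⌉ + 1`,
`V = log (max 1 (#A^2 / B)) ≥ 0`.  Let `ρ` be the exponent of `2 M n`: `fekete` applied to
`f n = log (2 M n)` (`M_submul`; lower bound `M n ≥ 1`: some count is positive, hence `≥ 1`).
CLAIM `ρ ≤ V`.  Otherwise let `w = c = (ρ + V)/2 / 2`... it is enough to take `w = c = ρ/2 > 0`,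
`w' = ρ > w`; `exp (ρ n) ≤ 2 M n = 2 α n z` for some `z` (`exists_eq_M`), `sepP`; `EG` with
`ε = (ρ - V)/2` gives for large `n`: `M n B^n exp (-ε n) ≤ Z 1 n ≤ (2H+1) #A^(2n)` (`sumP`), and
`M n ≥ exp (ρ n)/2`; so `ρ - ε ≤ log (#A^2/B) ≤ V` after `n → ∞`, but `ρ - ε > V`:
contradiction.
So for large `n ≥ n0`: `M n ≤ exp ((V + ε log B) n)`; for a real `h` with floor `z`:
`|h - j - t i| ≤ W` implies `|z - (j + t i)| ≤ W + 1 ≤ H`, so the number is `≤ M n`.  For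
`n < n0` it is at most `#A^(2 n0) + 1`.  Take `Cc = #A^(2 n0) + 1` (note `max.. ≥ 1`,
`B^(ε n) ≥ 1`).
-/

namespace Pool.Agent.Lib.H21X

open Finset Filter

private theorem E5_cnt_le (B : ℕ) (A : Finset ℕ) (t W H h : ℝ) (hH : W + 1 ≤ H) (n : ℕ) :
    (((Cd B A n ×ˢ Cd B A n).filter (fun p => |h - p.2 - t * p.1| ≤ W)).card : ℝ) ≤
      (cntP B A t H n ((⌊h⌋ : ℤ) : ℝ) : ℝ) := by
  unfold cntP
  rw [Nat.cast_le]
  apply Finset.card_le_card
  intro p hp
  rw [mem_filter] at hp ⊢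
  refine ⟨hp.1, ?_⟩
  have h1 := Int.floor_le h
  have h2 := Int.lt_floor_add_one h
  have h3 := abs_le.mp hp.2
  rw [abs_le]
  constructor <;> linarith [h3.1, h3.2]

private theorem E5_exp_unbounded (δ K : ℝ) (hδ : 0 < δ) (n0 : ℕ)
    (h : ∀ n : ℕ, n0 ≤ n → Real.exp (δ * n) ≤ K) : False := by
  have hn := h (max n0 ⌈K / δ⌉₊) (le_max_left _ _)
  have h1 : K / δ ≤ ((max n0 ⌈K / δ⌉₊ : ℕ) : ℝ) :=
    (Nat.le_ceil _).trans (by exact_mod_cast le_max_right _ _)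
  rw [div_le_iff₀ hδ] at h1
  have h2 := Real.add_one_le_exp (δ * ((max n0 ⌈K / δ⌉₊ : ℕ) : ℝ))
  linarith

theorem modePlus (hcore : Core) (B : ℕ) (hB : 2 ≤ B) (A : Finset ℕ) (hA : A ⊆ range B)
    (hne : A.Nonempty) (t : ℝ) (ht : Irrational t) (W ε : ℝ) (hε : 0 < ε) :
    ∃ Cc : ℝ, ∀ (n : ℕ) (h : ℝ),
      (((Cd B A n ×ˢ Cd B A n).filter (fun p => |h - p.2 - t * p.1| ≤ W)).card : ℝ) ≤
        Cc * (max 1 ((A.card : ℝ) ^ 2 / B)) ^ n * (B : ℝ) ^ (ε * n) := by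
  set H : ℝ := max (W + 1) (2 + |t|) with hHdef
  have hH1 : W + 1 ≤ H := le_max_left _ _
  have hH2 : 2 + |t| ≤ H := le_max_right _ _
  have hH0 : 0 ≤ H := by
    have := abs_nonneg t
    linarith
  have hs := sysP B A hB hA hne t H hH2
  set α : ℕ → ℤ → ℝ := fun n z => (cntP B A t H n (z : ℝ) : ℝ) with hα
  have ha1 : (1 : ℝ) ≤ A.card := by exact_mod_cast hne.card_pos
  have hB1 : (1 : ℝ) < B := by
    have : 1 < B := by omega
    exact_mod_cast this
  have hB0 : (0 : ℝ) < B := by linarith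
  have hlB : 0 < Real.log B := Real.log_pos hB1
  have hMe : ∀ n : ℕ, ∃ z, Real.exp (0 * n) ≤ 2 * α n z := by
    intro n
    obtain ⟨z, hz⟩ := hs.exists_pos n
    refine ⟨z, ?_⟩
    rw [zero_mul, Real.exp_zero]
    have h1 : (1 : ℝ) ≤ α n z := by
      have hz1 : (0 : ℝ) < (cntP B A t H n (z : ℝ) : ℝ) := hz
      have h0 : 0 < cntP B A t H n (z : ℝ) := by exact_mod_cast hz1
      show (1 : ℝ) ≤ (cntP B A t H n (z : ℝ) : ℝ)
      exact_mod_cast h0
    linarith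
  obtain ⟨ρ, hρ1, hρ2⟩ := expo_M hs 0 hMe
  set Q : ℝ := max 1 ((A.card : ℝ) ^ 2 / B) with hQ
  have hQ1 : 1 ≤ Q := le_max_left _ _
  have hQ2 : (A.card : ℝ) ^ 2 / B ≤ Q := le_max_right _ _
  have hQ0 : 0 < Q := by linarith
  have hV0 : 0 ≤ Real.log Q := Real.log_nonneg hQ1
  have hρV : ρ ≤ Real.log Q := by
    by_contra hcon
    rw [not_le] at hcon
    have hM : ∀ n : ℕ, ∃ z, Real.exp (ρ * n) ≤ 2 * α n z := by
      intro n
      obtain ⟨z, _, hz⟩ := exists_eq_M hs n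
      refine ⟨z, ?_⟩
      rw [hz]
      have hp := M_pos hs n
      rw [← Real.le_log_iff_exp_le (by linarith)]
      exact hρ1 n
    have hsep := sepP B A hB hA t H hH2 ht (ρ / 2)
    obtain ⟨n0, hn0⟩ := EG hcore hs (ρ / 2) (ρ / 2) ρ 2 (by linarith) (by linarith) hsep hM
      ((ρ - Real.log Q) / 2) (by linarith)
    refine E5_exp_unbounded ((ρ - Real.log Q) / 2) (2 * (2 * H + 1)) (by linarith) n0 ?_
    intro n hn
    obtain ⟨z, hz⟩ := hM n
    have h1 := hn0 n hn z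
    have h2 := sumP B A hB hA t H hH0 (⌈H⌉₊ + 1) n
    have h3 := h1.trans h2
    have h4 : (A.card : ℝ) ^ (2 * n) ≤ Q ^ n * (B : ℝ) ^ n := by
      rw [← mul_pow, pow_mul]
      apply pow_le_pow_left₀ (by positivity)
      rwa [div_le_iff₀ hB0] at hQ2
    have h5 : Q ^ n = Real.exp (Real.log Q * n) := by
      rw [mul_comm, Real.exp_nat_mul, Real.exp_log hQ0]
    have hBn : (0 : ℝ) < (B : ℝ) ^ n := by positivity
    have h6 : Real.exp (ρ * n) * (B : ℝ) ^ n * Real.exp (-((ρ - Real.log Q) / 2 * n)) ≤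
        2 * ((2 * H + 1) * (Real.exp (Real.log Q * n) * (B : ℝ) ^ n)) := by
      calc Real.exp (ρ * n) * (B : ℝ) ^ n * Real.exp (-((ρ - Real.log Q) / 2 * n)) ≤
            (2 * α n z) * (B : ℝ) ^ n * Real.exp (-((ρ - Real.log Q) / 2 * n)) := by
            apply mul_le_mul_of_nonneg_right _ (Real.exp_pos _).le
            exact mul_le_mul_of_nonneg_right hz hBn.le
        _ = 2 * (α n z * (B : ℝ) ^ n * Real.exp (-((ρ - Real.log Q) / 2 * n))) := by ring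
        _ ≤ 2 * ((2 * H + 1) * (A.card : ℝ) ^ (2 * n)) :=
            mul_le_mul_of_nonneg_left h3 (by norm_num)
        _ ≤ 2 * ((2 * H + 1) * (Q ^ n * (B : ℝ) ^ n)) := by
            apply mul_le_mul_of_nonneg_left _ (by norm_num)
            exact mul_le_mul_of_nonneg_left h4 (by linarith)
        _ = _ := by rw [h5]
    have h7 : Real.exp (ρ * n) * Real.exp (-((ρ - Real.log Q) / 2 * n)) =
        Real.exp ((ρ - Real.log Q) / 2 * n) * Real.exp (Real.log Q * n) := by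
      rw [← Real.exp_add, ← Real.exp_add]
      congr 1
      ring
    have h8 : Real.exp ((ρ - Real.log Q) / 2 * n) * (Real.exp (Real.log Q * n) * (B : ℝ) ^ n) ≤
        2 * (2 * H + 1) * (Real.exp (Real.log Q * n) * (B : ℝ) ^ n) := by
      calc _ = Real.exp ((ρ - Real.log Q) / 2 * n) * Real.exp (Real.log Q * n) *
            (B : ℝ) ^ n := by ring
        _ = Real.exp (ρ * n) * (B : ℝ) ^ n * Real.exp (-((ρ - Real.log Q) / 2 * n)) := by
            rw [← h7]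
            ring
        _ ≤ _ := h6
        _ = _ := by ring
    exact le_of_mul_le_mul_right h8 (mul_pos (Real.exp_pos _) hBn)
  obtain ⟨n0, hn0⟩ := hρ2 (ε * Real.log B) (mul_pos hε hlB)
  refine ⟨(A.card : ℝ) ^ (2 * n0) + 1, ?_⟩
  intro n h
  have hn0' : (0 : ℝ) ≤ n := Nat.cast_nonneg n
  have hQn : 1 ≤ Q ^ n := one_le_pow₀ hQ1
  have hBn : 1 ≤ (B : ℝ) ^ (ε * n) := Real.one_le_rpow hB1.le (mul_nonneg hε.le hn0')
  have hAn : (0 : ℝ) ≤ (A.card : ℝ) ^ (2 * n0) := by positivity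
  have hQB : 1 ≤ Q ^ n * (B : ℝ) ^ (ε * n) := one_le_mul_of_one_le_of_one_le hQn hBn
  rw [mul_assoc]
  rcases le_or_gt n0 n with hn | hn
  · have h1 := E5_cnt_le B A t W H h hH1 n
    have h2 : (cntP B A t H n ((⌊h⌋ : ℤ) : ℝ) : ℝ) ≤ M α n := le_M hs n ⌊h⌋
    have h3 := hn0 n hn
    have hp := M_pos hs n
    have h4 : 2 * M α n ≤ Q ^ n * (B : ℝ) ^ (ε * n) := by
      have e5 : Real.log (Q ^ n * (B : ℝ) ^ (ε * n)) = n * Real.log Q + ε * n * Real.log B := by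
        rw [Real.log_mul (by linarith) (by linarith), Real.log_pow, Real.log_rpow hB0]
      rw [← Real.log_le_log_iff (by linarith) (by linarith), e5]
      refine h3.trans ?_
      have h5 : ρ * n ≤ Real.log Q * n := mul_le_mul_of_nonneg_right hρV hn0'
      linarith
    have h6 : Q ^ n * (B : ℝ) ^ (ε * n) ≤
        ((A.card : ℝ) ^ (2 * n0) + 1) * (Q ^ n * (B : ℝ) ^ (ε * n)) :=
      le_mul_of_one_le_left (by linarith) (by linarith)
    linarith
  · have h1 : (((Cd B A n ×ˢ Cd B A n).filter (fun p => |h - p.2 - t * p.1| ≤ W)).card : ℝ) ≤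
        (A.card : ℝ) ^ (2 * n) := by
      have h2 := Finset.card_filter_le (Cd B A n ×ˢ Cd B A n)
        (fun p => |h - p.2 - t * p.1| ≤ W)
      rw [Finset.card_product, Cd_card B A hA n, ← pow_add, ← two_mul] at h2
      exact_mod_cast h2
    have h2 : (A.card : ℝ) ^ (2 * n) ≤ (A.card : ℝ) ^ (2 * n0) :=
      pow_le_pow_right₀ ha1 (by omega)
    have h6 : ((A.card : ℝ) ^ (2 * n0) + 1) ≤
        ((A.card : ℝ) ^ (2 * n0) + 1) * (Q ^ n * (B : ℝ) ^ (ε * n)) :=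
      le_mul_of_one_le_right (by linarith) hQB
    linarith

end Pool.Agent.Lib.H21X
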