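import Pool.Agent.Lib.H21X.E1

/-!
# Chunk F1: mode -, words and cells

`cntG B A u r S n b = #{(i, j) ∈ Cd_n × Cd_n : ⌊(B^n b - (j + u i)) / r⌋ ∈ S}` for `n ≥ 1`,
and `cntG 0 b = 1`.

PROOF.  `cntG_add`: for a pair `p = (i, j)` of words of length `n` and a pair `p' = (i', j')` of
words of length `m` with `⌊(B^m (B^n b - (j + u i)) - (j' + u i')) / r⌋ ∈ S` the pair
`(B^m i + i', B^m j + j')` is counted by `cntG (n+m) b` (`Cd_add`), and different `(p, p')` give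
different pairs (`Cd_add_inj`).
`near_nb`: the two reals differ by less than `1`, so their floors differ by at most `1`.
`cell_nb`: `⌊B^n x⌋ / B^n = ⌊x⌋` (integer division) with `x = b / r`.
`mn_mem`: the set in the definition of `mn` is nonempty (take `b = r z / B^n`), `Nat.sInf_mem`,
`Nat.sInf_le`.
-/

namespace Pool.Agent.Lib.H21X

open Finset Filter

theorem cntG_add (B : ℕ) (A : Finset ℕ) (hA : A ⊆ range B) (u r : ℝ) (S : Finset ℤ) (n m : ℕ)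
    (hm : 1 ≤ m) (b : ℝ) (P : Finset (ℕ × ℕ)) (hP : P ⊆ Cd B A n ×ˢ Cd B A n) :
    ∑ p ∈ P, cntG B A u r S m ((B : ℝ) ^ n * b - (p.2 + u * p.1)) ≤ cntG B A u r S (n + m) b := by
  classical
  have hm0 : m ≠ 0 := by omega
  have hnm0 : n + m ≠ 0 := by omega
  unfold cntG
  simp only [hm0, hnm0, if_false]
  rw [← Finset.card_sigma]
  refine Finset.card_le_card_of_injOn
    (fun q : (_ : ℕ × ℕ) × (ℕ × ℕ) => (B ^ m * q.1.1 + q.2.1, B ^ m * q.1.2 + q.2.2)) ?_ ?_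
  · rintro ⟨p, p'⟩ hq
    simp only [Finset.coe_sigma, Set.mem_sigma_iff, Finset.mem_coe, Finset.mem_filter,
      Finset.mem_product] at hq
    obtain ⟨hp, ⟨h1, h2⟩, h3⟩ := hq
    have hp' := Finset.mem_product.1 (hP hp)
    simp only [Finset.coe_filter, Set.mem_setOf_eq, Finset.mem_product]
    refine ⟨⟨(Cd_add B A n m _).2 ⟨p.1, hp'.1, p'.1, h1, rfl⟩,
      (Cd_add B A n m _).2 ⟨p.2, hp'.2, p'.2, h2, rfl⟩⟩, ?_⟩
    have e : ((B : ℝ) ^ (n + m) * b - (((B ^ m * p.2 + p'.2 : ℕ) : ℝ)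
        + u * ((B ^ m * p.1 + p'.1 : ℕ) : ℝ))) =
        (B : ℝ) ^ m * ((B : ℝ) ^ n * b - (p.2 + u * p.1)) - (p'.2 + u * p'.1) := by
      push_cast; ring
    rw [e]; exact h3
  · rintro ⟨p, p'⟩ hq ⟨s, s'⟩ hs heq
    simp only [Finset.coe_sigma, Set.mem_sigma_iff, Finset.mem_coe, Finset.mem_filter,
      Finset.mem_product] at hq hs
    obtain ⟨hp, ⟨h1, h2⟩, h3⟩ := hq
    obtain ⟨hs0, ⟨g1, g2⟩, g3⟩ := hs
    simp only [Prod.mk.injEq] at heq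
    obtain ⟨e1, e1'⟩ := Cd_add_inj B A hA m _ _ _ _ h1 g1 heq.1
    obtain ⟨e2, e2'⟩ := Cd_add_inj B A hA m _ _ _ _ h2 g2 heq.2
    have ea : p = s := Prod.ext e1 e2
    have eb : p' = s' := Prod.ext e1' e2'
    subst ea; subst eb; rfl

theorem near_nb (r : ℝ) (hr : 0 < r) (S : Finset ℤ) (x y h : ℝ) (hxy : ⌊x / r⌋ = ⌊y / r⌋)
    (hx : ⌊(x - h) / r⌋ ∈ S) : ⌊(y - h) / r⌋ ∈ nb S := by
  have h1 : |x / r - y / r| < 1 := Int.abs_sub_lt_one_of_floor_eq_floor hxy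
  have e1 : (x - h) / r = x / r - h / r := by ring
  have e2 : (y - h) / r = y / r - h / r := by ring
  set k := ⌊(x - h) / r⌋ with hk
  have hk1 : (k : ℝ) ≤ (x - h) / r := Int.floor_le _
  have hk2 : (x - h) / r < k + 1 := Int.lt_floor_add_one _
  obtain ⟨ha, hb⟩ := abs_lt.1 h1
  have hlo : k - 1 ≤ ⌊(y - h) / r⌋ := by
    apply Int.le_floor.2; push_cast; rw [e2]; rw [e1] at hk1; linarith
  have hhi : ⌊(y - h) / r⌋ < k + 2 := by
    apply Int.floor_lt.2; push_cast; rw [e2]; rw [e1] at hk2; linarith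
  unfold nb
  simp only [Finset.mem_union, Finset.mem_image]
  have : ⌊(y - h) / r⌋ = k ∨ ⌊(y - h) / r⌋ = k + 1 ∨ ⌊(y - h) / r⌋ = k - 1 := by omega
  rcases this with h' | h' | h'
  · left; left; rw [h']; exact hx
  · left; right; exact ⟨k, hx, h'.symm⟩
  · right; exact ⟨k, hx, h'.symm⟩

theorem cell_nb (B : ℕ) (hB : 1 ≤ B) (r : ℝ) (n : ℕ) (z : ℤ) (b : ℝ)
    (hb : ⌊(B : ℝ) ^ n * b / r⌋ = z) : z / (B : ℤ) ^ n = ⌊b / r⌋ := by
  have hK : (0 : ℤ) < (B : ℤ) ^ n := by positivity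
  have hKr : (0 : ℝ) < (B : ℝ) ^ n := by positivity
  have e : (B : ℝ) ^ n * b / r = (B : ℝ) ^ n * (b / r) := by ring
  rw [e] at hb
  apply le_antisymm
  · apply Int.lt_add_one_iff.1
    apply (Int.ediv_lt_iff_lt_mul hK).2
    rw [← hb]
    apply Int.floor_lt.2
    push_cast
    have := Int.lt_floor_add_one (b / r)
    nlinarith
  · apply (Int.le_ediv_iff_mul_le hK).2
    rw [← hb]
    apply Int.le_floor.2
    push_cast
    have := Int.floor_le (b / r)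
    nlinarith

theorem mn_mem (B : ℕ) (hB : 1 ≤ B) (A : Finset ℕ) (u r : ℝ) (hr : 0 < r) (S : Finset ℤ) (n : ℕ)
    (z : ℤ) : ∃ b : ℝ, ⌊(B : ℝ) ^ n * b / r⌋ = z ∧ mn B A u r S n z = cntG B A u r S n b := by
  have hne : {c : ℕ | ∃ b : ℝ, ⌊(B : ℝ) ^ n * b / r⌋ = z ∧ c = cntG B A u r S n b}.Nonempty := by
    refine ⟨_, r * z / (B : ℝ) ^ n, ?_, rfl⟩
    have hKr : (B : ℝ) ^ n ≠ 0 := by positivity
    have : (B : ℝ) ^ n * (r * z / (B : ℝ) ^ n) / r = (z : ℝ) := by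
      field_simp
    rw [this, Int.floor_intCast]
  exact Nat.sInf_mem hne

theorem mn_le (B : ℕ) (A : Finset ℕ) (u r : ℝ) (S : Finset ℤ) (n : ℕ)
    (b : ℝ) : mn B A u r S n ⌊(B : ℝ) ^ n * b / r⌋ ≤ cntG B A u r S n b :=
  Nat.sInf_le ⟨b, rfl, rfl⟩

theorem cntG_le (B : ℕ) (A : Finset ℕ) (hA : A ⊆ range B) (u r : ℝ) (S : Finset ℤ) (n : ℕ)
    (b : ℝ) : cntG B A u r S n b ≤ A.card ^ (2 * n) := by
  unfold cntG
  by_cases hn : n = 0
  · subst hn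
    simp
  rw [if_neg hn]
  refine (Finset.card_filter_le _ _).trans ?_
  rw [Finset.card_product, Cd_card B A hA n, ← pow_add, two_mul]

end Pool.Agent.Lib.H21X
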