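import Pool.Agent.Lib.H21X.F1

/-!
# Chunk F2: mode -, the harmonic step

PROOF.  Let `b1` be in the cell `z0` of scale `n` with `mn n z0 = cntG n b1` (`mn_mem`) and `P`
the set counted by `cntG n b1`.  Let `y ∈ [0, B^m)`, `z = B^m z0 + y`, and let `b` be in the cell
`z` of scale `n + m` with `mn (n+m) z = cntG (n+m) b`.  Then `⌊B^n b / r⌋ = z0` (floor of
`B^(n+m) b / r` divided by `B^m`).  For `p ∈ P` put `b_p = B^n b - (p.2 + u p.1)`; by `near_nb`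
`⌊b_p / r⌋ ∈ nb S` (this is where `nb` is needed).  Further `B^m b_p / r = B^(n+m) b / r -
B^m (p.2 + u p.1) / r` lies in `[B^m (z0 - (1/r)(p.2 + u p.1)) + y, ... + 1)`, so its floor `z_p`
is `u_p + y` or `u_p + y + 1`, `u_p = ⌊B^m (z0 - (1/r)(p.2 + u p.1))⌋`; by `cell_nb`
`z_p / B^m = ⌊b_p / r⌋ ∈ nb S`, so `am m z_p = 1 / mn m z_p > 0` (`mn m z_p ≥ 1` by `hpos` and
`mn_mem`; a point of the cell `z_p` has the same `⌊b/r⌋ = z_p / B^m`), and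
`cntG m b_p ≥ mn m z_p = 1 / am m z_p ≥ 1 / (am m (u_p+y) + am m (u_p+y+1))` (`mn_le`,
`am ≥ 0`).  Sum over `p ∈ P` with `cntG_add` (this is the case `n ≥ 1`, `m ≥ 1`).
Case `n = 0`: `mn 0 z0 = 1`, take `P = {(0, 0)}` (`Cd B A 0 = {0}`); `b_p = b`, and
`⌊b / r⌋ = z0 ∈ nb S`; the rest is the same (for `m ≥ 1`; for `n = m = 0` everything is `1`).
Case `n ≥ 1`, `m = 0`: `y = 0`, `am 0 z' = 1` for `z' ∈ nb S` and `0` otherwise, one of
`u_p, u_p + 1` is `⌊b_p / r⌋ ∈ nb S`, so each term of the sum is `≤ 1` and the sum is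
`≤ #P = mn n z0`.
-/

namespace Pool.Agent.Lib.H21X

open Finset Filter

theorem am_nonneg (B : ℕ) (A : Finset ℕ) (u r : ℝ) (S : Finset ℤ) (n : ℕ) (z : ℤ) :
    0 ≤ am B A u r S n z := by
  unfold am
  split_ifs
  · positivity
  · exact le_rfl

/-- On the domain `mn ≥ 1`, so `0 < am ≤ 1`. -/
theorem mn_pos (B : ℕ) (hB : 1 ≤ B) (A : Finset ℕ) (u r : ℝ) (hr : 0 < r) (S : Finset ℤ)
    (hpos : ∀ (n : ℕ) (b : ℝ), ⌊b / r⌋ ∈ nb S → 1 ≤ cntG B A u r S n b) (n : ℕ) (z : ℤ)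
    (hz : z / (B : ℤ) ^ n ∈ nb S) : 1 ≤ mn B A u r S n z := by
  obtain ⟨b, hb, he⟩ := mn_mem B hB A u r hr S n z
  rw [he]
  apply hpos
  rw [← cell_nb B hB r n z b hb]
  exact hz

theorem stepH (B : ℕ) (hB : 2 ≤ B) (A : Finset ℕ) (hA : A ⊆ range B) (u r : ℝ) (hr : 0 < r)
    (S : Finset ℤ) (hpos : ∀ (n : ℕ) (b : ℝ), ⌊b / r⌋ ∈ nb S → 1 ≤ cntG B A u r S n b)
    (n m : ℕ) (z0 : ℤ) (hz0 : z0 / (B : ℤ) ^ n ∈ nb S) :
    ∃ P ⊆ Cd B A n ×ˢ Cd B A n, P.card = mn B A u r S n z0 ∧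
      ∀ y ∈ Finset.Ico (0 : ℤ) ((B : ℤ) ^ m),
        (∀ p ∈ P, 0 < am B A u r S m (⌊(B : ℝ) ^ m * (z0 - 1 / r * (p.2 + u * p.1))⌋ + y) +
          am B A u r S m (⌊(B : ℝ) ^ m * (z0 - 1 / r * (p.2 + u * p.1))⌋ + y + 1)) ∧
        ∑ p ∈ P, 1 / (am B A u r S m (⌊(B : ℝ) ^ m * (z0 - 1 / r * (p.2 + u * p.1))⌋ + y) +
          am B A u r S m (⌊(B : ℝ) ^ m * (z0 - 1 / r * (p.2 + u * p.1))⌋ + y + 1)) ≤
            (mn B A u r S (n + m) ((B : ℤ) ^ m * z0 + y) : ℝ) := by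
  have hB1 : 1 ≤ B := by omega
  obtain ⟨b1, hb1, he1⟩ := mn_mem B hB1 A u r hr S n z0
  obtain ⟨P, hPsub, hPcard, hPnb⟩ : ∃ P ⊆ Cd B A n ×ˢ Cd B A n, P.card = mn B A u r S n z0 ∧
      ∀ p ∈ P, ∀ b : ℝ, ⌊(B : ℝ) ^ n * b / r⌋ = z0 →
        ⌊((B : ℝ) ^ n * b - (p.2 + u * p.1)) / r⌋ ∈ nb S := by
    by_cases hn : n = 0
    · subst hn
      refine ⟨{(0, 0)}, ?_, ?_, ?_⟩
      · intro p hp
        rw [Finset.mem_singleton] at hp
        subst hp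
        simp [Cd]
      · rw [he1]
        simp [cntG]
      · intro p hp b hb
        rw [Finset.mem_singleton] at hp
        subst hp
        simp only [pow_zero, one_mul] at hb
        simp only [pow_zero, one_mul, Nat.cast_zero, mul_zero, add_zero, sub_zero]
        rw [hb]
        simpa using hz0
    · refine ⟨(Cd B A n ×ˢ Cd B A n).filter
        (fun p => ⌊((B : ℝ) ^ n * b1 - (p.2 + u * p.1)) / r⌋ ∈ S), Finset.filter_subset _ _,
        ?_, ?_⟩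
      · rw [he1]
        unfold cntG
        rw [if_neg hn]
      · intro p hp b hb
        have hpS : ⌊((B : ℝ) ^ n * b1 - (p.2 + u * p.1)) / r⌋ ∈ S := (Finset.mem_filter.1 hp).2
        exact near_nb r hr S ((B : ℝ) ^ n * b1) ((B : ℝ) ^ n * b) _ (by rw [hb1, hb]) hpS
  refine ⟨P, hPsub, hPcard, ?_⟩
  intro y hy
  obtain ⟨hy0, hy1⟩ := Finset.mem_Ico.1 hy
  obtain ⟨b, hb, he⟩ := mn_mem B hB1 A u r hr S (n + m) ((B : ℤ) ^ m * z0 + y)
  have hBm : (0 : ℤ) < (B : ℤ) ^ m := by positivity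
  have hbm : ⌊(B : ℝ) ^ m * ((B : ℝ) ^ n * b) / r⌋ = (B : ℤ) ^ m * z0 + y := by
    rw [← hb]
    congr 1
    rw [pow_add]
    ring
  have hz : ⌊(B : ℝ) ^ n * b / r⌋ = z0 := by
    rw [← cell_nb B hB1 r m _ ((B : ℝ) ^ n * b) hbm, add_comm,
      Int.add_mul_ediv_left _ _ hBm.ne', Int.ediv_eq_zero_of_lt hy0 hy1, zero_add]
  -- the key fact for one pair
  have key : ∀ p ∈ P,
      0 < am B A u r S m (⌊(B : ℝ) ^ m * (z0 - 1 / r * (p.2 + u * p.1))⌋ + y) +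
          am B A u r S m (⌊(B : ℝ) ^ m * (z0 - 1 / r * (p.2 + u * p.1))⌋ + y + 1) ∧
      1 / (am B A u r S m (⌊(B : ℝ) ^ m * (z0 - 1 / r * (p.2 + u * p.1))⌋ + y) +
          am B A u r S m (⌊(B : ℝ) ^ m * (z0 - 1 / r * (p.2 + u * p.1))⌋ + y + 1)) ≤
        (cntG B A u r S m ((B : ℝ) ^ n * b - (p.2 + u * p.1)) : ℝ) := by
    intro p hp
    have hnb0 := hPnb p hp b hz
    obtain ⟨h, hh⟩ : ∃ h : ℝ, h = (p.2 : ℝ) + u * p.1 := ⟨_, rfl⟩
    rw [← hh] at hnb0 ⊢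
    have hnb : ⌊((B : ℝ) ^ n * b - h) / r⌋ ∈ nb S := hnb0
    obtain ⟨zp, hzp⟩ : ∃ zp : ℤ, zp = ⌊(B : ℝ) ^ m * ((B : ℝ) ^ n * b - h) / r⌋ := ⟨_, rfl⟩
    have hcell : zp / (B : ℤ) ^ m = ⌊((B : ℝ) ^ n * b - h) / r⌋ :=
      cell_nb B hB1 r m zp ((B : ℝ) ^ n * b - h) hzp.symm
    have hzpnb : zp / (B : ℤ) ^ m ∈ nb S := by
      rw [hcell]
      exact hnb
    have hmn1 : 1 ≤ mn B A u r S m zp := mn_pos B hB1 A u r hr S hpos m zp hzpnb
    have hmnle : mn B A u r S m zp ≤ cntG B A u r S m ((B : ℝ) ^ n * b - h) := by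
      rw [hzp]
      exact mn_le B A u r S m ((B : ℝ) ^ n * b - h)
    have ham : am B A u r S m zp = 1 / (mn B A u r S m zp : ℝ) := by
      unfold am
      rw [if_pos hzpnb]
    have hmnR : (0 : ℝ) < (mn B A u r S m zp : ℝ) := by exact_mod_cast hmn1
    have hampos : 0 < am B A u r S m zp := by
      rw [ham]
      positivity
    -- position of zp
    obtain ⟨w, hw⟩ : ∃ w : ℝ, w = (B : ℝ) ^ m * (z0 - 1 / r * h) := ⟨_, rfl⟩
    have hX : (B : ℝ) ^ m * ((B : ℝ) ^ n * b - h) / r =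
        (B : ℝ) ^ m * ((B : ℝ) ^ n * b) / r - (B : ℝ) ^ m * z0 + w := by
      rw [hw]
      field_simp
      ring
    have hfl := Int.floor_eq_iff.1 hbm
    push_cast at hfl
    have hz1 : (w + y : ℝ) ≤ (B : ℝ) ^ m * ((B : ℝ) ^ n * b - h) / r := by
      rw [hX]
      linarith [hfl.1]
    have hz2 : (B : ℝ) ^ m * ((B : ℝ) ^ n * b - h) / r < w + y + 1 := by
      rw [hX]
      linarith [hfl.2]
    have hge : ⌊w⌋ + y ≤ zp := by
      rw [hzp, Int.le_floor]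
      push_cast
      have := Int.floor_le w
      linarith
    have hle : zp ≤ ⌊w⌋ + y + 1 := by
      have h1 : zp < ⌊w⌋ + y + 2 := by
        rw [hzp, Int.floor_lt]
        push_cast
        have := Int.lt_floor_add_one w
        linarith
      omega
    have hn1 := am_nonneg B A u r S m (⌊w⌋ + y)
    have hn2 := am_nonneg B A u r S m (⌊w⌋ + y + 1)
    have hsum : am B A u r S m zp ≤ am B A u r S m (⌊w⌋ + y) + am B A u r S m (⌊w⌋ + y + 1) := by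
      rcases (by omega : zp = ⌊w⌋ + y ∨ zp = ⌊w⌋ + y + 1) with h1 | h1
      · rw [h1]
        linarith
      · rw [h1]
        linarith
    rw [← hw]
    refine ⟨lt_of_lt_of_le hampos hsum, ?_⟩
    calc 1 / (am B A u r S m (⌊w⌋ + y) + am B A u r S m (⌊w⌋ + y + 1))
        ≤ 1 / am B A u r S m zp := one_div_le_one_div_of_le hampos hsum
      _ = (mn B A u r S m zp : ℝ) := by
          rw [ham, one_div_one_div]
      _ ≤ (cntG B A u r S m ((B : ℝ) ^ n * b - h) : ℝ) := by exact_mod_cast hmnle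
  refine ⟨fun p hp => (key p hp).1, ?_⟩
  by_cases hm : m = 0
  · subst hm
    have hy00 : y = 0 := by
      simp only [pow_zero] at hy1
      omega
    subst hy00
    have h1 : ∑ p ∈ P, 1 / (am B A u r S 0 (⌊(B : ℝ) ^ 0 * (z0 - 1 / r * (p.2 + u * p.1))⌋ + 0) +
          am B A u r S 0 (⌊(B : ℝ) ^ 0 * (z0 - 1 / r * (p.2 + u * p.1))⌋ + 0 + 1)) ≤
        ∑ p ∈ P, (1 : ℝ) := by
      refine Finset.sum_le_sum fun p hp => ?_
      have h2 := (key p hp).2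
      have h3 : cntG B A u r S 0 ((B : ℝ) ^ n * b - (p.2 + u * p.1)) = 1 := by simp [cntG]
      rw [h3] at h2
      simpa using h2
    refine h1.trans ?_
    simp only [Finset.sum_const, nsmul_eq_mul, mul_one, pow_zero, one_mul, add_zero]
    rw [hPcard]
  have hadd := cntG_add B A hA u r S n m (by omega) b P hPsub
  rw [he]
  calc ∑ p ∈ P,
        1 / (am B A u r S m (⌊(B : ℝ) ^ m * (z0 - 1 / r * (p.2 + u * p.1))⌋ + y) +
          am B A u r S m (⌊(B : ℝ) ^ m * (z0 - 1 / r * (p.2 + u * p.1))⌋ + y + 1))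
      ≤ ∑ p ∈ P, (cntG B A u r S m ((B : ℝ) ^ n * b - (p.2 + u * p.1)) : ℝ) :=
        Finset.sum_le_sum fun p hp => (key p hp).2
    _ ≤ (cntG B A u r S (n + m) b : ℝ) := by exact_mod_cast hadd

end Pool.Agent.Lib.H21X
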